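import Pool.Agent.Y451.Hom1

/-! Duality between explicit singular homology and cohomology over a field. -/

set_option autoImplicit false

noncomputable section

namespace Pool.Agent.Y451

open Pool.Agent.Helper381 Pool.Agent.TH592.Nag Module

section Dual

variable {F : Type} [Field F] {X : Type} [TopologicalSpace X]

/-- evaluation of a cochain -/
abbrev pr {n : ℕ} (f : Sing X n → F) : (Sing X n →₀ F) →ₗ[F] F := Finsupp.linearCombination F f

lemma pr_altd {n : ℕ} (f : Sing X n → F) (c : Sing X (n + 1) →₀ F) :
    pr (altd F (sface (X := X)) n f) c = pr f (bd F X n c) := by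
  have h : pr (altd F (sface (X := X)) n f) = (pr f).comp (bd F X n) := by
    refine Finsupp.lhom_ext' fun σ => LinearMap.ext_ring ?_
    simp only [LinearMap.comp_apply, Finsupp.lsingle_apply, pr,
      Finsupp.linearCombination_single, one_smul, bd, map_sum, map_zsmul]
    rw [altd_apply]
    refine Finset.sum_congr rfl fun i _ => ?_
    rw [zsmul_eq_mul]
    push_cast
    rfl
  exact LinearMap.congr_fun h c

lemma pr_single {n : ℕ} (f : Sing X n → F) (σ : Sing X n) : pr f (Finsupp.single σ 1) = f σ := by
  simp [pr]

/-- linear combinations of cochains -/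
lemma pr_sum {n m : ℕ} (a : Fin m → F) (f : Fin m → (Sing X n → F)) (c : Sing X n →₀ F) :
    pr (∑ j, a j • f j) c = ∑ j, a j * pr (f j) c := by
  simp only [pr, Finsupp.linearCombination_apply, Finsupp.sum, Finset.sum_apply, Pi.smul_apply,
    smul_eq_mul, Finset.mul_sum]
  rw [Finset.sum_comm]
  refine Finset.sum_congr rfl fun j _ => Finset.sum_congr rfl fun i _ => ?_
  ring

/-- a cochain vanishing on cycles is a coboundary -/
lemma cobound_of_cyc {n : ℕ} (f : Sing X n → F) (h : ∀ z ∈ cyc F X n, pr f z = 0) :
    f ∈ cobound F (fun n => Sing X n → F) (fun n => altd F (sface (X := X)) n) n := by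
  cases n with
  | zero =>
    change f = 0
    funext σ
    have := h (Finsupp.single σ 1) trivial
    rwa [pr_single] at this
  | succ n =>
    have h1 : (pr f) ∈ (LinearMap.ker (bd F X n)).dualAnnihilator := by
      rw [Submodule.mem_dualAnnihilator]
      intro z hz
      exact h z hz
    rw [← LinearMap.range_dualMap_eq_dualAnnihilator_ker] at h1
    obtain ⟨g, hg⟩ := h1
    refine ⟨fun σ => g (Finsupp.single σ 1), ?_⟩
    funext σ
    have h2 : pr (fun σ => g (Finsupp.single σ 1)) = g := by
      refine Finsupp.lhom_ext' fun σ => LinearMap.ext_ring ?_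
      simp [pr]
    have h3 := pr_altd (fun σ => g (Finsupp.single σ 1)) (Finsupp.single σ 1)
    rw [pr_single, h2] at h3
    change altd F (sface (X := X)) n (fun σ => g (Finsupp.single σ 1)) σ = f σ
    rw [h3, ← pr_single f σ, ← hg]
    rfl

/-- families of independent homology classes from dimensions -/
lemma indCyc_iff {n m : ℕ} : (m : Cardinal) ≤ Module.rank F (Hm F X n) ↔ IndCyc F X n m := by
  rw [le_rank_iff]
  have key : ∀ (z : Fin m → cyc F X n),
      LinearIndependent F (fun i => ((bou F X n).submoduleOf (cyc F X n)).mkQ (z i)) ↔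
      ∀ a : Fin m → F, ∑ i, a i • (z i).1 ∈ bou F X n → a = 0 := by
    intro z
    rw [Fintype.linearIndependent_iff]
    have h1 : ∀ a : Fin m → F, (∑ i, a i • ((bou F X n).submoduleOf (cyc F X n)).mkQ (z i) = 0 ↔
        ∑ i, a i • (z i).1 ∈ bou F X n) := by
      intro a
      have h2 : ∑ i, a i • ((bou F X n).submoduleOf (cyc F X n)).mkQ (z i) =
          ((bou F X n).submoduleOf (cyc F X n)).mkQ (∑ i, a i • z i) := by
        rw [map_sum]
        simp only [map_smul]
      rw [h2, Submodule.mkQ_apply, Submodule.Quotient.mk_eq_zero, Submodule.submoduleOf,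
        Submodule.mem_comap]
      simp
    constructor
    · intro h a ha
      funext i
      exact h a ((h1 a).2 ha) i
    · intro h a ha i
      exact congrFun (h a ((h1 a).1 ha)) i
  constructor
  · rintro ⟨v, hv⟩
    choose z hz using fun i : Fin m => Submodule.mkQ_surjective _ (v i)
    refine ⟨fun i => (z i).1, fun i => (z i).2, (key z).1 ?_⟩
    simp only [hz]
    exact hv
  · rintro ⟨z, hz1, hz2⟩
    exact ⟨_, (key fun i => ⟨z i, hz1 i⟩).2 hz2⟩

/-- cohomology is not larger than homology -/
lemma indCyc_of_coh {n : ℕ} [Module.Finite F (SingCoh F X n)] :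
    IndCyc F X n (finrank F (SingCoh F X n)) := by
  rw [← indCyc_iff]
  by_contra hcon
  push Not at hcon
  have hfin : Module.Finite F (Hm F X n) := by
    rw [← Module.rank_lt_aleph0_iff]
    exact hcon.trans (Cardinal.natCast_lt_aleph0)
  rw [← Module.finrank_eq_rank, Nat.cast_lt] at hcon
  -- the pairing with cocycles
  let T : LinearMap.ker (altd F (sface (X := X)) n) →ₗ[F] Dual F (Hm F X n) :=
    { toFun := fun f => Submodule.liftQ _ ((pr f.1).comp (cyc F X n).subtype) (by
        intro z hz
        have hz' : z.1 ∈ bou F X n := hz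
        obtain ⟨e, he⟩ := hz'
        rw [LinearMap.mem_ker]
        change pr f.1 z.1 = 0
        rw [← he, ← pr_altd, f.2]
        simp [pr])
      map_add' := by
        intro f g
        apply Submodule.linearMap_qext
        ext z
        change pr (f.1 + g.1) z.1 = pr f.1 z.1 + pr g.1 z.1
        simp only [pr, Finsupp.linearCombination_apply, Finsupp.sum, Pi.add_apply, smul_add,
          Finset.sum_add_distrib]
      map_smul' := by
        intro c f
        apply Submodule.linearMap_qext
        ext z
        change pr (c • f.1) z.1 = c • pr f.1 z.1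
        simp only [pr, Finsupp.linearCombination_apply, Finsupp.sum, Pi.smul_apply, smul_eq_mul,
          Finset.mul_sum]
        exact Finset.sum_congr rfl fun i _ => by ring }
  have hT : ∀ (f : LinearMap.ker (altd F (sface (X := X)) n)) (z : cyc F X n),
      T f (Submodule.Quotient.mk z) = pr f.1 z.1 := fun f z => rfl
  have hker : LinearMap.ker T ≤
      (cobound F (fun n => Sing X n → F) (fun n => altd F (sface (X := X)) n) n).comap
        (LinearMap.ker (altd F (sface (X := X)) n)).subtype := by
    intro f hf
    rw [Submodule.mem_comap]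
    apply cobound_of_cyc
    intro z hz
    have := hT f ⟨z, hz⟩
    rw [LinearMap.mem_ker.1 hf] at this
    exact this.symm
  have hker2 : (cobound F (fun n => Sing X n → F) (fun n => altd F (sface (X := X)) n) n).comap
        (LinearMap.ker (altd F (sface (X := X)) n)).subtype ≤ LinearMap.ker T := by
    intro f hf
    rw [LinearMap.mem_ker]
    apply Submodule.linearMap_qext
    ext z
    change pr f.1 z.1 = 0
    rw [Submodule.mem_comap] at hf
    cases n with
    | zero =>
      have : f.1 = 0 := hf
      rw [this]
      simp [pr]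
    | succ n =>
      obtain ⟨g, hg⟩ := hf
      have hg' : altd F (sface (X := X)) n g = f.1 := hg
      have hz : bd F X n z.1 = 0 := z.2
      rw [← hg', pr_altd, hz, map_zero]
  have h1 := LinearMap.finrank_le_finrank_of_injective
    (f := Submodule.liftQ _ T hker2) (by
      rw [← LinearMap.ker_eq_bot, Submodule.ker_liftQ_eq_bot' _ _ (le_antisymm hker2 hker)])
  rw [Subspace.dual_finrank_eq] at h1
  exact absurd hcon (not_lt.2 h1)

/-- homology is not larger than cohomology -/
lemma le_coh_of_indCyc {n m : ℕ} [Module.Finite F (SingCoh F X n)] (h : IndCyc F X n m) :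
    m ≤ finrank F (SingCoh F X n) := by
  classical
  obtain ⟨z, hz1, hz2⟩ := h
  have hli : LinearIndependent F (fun i => (bou F X n).mkQ (z i)) := by
    rw [Fintype.linearIndependent_iff]
    intro a ha i
    have h2 : ∑ i, a i • (bou F X n).mkQ (z i) = (bou F X n).mkQ (∑ i, a i • z i) := by
      rw [map_sum]
      simp only [map_smul]
    rw [h2, Submodule.mkQ_apply, Submodule.Quotient.mk_eq_zero] at ha
    exact congrFun (hz2 a ha) i
  obtain ⟨L, hL⟩ := LinearMap.exists_extend hli.repr
  let L' : (Sing X n →₀ F) →ₗ[F] (Fin m →₀ F) := L.comp (bou F X n).mkQ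
  have hL'z : ∀ i, L' (z i) = Finsupp.single i 1 := by
    intro i
    have h1 : (bou F X n).mkQ (z i) ∈
        Submodule.span F (Set.range fun i => (bou F X n).mkQ (z i)) :=
      Submodule.subset_span ⟨i, rfl⟩
    have h2 := LinearMap.congr_fun hL ⟨_, h1⟩
    rw [hli.repr_eq_single i ⟨_, h1⟩ rfl] at h2
    exact h2
  have hL'b : ∀ b ∈ bou F X n, L' b = 0 := by
    intro b hb
    change L ((bou F X n).mkQ b) = 0
    rw [Submodule.mkQ_apply, (Submodule.Quotient.mk_eq_zero _).2 hb, map_zero]
  let f : Fin m → (Sing X n → F) := fun j σ => L' (Finsupp.single σ 1) j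
  have hf : ∀ j c, pr (f j) c = L' c j := by
    intro j c
    have : pr (f j) = (Finsupp.lapply j).comp L' := by
      refine Finsupp.lhom_ext' fun σ => LinearMap.ext_ring ?_
      simp [pr, f]
    rw [this]
    rfl
  have hcoc : ∀ j, altd F (sface (X := X)) n (f j) = 0 := by
    intro j
    funext σ
    have := pr_altd (f j) (Finsupp.single σ 1)
    rw [pr_single, hf, hL'b _ ⟨_, rfl⟩] at this
    exact this
  let Φ : (Fin m → F) →ₗ[F] SingCoh F X n :=
    (Submodule.mkQ _).comp
      (LinearMap.codRestrict (LinearMap.ker (altd F (sface (X := X)) n))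
        (Fintype.linearCombination F f) (by
          intro a
          rw [LinearMap.mem_ker, Fintype.linearCombination_apply, map_sum]
          simp only [map_smul, hcoc, smul_zero, Finset.sum_const_zero]))
  have hΦ : Function.Injective Φ := by
    rw [← LinearMap.ker_eq_bot, LinearMap.ker_eq_bot']
    intro a ha
    have h1 := (Submodule.Quotient.mk_eq_zero _).1 ha
    have h2 : ∑ j, a j • f j ∈
        cobound F (fun n => Sing X n → F) (fun n => altd F (sface (X := X)) n) n := h1
    have h3 : ∀ c ∈ cyc F X n, pr (∑ j, a j • f j) c = 0 := by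
      intro c hc
      cases n with
      | zero =>
        have : ∑ j, a j • f j = 0 := h2
        rw [this]
        simp [pr]
      | succ n =>
        obtain ⟨g, hg⟩ := h2
        have hg' : altd F (sface (X := X)) n g = ∑ j, a j • f j := hg
        have hc' : bd F X n c = 0 := hc
        rw [← hg', pr_altd, hc', map_zero]
    funext i
    have h4 := h3 (z i) (hz1 i)
    rw [pr_sum] at h4
    simp only [hf, hL'z] at h4
    simpa [Finsupp.single_apply] using h4
  have := LinearMap.finrank_le_finrank_of_injective hΦ
  simpa using this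

/-- homology is finite-dimensional -/
lemma hm_finite {n : ℕ} [Module.Finite F (SingCoh F X n)] : Module.Finite F (Hm F X n) := by
  rw [← Module.rank_lt_aleph0_iff]
  by_contra hcon
  push Not at hcon
  have h1 : ((finrank F (SingCoh F X n) + 1 : ℕ) : Cardinal) ≤ Module.rank F (Hm F X n) :=
    (Cardinal.natCast_lt_aleph0).le.trans hcon
  have h2 := le_coh_of_indCyc (indCyc_iff.1 h1)
  omega

/-- the comparison of dimensions -/
theorem coh_le_real (h2 : No2 X) (n : ℕ) [Module.Finite (ZMod 2) (SingCoh (ZMod 2) X n)]
    [Module.Finite ℝ (SingCoh ℝ X n)] :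
    finrank (ZMod 2) (SingCoh (ZMod 2) X n) ≤ finrank ℝ (Hm ℝ X n) := by
  have : Fact (Nat.Prime 2) := ⟨Nat.prime_two⟩
  have h1 := indCyc_real h2 (indCyc_of_coh (F := ZMod 2) (X := X) (n := n))
  have h3 := hm_finite (F := ℝ) (X := X) (n := n)
  have h4 := indCyc_iff.2 h1
  rw [← Module.finrank_eq_rank] at h4
  exact_mod_cast h4

end Dual

end Pool.Agent.Y451
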