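import Pool.Agent.Y451.Van2
import Pool.Agent.Helper381.Cover

/-! Coloured covers of small mesh. -/

set_option autoImplicit false

open Set Metric Filter Topology

noncomputable section

namespace Pool.Agent.Y451

open Pool.Agent.Helper381

universe u v w

section CF

variable {M : Type u} [MetricSpace M]

/-- covers by `d + 1` families of small separated open sets -/
def CF (d : ℕ) (K : Set M) : Prop :=
  ∀ ε > 0, ∃ δ > 0, ∃ 𝒲 : Fin (d + 1) → Set (Set M),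
    (∀ i, ∀ W ∈ 𝒲 i, IsOpen W ∧ ∀ x ∈ W, ∀ y ∈ W, dist x y ≤ ε) ∧
    (∀ i, ∀ W ∈ 𝒲 i, ∀ W' ∈ 𝒲 i, W ≠ W' → ∀ x ∈ W, ∀ y ∈ W', δ ≤ dist x y) ∧
    K ⊆ ⋃ i, ⋃₀ 𝒲 i

lemma CF.empty (d : ℕ) : CF d (∅ : Set M) := by
  intro ε _
  refine ⟨1, one_pos, fun _ => ∅, ?_, ?_, empty_subset _⟩
  · intro i W hW; exact absurd hW (notMem_empty _)
  · intro i W hW; exact absurd hW (notMem_empty _)

lemma CF.mono {d : ℕ} {K K' : Set M} (h : K ⊆ K') (hK : CF d K') : CF d K := by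
  intro ε hε
  obtain ⟨δ, hδ, 𝒲, h1, h2, h3⟩ := hK ε hε
  exact ⟨δ, hδ, 𝒲, h1, h2, h.trans h3⟩

/-- the enlargement of a set by a family -/
def enl (𝒱 : Set (Set M)) (δ : ℝ) (W : Set M) : Set M :=
  W ∪ ⋃₀ {V | V ∈ 𝒱 ∧ ∃ x ∈ V, ∃ y ∈ W, dist x y < δ}

lemma CF.union {d : ℕ} {K K' : Set M} (hK : CF d K) (hK' : CF d K') : CF d (K ∪ K') := by
  intro ε hε
  obtain ⟨δ₁, hδ₁, 𝒲, w1, w2, w3⟩ := hK (ε / 2) (by positivity)
  set δ := min (δ₁ / 8) (ε / 16) with hδ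
  have hδ0 : 0 < δ := lt_min (by positivity) (by positivity)
  have hδa : δ ≤ δ₁ / 8 := min_le_left _ _
  have hδb : δ ≤ ε / 16 := min_le_right _ _
  obtain ⟨δ₂, hδ₂, 𝒱, v1, v2, v3⟩ := hK' δ hδ0
  -- points of the enlargement are close to W
  have hclose : ∀ i, ∀ W ∈ 𝒲 i, ∀ x ∈ enl (𝒱 i) δ W, ∃ y ∈ W, dist x y ≤ 2 * δ := by
    rintro i W hW x (hx | ⟨V, ⟨hV, x', hx', y, hy, hxy⟩, hxV⟩)
    · exact ⟨x, hx, by rw [dist_self]; positivity⟩
    · refine ⟨y, hy, ?_⟩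
      have h1 := (v1 i V hV).2 x hxV x' hx'
      have h2 := dist_triangle x x' y
      linarith
  refine ⟨min δ δ₂, lt_min hδ0 hδ₂, fun i => {U | ∃ W ∈ 𝒲 i, U = enl (𝒱 i) δ W} ∪
    {V | V ∈ 𝒱 i ∧ ∀ W ∈ 𝒲 i, ∀ x ∈ V, ∀ y ∈ W, δ ≤ dist x y}, ?_, ?_, ?_⟩
  · rintro i U (⟨W, hW, rfl⟩ | ⟨hV, _⟩)
    · refine ⟨?_, ?_⟩
      · apply (w1 i W hW).1.union
        apply isOpen_sUnion
        rintro V ⟨hV, _⟩
        exact (v1 i V hV).1
      · intro x hx y hy
        obtain ⟨x', hx', hxx⟩ := hclose i W hW x hx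
        obtain ⟨y', hy', hyy⟩ := hclose i W hW y hy
        have h1 := (w1 i W hW).2 x' hx' y' hy'
        have h2 := dist_triangle4 x x' y' y
        rw [dist_comm y' y] at h2
        linarith
    · refine ⟨(v1 i U hV).1, fun x hx y hy => ((v1 i U hV).2 x hx y hy).trans ?_⟩
      linarith
  · have hsep : ∀ i, ∀ W ∈ 𝒲 i, ∀ V, V ∈ 𝒱 i → (∀ W ∈ 𝒲 i, ∀ x ∈ V, ∀ y ∈ W, δ ≤ dist x y) →
        ∀ x ∈ enl (𝒱 i) δ W, ∀ y ∈ V, min δ δ₂ ≤ dist x y := by
      rintro i W hW V hV hfar x (hx | ⟨V', ⟨hV', x', hx', y', hy', hxy⟩, hxV⟩) y hy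
      · rw [dist_comm]
        exact (min_le_left _ _).trans (hfar W hW y hy x hx)
      · refine (min_le_right _ _).trans (v2 i V' hV' V hV ?_ x hxV y hy)
        rintro rfl
        exact absurd (hfar W hW x' hx' y' hy') (not_le.2 hxy)
    rintro i U (⟨W, hW, rfl⟩ | ⟨hV, hfar⟩) U' (⟨W', hW', rfl⟩ | ⟨hV', hfar'⟩) hne x hx y hy
    · obtain ⟨x', hx', hxx⟩ := hclose i W hW x hx
      obtain ⟨y', hy', hyy⟩ := hclose i W' hW' y hy
      have hWW : W ≠ W' := by rintro rfl; exact hne rfl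
      have h1 := w2 i W hW W' hW' hWW x' hx' y' hy'
      have h2 := dist_triangle4 x' x y y'
      rw [dist_comm x' x] at h2
      refine (min_le_left _ _).trans ?_
      linarith
    · exact hsep i W hW U' hV' hfar' x hx y hy
    · rw [dist_comm]
      exact hsep i W' hW' U hV hfar y hy x hx
    · exact (min_le_right _ _).trans (v2 i U hV U' hV' hne x hx y hy)
  · rintro x (hx | hx)
    · obtain ⟨i, W, hW, hxW⟩ := by simpa using w3 hx
      exact mem_iUnion.2 ⟨i, enl (𝒱 i) δ W, Or.inl ⟨W, hW, rfl⟩, Or.inl hxW⟩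
    · obtain ⟨i, V, hV, hxV⟩ := by simpa using v3 hx
      by_cases hfar : ∀ W ∈ 𝒲 i, ∀ x ∈ V, ∀ y ∈ W, δ ≤ dist x y
      · exact mem_iUnion.2 ⟨i, V, Or.inr ⟨hV, hfar⟩, hxV⟩
      · push Not at hfar
        obtain ⟨W, hW, x', hx', y, hy, hxy⟩ := hfar
        exact mem_iUnion.2 ⟨i, enl (𝒱 i) δ W, Or.inl ⟨W, hW, rfl⟩,
          Or.inr ⟨V, ⟨hV, x', hx', y, hy, hxy⟩, hxV⟩⟩

/-- the cubes -/
def cube (d : ℕ) (s : ℝ) (i : Fin (d + 1)) (z : Fin d → ℤ) : Set (EuclideanSpace ℝ (Fin d)) :=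
  {v | ∀ k, |v k / s - (i : ℝ) / (d + 1) - z k| < 1 / 2 - 1 / (4 * (d + 1))}

lemma color_aux {d : ℕ} (x : ℝ) (i j : Fin (d + 1)) (hij : i ≠ j)
    (hi : ∀ n : ℤ, 1 / 2 - 1 / (4 * ((d : ℝ) + 1)) ≤ |x - (i : ℝ) / (d + 1) - n|)
    (hj : ∀ n : ℤ, 1 / 2 - 1 / (4 * ((d : ℝ) + 1)) ≤ |x - (j : ℝ) / (d + 1) - n|) : False := by
  have hd : (0 : ℝ) < (d : ℝ) + 1 := by positivity
  set h : ℝ := 1 / (4 * ((d : ℝ) + 1)) with hh
  have hhpos : 0 < h := by positivity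
  -- distance of x - i/(d+1) to the half integers is at most h
  have key : ∀ y : ℝ, (∀ n : ℤ, 1 / 2 - h ≤ |y - n|) → |2 * y - 2 * ⌊y⌋ - 1| ≤ 2 * h := by
    intro y hy
    have h1 := hy ⌊y⌋
    have h2 := hy (⌊y⌋ + 1)
    have h3 := Int.floor_le y
    have h4 := Int.lt_floor_add_one y
    rw [abs_of_nonneg (by linarith)] at h1
    push_cast at h2
    rw [abs_of_nonpos (by linarith)] at h2
    rw [abs_le]
    constructor <;> linarith
  have ki := key _ hi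
  have kj := key _ hj
  set a := ⌊x - (i : ℝ) / (d + 1)⌋
  set b := ⌊x - (j : ℝ) / (d + 1)⌋
  rw [abs_le] at ki kj
  -- (j - i)/(d+1) - (b' ...) is within 2h of an integer
  have e1 : |((j : ℝ) - i) / (d + 1) - ((a : ℝ) - b)| ≤ 2 * h := by
    rw [abs_le]
    have : ((j : ℝ) - i) / (d + 1) = (j : ℝ) / (d + 1) - (i : ℝ) / (d + 1) := by ring
    rw [this]
    constructor <;> linarith [ki.1, ki.2, kj.1, kj.2]
  have e2 : |((j : ℝ) - i) - ((a : ℝ) - b) * (d + 1)| ≤ 1 / 2 := by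
    have h1 : ((j : ℝ) - i) - ((a : ℝ) - b) * (d + 1) =
        (((j : ℝ) - i) / (d + 1) - ((a : ℝ) - b)) * (d + 1) := by field_simp
    rw [h1, abs_mul, abs_of_pos hd]
    calc |((j : ℝ) - i) / (d + 1) - ((a : ℝ) - b)| * (d + 1) ≤ 2 * h * (d + 1) := by gcongr
      _ = 1 / 2 := by rw [hh]; field_simp; norm_num
  have e3 : ((j : ℤ) - i) - (a - b) * (d + 1) = 0 := by
    have h1 : |(((j : ℤ) - i - (a - b) * (d + 1) : ℤ) : ℝ)| < 1 := by
      push_cast
      exact lt_of_le_of_lt e2 (by norm_num)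
    have h2 : |((j : ℤ) - i) - (a - b) * (d + 1)| < 1 := by exact_mod_cast h1
    exact Int.abs_lt_one_iff.1 h2
  have e4 : (j : ℤ) - i = (a - b) * (d + 1) := by linarith
  have hi' : ((i : ℕ) : ℤ) < d + 1 := by exact_mod_cast i.2
  have hj' : ((j : ℕ) : ℤ) < d + 1 := by exact_mod_cast j.2
  have hi0 : (0 : ℤ) ≤ ((i : ℕ) : ℤ) := by positivity
  have hj0 : (0 : ℤ) ≤ ((j : ℕ) : ℤ) := by positivity
  have e5 : a - b = 0 := by
    by_contra hne
    rcases lt_or_gt_of_ne hne with h1 | h1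
    · have : (a - b) * ((d : ℤ) + 1) ≤ -1 * ((d : ℤ) + 1) := by
        apply mul_le_mul_of_nonneg_right (by omega) (by positivity)
      omega
    · have : 1 * ((d : ℤ) + 1) ≤ (a - b) * ((d : ℤ) + 1) := by
        apply mul_le_mul_of_nonneg_right (by omega) (by positivity)
      omega
  rw [e5, zero_mul] at e4
  apply hij
  apply Fin.ext
  omega

lemma cube_cover (d : ℕ) (s : ℝ) (v : EuclideanSpace ℝ (Fin d)) : ∃ i z, v ∈ cube d s i z := by
  by_contra hcon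
  push Not at hcon
  have hbad : ∀ i : Fin (d + 1), ∃ k : Fin d, ∀ n : ℤ,
      1 / 2 - 1 / (4 * ((d : ℝ) + 1)) ≤ |v k / s - (i : ℝ) / (d + 1) - n| := by
    intro i
    by_contra hgood
    push Not at hgood
    choose z hz using hgood
    exact hcon i z hz
  choose k hk using hbad
  obtain ⟨i, j, hij, hkk⟩ := Fintype.exists_ne_map_eq_of_card_lt k (by simp)
  have h1 := hk i
  have h2 := hk j
  rw [← hkk] at h2
  exact color_aux (v (k i) / s) i j hij h1 h2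

lemma cube_mesh {d : ℕ} {s : ℝ} (hs : 0 < s) {i : Fin (d + 1)} {z : Fin d → ℤ}
    {v w : EuclideanSpace ℝ (Fin d)} (hv : v ∈ cube d s i z) (hw : w ∈ cube d s i z) :
    ‖v - w‖ ≤ d * s := by
  have h1 : ∀ k, |v k - w k| ≤ s := by
    intro k
    have a := hv k
    have b := hw k
    have hpos : (0 : ℝ) < 1 / (4 * ((d : ℝ) + 1)) := by positivity
    have e : v k - w k = ((v k / s - (i : ℝ) / (d + 1) - z k) -
        (w k / s - (i : ℝ) / (d + 1) - z k)) * s := by field_simp; ring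
    rw [e, abs_mul, abs_of_pos hs]
    have := abs_sub (v k / s - (i : ℝ) / (d + 1) - z k) (w k / s - (i : ℝ) / (d + 1) - z k)
    calc _ ≤ 1 * s := by gcongr; linarith
      _ = s := one_mul s
  have h2 : ‖v - w‖ ≤ ∑ k, ‖(v - w) k‖ := by
    have h3 : v - w = ∑ k, EuclideanSpace.single k ((v - w) k) := by
      ext j
      simp
    conv_lhs => rw [h3]
    refine (norm_sum_le _ _).trans (le_of_eq ?_)
    refine Finset.sum_congr rfl fun k _ => ?_
    simp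
  refine h2.trans ?_
  calc ∑ k, ‖(v - w) k‖ ≤ ∑ _k : Fin d, s := by
        refine Finset.sum_le_sum fun k _ => ?_
        rw [Real.norm_eq_abs]
        exact h1 k
    _ = d * s := by simp

lemma cube_sep {d : ℕ} {s : ℝ} (hs : 0 < s) {i : Fin (d + 1)} {z z' : Fin d → ℤ} (hz : z ≠ z')
    {v w : EuclideanSpace ℝ (Fin d)} (hv : v ∈ cube d s i z) (hw : w ∈ cube d s i z') :
    s / (2 * (d + 1)) ≤ ‖v - w‖ := by
  obtain ⟨k, hk⟩ := Function.ne_iff.1 hz
  have a := hv k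
  have b := hw k
  have h1 : (1 : ℝ) ≤ |(z k : ℝ) - z' k| := by
    have : (1 : ℤ) ≤ |z k - z' k| := Int.one_le_abs (sub_ne_zero.2 hk)
    exact_mod_cast this
  have h2 : |(z k : ℝ) - z' k| ≤ |v k / s - w k / s| +
      |v k / s - (i : ℝ) / (d + 1) - z k| + |w k / s - (i : ℝ) / (d + 1) - z' k| := by
    have e : (z k : ℝ) - z' k = (v k / s - w k / s) - (v k / s - (i : ℝ) / (d + 1) - z k) +
        (w k / s - (i : ℝ) / (d + 1) - z' k) := by ring
    calc |(z k : ℝ) - z' k| = _ := by rw [e]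
      _ ≤ |(v k / s - w k / s) - (v k / s - (i : ℝ) / (d + 1) - z k)| +
          |w k / s - (i : ℝ) / (d + 1) - z' k| := abs_add_le _ _
      _ ≤ _ := by gcongr; exact abs_sub _ _
  have h3 : v k / s - w k / s = (v - w) k / s := by
    rw [PiLp.sub_apply]; ring
  rw [h3, abs_div, abs_of_pos hs] at h2
  have h4 : |(v - w) k| ≤ ‖v - w‖ := by
    rw [← Real.norm_eq_abs]
    exact PiLp.norm_apply_le _ _
  have h5 : 1 / (2 * ((d : ℝ) + 1)) ≤ |(v - w) k| / s := by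
    have : 1 / (2 * ((d : ℝ) + 1)) = 2 * (1 / (4 * ((d : ℝ) + 1))) := by field_simp; norm_num
    rw [this]
    linarith
  rw [le_div_iff₀ hs] at h5
  calc s / (2 * (d + 1)) = 1 / (2 * ((d : ℝ) + 1)) * s := by ring
    _ ≤ |(v - w) k| := h5
    _ ≤ _ := h4

lemma isOpen_cube (d : ℕ) (s : ℝ) (i : Fin (d + 1)) (z : Fin d → ℤ) : IsOpen (cube d s i z) := by
  have : cube d s i z = ⋂ k, {v : EuclideanSpace ℝ (Fin d) |
      |v k / s - (i : ℝ) / (d + 1) - z k| < 1 / 2 - 1 / (4 * (d + 1))} := by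
    ext v
    simp [cube]
  rw [this]
  apply isOpen_iInter_of_finite
  intro k
  apply isOpen_lt _ continuous_const
  fun_prop

/-- small pieces of a manifold -/
lemma CF.of_bilip {d : ℕ} {K : Set M} (hK : IsOpen K) (φ : M → EuclideanSpace ℝ (Fin d)) (L : ℝ)
    (hL : 1 ≤ L) (h1 : ∀ x ∈ K, ∀ y ∈ K, ‖φ x - φ y‖ ≤ L * dist x y)
    (h2 : ∀ x ∈ K, ∀ y ∈ K, dist x y ≤ L * ‖φ x - φ y‖) : CF d K := by
  intro ε hε
  set s : ℝ := ε / (L * (d + 1)) with hs
  have hs0 : 0 < s := by positivity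
  have hcont : ContinuousOn φ K := by
    have : LipschitzOnWith (Real.toNNReal L) φ K := by
      apply LipschitzOnWith.of_dist_le_mul
      intro x hx y hy
      rw [Real.coe_toNNReal _ (by linarith), dist_eq_norm]
      exact h1 x hx y hy
    exact this.continuousOn
  refine ⟨s / (2 * (d + 1)) / L, by positivity,
    fun i => {W | ∃ z, W = K ∩ φ ⁻¹' (cube d s i z)}, ?_, ?_, ?_⟩
  · rintro i W ⟨z, rfl⟩
    refine ⟨hcont.isOpen_inter_preimage hK (isOpen_cube d s i z), ?_⟩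
    rintro x ⟨hx, hx'⟩ y ⟨hy, hy'⟩
    refine (h2 x hx y hy).trans ?_
    have h3 := cube_mesh hs0 hx' hy'
    calc L * ‖φ x - φ y‖ ≤ L * (d * s) := by gcongr
      _ = ε * (d / (d + 1)) := by rw [hs]; field_simp
      _ ≤ ε * 1 := by
          gcongr
          rw [div_le_one (by positivity)]
          linarith
      _ = ε := mul_one ε
  · rintro i W ⟨z, rfl⟩ W' ⟨z', rfl⟩ hne x ⟨hx, hx'⟩ y ⟨hy, hy'⟩
    have hzz : z ≠ z' := by rintro rfl; exact hne rfl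
    have h3 := cube_sep hs0 hzz hx' hy'
    rw [div_le_iff₀ (by linarith)]
    have h4 := h1 x hx y hy
    linarith
  · intro x hx
    obtain ⟨i, z, h⟩ := cube_cover d s (φ x)
    exact mem_iUnion.2 ⟨i, K ∩ φ ⁻¹' (cube d s i z), ⟨z, rfl⟩, hx, h⟩

lemma CF.univ_of_compact [CompactSpace M] {d : ℕ}
    (h : ∀ x : M, ∃ t ∈ 𝓝 x, CF d t) : CF d (univ : Set M) := by
  apply isCompact_univ.induction_on (p := CF d)
  · exact CF.empty d
  · intro s t hst ht
    exact ht.mono hst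
  · intro s t hs ht
    exact hs.union ht
  · intro x _
    obtain ⟨t, ht, h1⟩ := h x
    exact ⟨t, mem_nhdsWithin_of_mem_nhds ht, h1⟩

end CF

/-- vanishing above the dimension -/
theorem geo_vanish {M : Type u} [MetricSpace M] [Nonempty M]
    {E : Type v} [NormedAddCommGroup E] [NormedSpace ℝ E] {R : ℝ} (G : Geo M E R)
    {k : Type w} [CommRing k] {d : ℕ} (hCF : CF d (univ : Set M)) (n : ℕ) (hn : d ≤ n)
    (f : Sing M (n + 1) → k) (hf : altd k (sface (X := M)) (n + 1) f = 0) :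
    ∃ g : Sing M n → k, altd k (sface (X := M)) n g = f := by
  classical
  have hR := G.Rpos
  set ρ := R / 4 with hρ
  have hρ0 : 0 < ρ := by positivity
  obtain ⟨δ, hδ, 𝒲, w1, w2, w3⟩ := hCF (ρ / 2) (by positivity)
  let P : Type u := {x : Fin (d + 1) × Set M // x.2 ∈ 𝒲 x.1 ∧ x.2.Nonempty}
  let col : P → Fin (d + 1) := fun x => x.1.1
  let V : P → Set M := fun x => x.1.2
  let B : P → Set M := fun x => ball x.2.2.some ρ
  apply Pool.Agent.Y451.vanish (col := col) (V := V) (B := B) _ _ _ _ _ n hn f hf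
  · rintro ⟨⟨i, W⟩, hW, hWn⟩ ⟨⟨j, W'⟩, hW', hWn'⟩ hc ⟨x, hx, hx'⟩
    have hc' : i = j := hc
    subst hc'
    have hWW : W = W' := by
      by_contra hne
      have := w2 i W hW W' hW' hne x hx x hx'
      rw [dist_self] at this
      linarith
    subst hWW
    rfl
  · intro p c hne
    have hmem : (⋂ i, B (c i)) ∈ Fam (Finset.univ.image fun i : Fin (p + 1) => (c i).2.2.some) ρ := by
      refine ⟨hne, Finset.univ.image (fun i : Fin (p + 1) => (c i).2.2.some), le_rfl,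
        ⟨(c 0).2.2.some, Finset.mem_image_of_mem _ (Finset.mem_univ _)⟩, ?_⟩
      ext y
      simp only [mem_iInter, Finset.mem_image, Finset.mem_univ, true_and, forall_exists_index,
        forall_apply_eq_imp_iff, mem_ofPred_eq]
      refine forall_congr' fun i => ?_
      change y ∈ ball _ ρ ↔ _
      rw [mem_ball, dist_comm]
    exact G.fam_cone (by rw [hρ]; linarith) hmem
  · rintro ⟨⟨i, W⟩, hW, hWn⟩ x hx
    change x ∈ ball hWn.some ρ
    rw [mem_ball]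
    have := (w1 i W hW).2 x hx hWn.some hWn.some_mem
    linarith
  · rintro ⟨⟨i, W⟩, hW, hWn⟩
    exact (w1 i W hW).1
  · intro x
    obtain ⟨i, W, hW, hxW⟩ := by simpa using w3 (mem_univ x)
    exact ⟨⟨⟨i, W⟩, hW, ⟨x, hxW⟩⟩, hxW⟩

end Pool.Agent.Y451
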