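import Pool.Agent.Y451.Rig4
import Pool.Agent.Y451.Van3
import Pool.Agent.Y451.Hom2
import Pool.Agent.Helper381.Main

/-! Nagano's question in terms of Mathlib's singular homology. -/

set_option autoImplicit false

open Metric Set Manifold Bundle Filter Module
open scoped ContDiff Topology

noncomputable section

namespace Pool.Agent.Y451

open Pool.Agent.Helper381 Pool.Agent.TH592.Nag

section Core

variable {d : ℕ} {M : Type} [MetricSpace M] [ChartedSpace (EuclideanSpace ℝ (Fin d)) M]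
  [IsManifold (𝓡 d) ∞ M]
  [RiemannianBundle (fun x : M ↦ TangentSpace (𝓡 d) x)]
  [IsContMDiffRiemannianBundle (𝓡 d) ∞ (EuclideanSpace ℝ (Fin d))
    (fun x : M ↦ TangentSpace (𝓡 d) x)]
  [IsRiemannianManifold (𝓡 d) M] [CompactSpace M] [ConnectedSpace M]

omit [ConnectedSpace M] in
lemma cf_univ : CF d (univ : Set M) := by
  apply CF.univ_of_compact
  intro x
  obtain ⟨c, _⟩ := exists_crd (E := EuclideanSpace ℝ (Fin d)) x
  exact ⟨ball x c.η, ball_mem_nhds x c.ηpos,
    CF.of_bilip isOpen_ball c.φ c.L c.one_le_L c.lip1 c.lip2⟩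

omit [ConnectedSpace M] in
/-- singular cohomology of a compact Riemannian manifold vanishes above the dimension -/
lemma finrank_vanish [Nonempty M] (k : Type) [Field k] (n : ℕ) (hn : d + 1 ≤ n) :
    finrank k (SingCoh k M n) = 0 := by
  obtain ⟨R, G⟩ := riemannian_geo (E := EuclideanSpace ℝ (Fin d)) (M := M)
  obtain ⟨n, rfl⟩ : ∃ n', n = n' + 1 := ⟨n - 1, by omega⟩
  have : Subsingleton (SingCoh k M (n + 1)) := by
    constructor
    have key : ∀ q : SingCoh k M (n + 1), q = 0 := by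
      intro q
      obtain ⟨f, rfl⟩ := Submodule.mkQ_surjective _ q
      apply (Submodule.Quotient.mk_eq_zero _).2
      obtain ⟨g, hg⟩ := geo_vanish G (cf_univ (d := d) (M := M)) n (by omega) f.1 f.2
      exact ⟨g, hg⟩
    intro a b
    rw [key a, key b]
  exact finrank_zero_of_subsingleton

omit [IsManifold (𝓡 d) ∞ M]
  [RiemannianBundle (fun x : M ↦ TangentSpace (𝓡 d) x)]
  [IsContMDiffRiemannianBundle (𝓡 d) ∞ (EuclideanSpace ℝ (Fin d))
    (fun x : M ↦ TangentSpace (𝓡 d) x)]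
  [IsRiemannianManifold (𝓡 d) M] [CompactSpace M] [ConnectedSpace M] in
lemma mdiff_of_mfderiv {f : M → M} {x : M} (hf : Continuous f)
    (hm : mfderiv (𝓡 d) (𝓡 d) f x = -ContinuousLinearMap.id ℝ (EuclideanSpace ℝ (Fin d))) :
    MDifferentiableAt (𝓡 d) (𝓡 d) f x := by
  by_contra hcon
  have h0 := mfderiv_zero_of_not_mdifferentiableAt hcon
  rcases Nat.eq_zero_or_pos d with rfl | hd
  · apply hcon
    rw [mdifferentiableAt_iff]
    refine ⟨hf.continuousAt, ?_⟩
    exact (hasFDerivAt_of_subsingleton _ _).differentiableAt.differentiableWithinAt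
  · have : Nontrivial (EuclideanSpace ℝ (Fin d)) := by
      have : Nonempty (Fin d) := ⟨⟨0, hd⟩⟩
      infer_instance
    obtain ⟨v, hv⟩ := exists_ne (0 : EuclideanSpace ℝ (Fin d))
    rw [h0] at hm
    have h1 : (0 : EuclideanSpace ℝ (Fin d)) = -v := by
      have := congrArg (fun L : EuclideanSpace ℝ (Fin d) →L[ℝ] EuclideanSpace ℝ (Fin d) => L v) hm
      exact this
    exact hv (neg_eq_zero.1 h1.symm)

theorem core (s : M → M → M)
    (hs : ∀ x : M, Isometry (s x) ∧ s x x = x ∧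
      mfderiv (𝓡 d) (𝓡 d) (s x) x = -ContinuousLinearMap.id ℝ (EuclideanSpace ℝ (Fin d)))
    (hA : ∃ A : Finset M, (∀ x ∈ A, ∀ y ∈ A, s x y = y) ∧
      (∑ i ∈ Finset.range (d + 1),
        Module.finrank ℝ
          ((((AlgebraicTopology.singularHomologyFunctor (ModuleCat.{0} ℝ) i).obj
            (ModuleCat.of ℝ ℝ)).obj (TopCat.of M) : ModuleCat.{0} ℝ) : Type)) < A.card) :
    ∃ i : ℕ, ∃ g : ((((AlgebraicTopology.singularHomologyFunctor (ModuleCat.{0} ℤ) i).obj
            (ModuleCat.of ℤ ℤ)).obj (TopCat.of M) : ModuleCat.{0} ℤ) : Type),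
      addOrderOf g = 2 := by
  obtain ⟨A, hA1, hA2⟩ := hA
  by_contra hcon
  push Not at hcon
  have : Fact (Nat.Prime 2) := ⟨Nat.prime_two⟩
  obtain ⟨R, G⟩ := riemannian_geo (E := EuclideanSpace ℝ (Fin d)) (M := M)
  -- A is antipodal
  have hanti : IsAntipodal (A : Set M) := by
    intro x hx y hy
    obtain ⟨h1, h2, h3⟩ := hs x
    obtain ⟨t, ht1, ht2⟩ := isSymm_of_mfderiv (E := EuclideanSpace ℝ (Fin d)) h1 h2
      (mdiff_of_mfderiv h1.continuous h3) h3
    exact ⟨t, ht2, by rw [ht1]; exact hA1 x hx y hy⟩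
  have h1 := G.card_le A hanti
  obtain ⟨fin2, _⟩ := G.betti_finite (ZMod 2)
  obtain ⟨finR, _⟩ := G.betti_finite ℝ
  rw [totalBetti_eq (d + 1) fin2 (fun n hn => finrank_vanish (d := d) (ZMod 2) n hn),
    Nat.cast_le] at h1
  have hno : No2 M := by
    apply no2_of_order
    intro n g hg
    obtain ⟨e⟩ := bridge ℤ M n
    apply hcon n (e.symm g)
    rw [← hg]
    exact addOrderOf_injective e.symm.toAddEquiv.toAddMonoidHom e.symm.injective g
  have h2 : ∀ n, finrank (ZMod 2) (SingCoh (ZMod 2) M n) ≤ Module.finrank ℝ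
          ((((AlgebraicTopology.singularHomologyFunctor (ModuleCat.{0} ℝ) n).obj
            (ModuleCat.of ℝ ℝ)).obj (TopCat.of M) : ModuleCat.{0} ℝ) : Type) := by
    intro n
    obtain ⟨e⟩ := bridge ℝ M n
    have := fin2 n
    have := finR n
    rw [e.finrank_eq]
    exact coh_le_real hno n
  have h3 := h1.trans (Finset.sum_le_sum fun n _ => h2 n)
  omega

end Core

end Pool.Agent.Y451
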