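import Mathlib

/-! Submanifolds of a Euclidean space given by parametrisations with smooth left inverses. -/

set_option autoImplicit false

open Set Filter Topology Manifold Bundle Bornology
open scoped ContDiff

noncomputable section

namespace Pool.Agent.Y451

universe u

/-- A subset `S` of `V` with an atlas of smooth parametrisations `φ a : E → V`, each having a left
inverse `ρ a` which is smooth on an open set `W a` of `V`, the image of `φ a` being `S ∩ W a`. -/
structure Par (V E : Type) [NormedAddCommGroup V] [NormedSpace ℝ V]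
    [NormedAddCommGroup E] [NormedSpace ℝ E] where
  S : Set V
  ι : Type
  W : ι → Set V
  ρ : ι → V → E
  φ : ι → E → V
  openW : ∀ a, IsOpen (W a)
  smoothρ : ∀ a, ContDiffOn ℝ ∞ (ρ a) (W a)
  smoothφ : ∀ a, ContDiff ℝ ∞ (φ a)
  φS : ∀ a u, φ a u ∈ S
  φW : ∀ a u, φ a u ∈ W a
  ρφ : ∀ a u, ρ a (φ a u) = u
  φρ : ∀ a, ∀ x ∈ S, x ∈ W a → φ a (ρ a x) = x
  cover : ∀ x ∈ S, ∃ a, x ∈ W a

namespace Par

variable {V E : Type} [NormedAddCommGroup V] [NormedSpace ℝ V]
    [NormedAddCommGroup E] [NormedSpace ℝ E] (P : Par V E)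

/-- the manifold -/
def Mfd : Type := P.S

instance : TopologicalSpace P.Mfd := inferInstanceAs (TopologicalSpace P.S)
instance : T3Space P.Mfd := inferInstanceAs (T3Space P.S)

/-- the inclusion -/
def incl : P.Mfd → V := Subtype.val

/-- points of the manifold -/
def pt (x : V) (hx : x ∈ P.S) : P.Mfd := ⟨x, hx⟩

lemma incl_mem (x : P.Mfd) : P.incl x ∈ P.S := x.2
@[simp] lemma incl_pt (x : V) (hx : x ∈ P.S) : P.incl (P.pt x hx) = x := rfl
lemma incl_inj : Function.Injective P.incl := Subtype.val_injective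
lemma continuous_incl : Continuous P.incl := continuous_subtype_val
lemma isEmbedding_incl : IsEmbedding P.incl := IsEmbedding.subtypeVal
lemma range_incl : range P.incl = P.S := Subtype.range_coe

/-- the chart of index `a` -/
def ch (a : P.ι) : OpenPartialHomeomorph P.Mfd E where
  toFun x := P.ρ a (P.incl x)
  invFun u := P.pt (P.φ a u) (P.φS a u)
  source := {x | P.incl x ∈ P.W a}
  target := univ
  map_source' _ _ := mem_univ _
  map_target' u _ := P.φW a u
  left_inv' x hx := P.incl_inj (P.φρ a _ (P.incl_mem x) hx)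
  right_inv' u _ := P.ρφ a u
  open_source := (P.openW a).preimage P.continuous_incl
  open_target := isOpen_univ
  continuousOn_toFun := (P.smoothρ a).continuousOn.comp P.continuous_incl.continuousOn
    (fun _ hx => hx)
  continuousOn_invFun := by
    apply Continuous.continuousOn
    exact Continuous.subtype_mk (P.smoothφ a).continuous _

@[simp] lemma ch_apply (a : P.ι) (x : P.Mfd) : P.ch a x = P.ρ a (P.incl x) := rfl
@[simp] lemma incl_ch_symm (a : P.ι) (u : E) : P.incl ((P.ch a).symm u) = P.φ a u := rfl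
@[simp] lemma ch_source (a : P.ι) : (P.ch a).source = {x | P.incl x ∈ P.W a} := rfl
@[simp] lemma ch_target (a : P.ι) : (P.ch a).target = univ := rfl

/-- an index of a chart around a point -/
def idx (x : P.Mfd) : P.ι := (P.cover _ (P.incl_mem x)).choose

lemma idx_mem (x : P.Mfd) : P.incl x ∈ P.W (P.idx x) := (P.cover _ (P.incl_mem x)).choose_spec

instance : ChartedSpace E P.Mfd where
  atlas := range P.ch
  chartAt x := P.ch (P.idx x)
  mem_chart_source x := P.idx_mem x
  chart_mem_atlas x := mem_range_self _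

lemma chartAt_eq (x : P.Mfd) : chartAt E x = P.ch (P.idx x) := rfl

instance : IsManifold 𝓘(ℝ, E) ∞ P.Mfd := by
  apply isManifold_of_contDiffOn
  rintro _ _ ⟨a, rfl⟩ ⟨b, rfl⟩
  simp only [modelWithCornersSelf_coe, modelWithCornersSelf_coe_symm, Function.comp_id,
    Function.id_comp, range_id, inter_univ, preimage_id]
  have h : ContDiffOn ℝ ∞ (fun u => P.ρ b (P.φ a u)) ((P.ch a).symm ≫ₕ P.ch b).source := by
    apply (P.smoothρ b).comp (P.smoothφ a).contDiffOn
    intro u hu
    exact hu.2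
  exact h

lemma extChartAt_eq (x y : P.Mfd) : extChartAt 𝓘(ℝ, E) x y = P.ρ (P.idx x) (P.incl y) := rfl

lemma incl_extChartAt_symm (x : P.Mfd) (u : E) :
    P.incl ((extChartAt 𝓘(ℝ, E) x).symm u) = P.φ (P.idx x) u := rfl

/-- the inclusion is smooth -/
lemma contMDiff_incl : ContMDiff 𝓘(ℝ, E) 𝓘(ℝ, V) ∞ P.incl := by
  intro x
  rw [contMDiffAt_iff]
  refine ⟨P.continuous_incl.continuousAt, ?_⟩
  have h : (extChartAt 𝓘(ℝ, V) (P.incl x) ∘ P.incl ∘ (extChartAt 𝓘(ℝ, E) x).symm) =
      P.φ (P.idx x) := by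
    funext u
    rfl
  rw [h]
  exact (P.smoothφ _).contDiffWithinAt

/-- the inverse chart is smooth -/
lemma contMDiff_pt (a : P.ι) :
    ContMDiff 𝓘(ℝ, E) 𝓘(ℝ, E) ∞ (fun u => P.pt (P.φ a u) (P.φS a u)) := by
  have h := contMDiffOn_of_mem_maximalAtlas (I := 𝓘(ℝ, E)) (n := ∞)
    (e := P.ch a) (IsManifold.subset_maximalAtlas ⟨a, rfl⟩)
  have h2 := contMDiffOn_symm_of_mem_maximalAtlas (I := 𝓘(ℝ, E)) (n := ∞)
    (e := P.ch a) (IsManifold.subset_maximalAtlas ⟨a, rfl⟩)
  rw [ch_target, contMDiffOn_univ] at h2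
  exact h2

/-- a map to the manifold is smooth if its composition with the inclusion is. -/
lemma contMDiff_of_incl {E' : Type*} [NormedAddCommGroup E'] [NormedSpace ℝ E'] {H' : Type*}
    [TopologicalSpace H'] {I' : ModelWithCorners ℝ E' H'} {N : Type*} [TopologicalSpace N]
    [ChartedSpace H' N] (n : ℕ∞ω) (hn : n ≤ ∞) {f : N → P.Mfd}
    (h : ContMDiff I' 𝓘(ℝ, V) n (fun y => P.incl (f y))) : ContMDiff I' 𝓘(ℝ, E) n f := by
  intro y
  have hc : Continuous f := P.isEmbedding_incl.continuous_iff.2 h.continuous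
  set a := P.idx (f y) with ha
  have h1 : ContMDiffAt I' 𝓘(ℝ, E) n (fun z => P.ρ a (P.incl (f z))) y := by
    have h2 : ContMDiffAt 𝓘(ℝ, V) 𝓘(ℝ, E) n (P.ρ a) (P.incl (f y)) := by
      rw [contMDiffAt_iff_contDiffAt]
      exact (((P.smoothρ a).contDiffAt ((P.openW a).mem_nhds (P.idx_mem _))).of_le hn)
    exact h2.comp y (h y)
  have h3 := ((P.contMDiff_pt a).of_le hn).contMDiffAt.comp y h1
  refine h3.congr_of_eventuallyEq ?_
  have h4 : ∀ᶠ z in 𝓝 y, P.incl (f z) ∈ P.W a :=
    (P.continuous_incl.comp hc).continuousAt.eventually_mem ((P.openW a).mem_nhds (P.idx_mem _))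
  filter_upwards [h4] with z hz
  have h5 : P.incl (P.pt (P.φ a (P.ρ a (P.incl (f z)))) (P.φS a _)) = P.incl (f z) :=
    P.φρ a _ (P.incl_mem _) hz
  exact (P.incl_inj h5).symm

/-- derivative of the inclusion -/
def D (x : P.Mfd) : TangentSpace 𝓘(ℝ, E) x →L[ℝ] V := mfderiv 𝓘(ℝ, E) 𝓘(ℝ, V) P.incl x

lemma hasMFDerivAt_incl (x : P.Mfd) : HasMFDerivAt 𝓘(ℝ, E) 𝓘(ℝ, V) P.incl x (P.D x) :=
  ((P.contMDiff_incl x).mdifferentiableAt (by simp)).hasMFDerivAt

/-- the inclusion is an immersion -/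
lemma D_inj (x : P.Mfd) : Function.Injective (P.D x) := by
  have h1 : HasMFDerivAt 𝓘(ℝ, V) 𝓘(ℝ, E) (P.ρ (P.idx x)) (P.incl x)
      (fderiv ℝ (P.ρ (P.idx x)) (P.incl x)) := by
    apply HasFDerivAt.hasMFDerivAt
    apply DifferentiableAt.hasFDerivAt
    exact (((P.smoothρ _).contDiffAt ((P.openW _).mem_nhds (P.idx_mem _))).differentiableAt
      (by simp))
  have h2 := h1.comp x (P.hasMFDerivAt_incl x)
  have h3 : P.ρ (P.idx x) ∘ P.incl = extChartAt 𝓘(ℝ, E) x := rfl
  rw [h3] at h2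
  have h4 := h2.mfderiv
  rw [mfderiv_extChartAt_self] at h4
  intro v w hvw
  have h5 : ∀ v : E, fderiv ℝ (P.ρ (P.idx x)) (P.incl x) (P.D x v) = v := fun v =>
    (congr($h4 v)).symm
  have h6 := h5 v
  have h7 := h5 w
  rw [← h6, ← h7]
  exact congrArg _ hvw

end Par

end Pool.Agent.Y451
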