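import Pool.Agent.Y451.Emb

/-! The induced Riemannian metric. -/

set_option autoImplicit false

open Set Filter Topology Manifold Bundle Bornology
open scoped ContDiff

noncomputable section

namespace Pool.Agent.Y451

/-- the inner product as a bilinear map -/
def innr (V : Type) [NormedAddCommGroup V] [InnerProductSpace ℝ V] : V →L[ℝ] V →L[ℝ] ℝ :=
  innerSL ℝ (E := V)

namespace Par

variable {V E : Type} [NormedAddCommGroup V] [InnerProductSpace ℝ V]
    [NormedAddCommGroup E] [NormedSpace ℝ E] (P : Par V E)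

/-- the pulled back inner product, as a function of the coordinates -/
def G (a : P.ι) (u : E) : E →L[ℝ] E →L[ℝ] ℝ :=
  (innr V).bilinearComp (fderiv ℝ (P.φ a) u) (fderiv ℝ (P.φ a) u)

lemma G_apply (a : P.ι) (u v w : E) :
    P.G a u v w = inner ℝ (fderiv ℝ (P.φ a) u v) (fderiv ℝ (P.φ a) u w) := rfl

lemma contDiff_G [FiniteDimensional ℝ E] (a : P.ι) : ContDiff ℝ ∞ (P.G a) := by
  rw [contDiff_clm_apply_iff]
  intro v
  rw [contDiff_clm_apply_iff]
  intro w
  simp only [G_apply]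
  have h : ContDiff ℝ ∞ (fderiv ℝ (P.φ a)) := (P.smoothφ a).fderiv_right (by simp)
  exact (h.clm_apply contDiff_const).inner ℝ (h.clm_apply contDiff_const)

/-- the derivative of the inclusion, as a map from the model space -/
def DE (x : P.Mfd) : E →L[ℝ] V := P.D x

/-- the inner product on the tangent spaces -/
def innE (x : P.Mfd) : E →L[ℝ] E →L[ℝ] ℝ :=
  (innr V).bilinearComp (P.DE x) (P.DE x)

lemma innE_apply (x : P.Mfd) (v w : E) :
    P.innE x v w = inner ℝ (P.DE x v) (P.DE x w) := rfl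

lemma D_symmL (x y : P.Mfd) (hy : y ∈ (chartAt E x).source) (v : E) :
    P.D y ((trivializationAt E (TangentSpace 𝓘(ℝ, E)) x).symm y v) =
      fderiv ℝ (P.φ (P.idx x)) (extChartAt 𝓘(ℝ, E) x y) v := by
  have h := TangentBundle.symmL_trivializationAt (I := 𝓘(ℝ, E)) hy
  have h3 := Trivialization.symmL_apply (R := ℝ) (trivializationAt E (TangentSpace 𝓘(ℝ, E)) x)
    (b := y) (by simpa using hy) v
  rw [← h3, h]
  have h4 : HasMFDerivAt 𝓘(ℝ, E) 𝓘(ℝ, E) (extChartAt 𝓘(ℝ, E) x).symm (extChartAt 𝓘(ℝ, E) x y)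
      (mfderivWithin 𝓘(ℝ, E) 𝓘(ℝ, E) (extChartAt 𝓘(ℝ, E) x).symm (range 𝓘(ℝ, E))
        (extChartAt 𝓘(ℝ, E) x y)) := by
    simp only [modelWithCornersSelf_coe, range_id, mfderivWithin_univ]
    apply MDifferentiableAt.hasMFDerivAt
    exact ((P.contMDiff_pt (P.idx x)) _).mdifferentiableAt (by simp)
  have hy2 : (extChartAt 𝓘(ℝ, E) x).symm (extChartAt 𝓘(ℝ, E) x y) = y :=
    (extChartAt 𝓘(ℝ, E) x).left_inv (by simpa using hy)
  have h5 : HasMFDerivAt 𝓘(ℝ, E) 𝓘(ℝ, V) P.incl ((extChartAt 𝓘(ℝ, E) x).symm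
      (extChartAt 𝓘(ℝ, E) x y)) (P.D ((extChartAt 𝓘(ℝ, E) x).symm
      (extChartAt 𝓘(ℝ, E) x y))) := P.hasMFDerivAt_incl _
  have h6 := h5.comp (extChartAt 𝓘(ℝ, E) x y) h4
  have h7 : P.incl ∘ (extChartAt 𝓘(ℝ, E) x).symm = P.φ (P.idx x) := rfl
  rw [h7] at h6
  have h8 := h6.mfderiv
  rw [mfderiv_eq_fderiv] at h8
  rw [h8]
  have key : ∀ z, z = y → ∀ w : E, P.DE y w = P.DE z w := by
    rintro _ rfl w; rfl
  exact key _ hy2 _


variable [FiniteDimensional ℝ E]

lemma innE_bdd (x : P.Mfd) : IsVonNBounded ℝ {v : E | P.innE x v v < 1} := by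
  rw [NormedSpace.isVonNBounded_iff]
  have hinj : Function.Injective (P.DE x) := P.D_inj x
  obtain ⟨K, hK, hA⟩ := LinearMap.exists_antilipschitzWith (P.DE x).toLinearMap
    (LinearMap.ker_eq_bot.2 hinj)
  refine (Metric.isBounded_iff_subset_closedBall 0).2 ⟨K, ?_⟩
  intro v hv
  simp only [mem_ofPred_eq, innE_apply] at hv
  rw [mem_closedBall_zero_iff]
  have h1 := hA.le_mul_dist v 0
  simp only [ContinuousLinearMap.coe_coe, map_zero, dist_zero_right] at h1
  rw [real_inner_self_eq_norm_sq] at hv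
  have h2 : ‖P.DE x v‖ ≤ 1 := by
    nlinarith [norm_nonneg (P.DE x v)]
  calc ‖v‖ ≤ K * ‖P.DE x v‖ := h1
    _ ≤ K * 1 := by gcongr
    _ = K := mul_one _

set_option backward.isDefEq.respectTransparency false in
/-- the Riemannian metric induced by the inclusion -/
def metric : ContMDiffRiemannianMetric 𝓘(ℝ, E) ∞ E
    (fun (x : P.Mfd) ↦ TangentSpace 𝓘(ℝ, E) x) where
  inner x := P.innE x
  symm x v w := real_inner_comm _ _
  pos x v hv := by
    refine real_inner_self_pos.2 ?_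
    intro h0
    apply hv
    apply P.D_inj x
    rw [map_zero]
    exact h0
  isVonNBounded x := P.innE_bdd x
  contMDiff := by
    intro x
    rw [contMDiffAt_section]
    have h1 : ContMDiffAt 𝓘(ℝ, E) 𝓘(ℝ, E →L[ℝ] E →L[ℝ] ℝ) ∞
        (fun y : P.Mfd => P.G (P.idx x) (extChartAt 𝓘(ℝ, E) x y)) x := by
      have h2 : ContMDiffAt 𝓘(ℝ, E) 𝓘(ℝ, E) ∞ (extChartAt 𝓘(ℝ, E) x) x := contMDiffAt_extChartAt
      exact ((P.contDiff_G (P.idx x)).contMDiff.contMDiffAt).comp x h2
    apply h1.congr_of_eventuallyEq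
    filter_upwards [(chartAt E x).open_source.mem_nhds (mem_chart_source E x)] with y hy
    ext v w
    rw [hom_trivializationAt_apply]
    rw [inCoordinates_apply_eq₂]
    · have e1 := P.D_symmL x y hy v
      have e2 := P.D_symmL x y hy w
      rw [G_apply, ← e1, ← e2]
      simp
      rfl
    · simpa using hy
    · simpa using hy
    · simp

end Par

end Pool.Agent.Y451
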