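import Pool.Agent.Y451.Emb2

/-! The Riemannian distance and isometries. -/

set_option autoImplicit false

open Set Filter Topology Manifold Bundle Bornology MeasureTheory
open scoped ContDiff ENNReal NNReal

noncomputable section

namespace Pool.Agent.Y451

section General

variable {F : Type*} [NormedAddCommGroup F] [NormedSpace ℝ F]
  {H : Type*} [TopologicalSpace H] {I : ModelWithCorners ℝ F H}
  {M : Type*} [TopologicalSpace M] [ChartedSpace H M]
  {F' : Type*} [NormedAddCommGroup F'] [NormedSpace ℝ F']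
  {H' : Type*} [TopologicalSpace H'] {I' : ModelWithCorners ℝ F' H'}
  {M' : Type*} [TopologicalSpace M'] [ChartedSpace H' M']
  [∀ x : M, ENorm (TangentSpace I x)] [∀ x : M', ENorm (TangentSpace I' x)]

/-- A `C^1` map whose derivative does not increase norms does not increase Riemannian distances. -/
lemma riemannianEDist_map_le (f : M → M') (hf : ContMDiff I I' 1 f)
    (h : ∀ (x : M) (v : TangentSpace I x), ‖mfderiv I I' f x v‖ₑ ≤ ‖v‖ₑ) (x y : M) :
    riemannianEDist I' (f x) (f y) ≤ riemannianEDist I x y := by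
  rw [riemannianEDist_def I]
  refine le_iInf fun γ => ?_
  refine le_iInf fun hγ => ?_
  rw [riemannianEDist_def I']
  have hγ' : ContMDiff (𝓡∂ 1) I' 1 (γ.map hf.continuous) := hf.comp hγ
  refine (iInf₂_le (γ.map hf.continuous) hγ').trans ?_
  refine lintegral_mono fun t => ?_
  have e : mfderiv (𝓡∂ 1) I' (γ.map hf.continuous) t 1 =
      mfderiv I I' f (γ t) (mfderiv (𝓡∂ 1) I γ t 1) := by
    have := mfderiv_comp (I := 𝓡∂ 1) (I' := I) (I'' := I') t
      (hf.mdifferentiable one_ne_zero (γ t)) (hγ.mdifferentiable one_ne_zero t)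
    have h2 : (γ.map hf.continuous : unitInterval → M') = f ∘ γ := rfl
    rw [h2, this]
    rfl
  rw [e]
  exact h _ _

end General

namespace Par

variable {V E : Type} [NormedAddCommGroup V] [InnerProductSpace ℝ V]
    [NormedAddCommGroup E] [NormedSpace ℝ E] [FiniteDimensional ℝ E] (P : Par V E)

/-- the Riemannian bundle structure -/
instance rb : RiemannianBundle (fun x : P.Mfd => TangentSpace 𝓘(ℝ, E) x) :=
  ⟨P.metric.toRiemannianMetric⟩

instance : IsContMDiffRiemannianBundle 𝓘(ℝ, E) ∞ E (fun x : P.Mfd => TangentSpace 𝓘(ℝ, E) x) :=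
  inferInstance

instance : IsContinuousRiemannianBundle E (fun x : P.Mfd => TangentSpace 𝓘(ℝ, E) x) :=
  ⟨P.metric.inner, P.metric.contMDiff.continuous, fun _ _ _ => rfl⟩

set_option backward.isDefEq.respectTransparency false in
lemma norm_tangent (x : P.Mfd) (v : TangentSpace 𝓘(ℝ, E) x) : ‖v‖ = ‖P.DE x v‖ := by
  rw [norm_eq_sqrt_real_inner, norm_eq_sqrt_real_inner]
  rfl

lemma enorm_tangent (x : P.Mfd) (v : TangentSpace 𝓘(ℝ, E) x) : ‖v‖ₑ = ‖P.DE x v‖ₑ := by
  rw [← ofReal_norm, ← ofReal_norm, norm_tangent]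

/-- the extended metric -/
@[reducible] def emM : EMetricSpace P.Mfd := EMetricSpace.ofRiemannianMetric 𝓘(ℝ, E) P.Mfd

lemma edist_ne_top [PreconnectedSpace P.Mfd] (x y : P.Mfd) : (P.emM).edist x y ≠ ⊤ := by
  let _ : EMetricSpace P.Mfd := P.emM
  have h1 : IsClopen (Metric.eball x ⊤) := ⟨Metric.isClosed_eball_top, Metric.isOpen_eball⟩
  have h3 : PreconnectedSpace P.Mfd := inferInstance
  have h2 : Metric.eball x ⊤ = univ := by
    apply h1.eq_univ
    exact ⟨x, by simp⟩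
  have h4 : y ∈ Metric.eball x ⊤ := by rw [h2]; trivial
  have h5 : edist y x < ⊤ := h4
  rw [edist_comm] at h5
  exact h5.ne

/-- the Riemannian distance makes the manifold a metric space. -/
@[reducible] def mM [PreconnectedSpace P.Mfd] : MetricSpace P.Mfd :=
  @EMetricSpace.toMetricSpace P.Mfd P.emM P.edist_ne_top

lemma edist_mM [PreconnectedSpace P.Mfd] (x y : P.Mfd) :
    (P.mM).toPseudoMetricSpace.toPseudoEMetricSpace.edist x y = riemannianEDist 𝓘(ℝ, E) x y := rfl

lemma isRiem [PreconnectedSpace P.Mfd] :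
    letI : MetricSpace P.Mfd := P.mM
    IsRiemannianManifold 𝓘(ℝ, E) P.Mfd := by
  letI : MetricSpace P.Mfd := P.mM
  exact ⟨fun x y => rfl⟩

/-- the self-map of the manifold given by a map of `V` preserving it -/
def selfMap (A : V → V) (hA : ∀ x ∈ P.S, A x ∈ P.S) (x : P.Mfd) : P.Mfd :=
  P.pt (A (P.incl x)) (hA _ (P.incl_mem x))

omit [FiniteDimensional ℝ E] in
@[simp] lemma incl_selfMap (A : V → V) (hA : ∀ x ∈ P.S, A x ∈ P.S) (x : P.Mfd) :
    P.incl (P.selfMap A hA x) = A (P.incl x) := rfl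

omit [FiniteDimensional ℝ E] in
lemma contMDiff_selfMap (A : V →L[ℝ] V) (hA : ∀ x ∈ P.S, A x ∈ P.S) :
    ContMDiff 𝓘(ℝ, E) 𝓘(ℝ, E) ∞ (P.selfMap A hA) := by
  apply P.contMDiff_of_incl ∞ le_rfl
  have h := A.contDiff.contMDiff.comp P.contMDiff_incl (n := ∞)
  exact h

omit [FiniteDimensional ℝ E] in
lemma DE_selfMap (A : V →L[ℝ] V) (hA : ∀ x ∈ P.S, A x ∈ P.S) (x : P.Mfd)
    (v : TangentSpace 𝓘(ℝ, E) x) :
    P.DE (P.selfMap A hA x) (mfderiv 𝓘(ℝ, E) 𝓘(ℝ, E) (P.selfMap A hA) x v) = A (P.DE x v) := by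
  have h1 : HasMFDerivAt 𝓘(ℝ, E) 𝓘(ℝ, E) (P.selfMap A hA) x
    (mfderiv 𝓘(ℝ, E) 𝓘(ℝ, E) (P.selfMap A hA) x) :=
    ((P.contMDiff_selfMap A hA x).mdifferentiableAt (by simp)).hasMFDerivAt
  have h2 := (P.hasMFDerivAt_incl (P.selfMap A hA x)).comp x h1
  have h3 : HasMFDerivAt 𝓘(ℝ, V) 𝓘(ℝ, V) A (P.incl x) A := A.hasFDerivAt.hasMFDerivAt
  have h4 := h3.comp x (P.hasMFDerivAt_incl x)
  have h5 : P.incl ∘ P.selfMap A hA = A ∘ P.incl := rfl
  rw [h5] at h2
  have h6 := hasMFDerivAt_unique h2 h4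
  exact congr($h6 v)

lemma edist_selfMap_le (A : V →L[ℝ] V) (hA : ∀ x ∈ P.S, A x ∈ P.S) (hn : ∀ v, ‖A v‖ ≤ ‖v‖)
    (x y : P.Mfd) : riemannianEDist 𝓘(ℝ, E) (P.selfMap A hA x) (P.selfMap A hA y) ≤
      riemannianEDist 𝓘(ℝ, E) x y := by
  apply riemannianEDist_map_le _ ((P.contMDiff_selfMap A hA).of_le (by norm_cast))
  intro x v
  rw [enorm_tangent, enorm_tangent, DE_selfMap]
  rw [← ofReal_norm, ← ofReal_norm]
  exact ENNReal.ofReal_le_ofReal (hn _)

/-- the isometry of the manifold induced by an isometric involution of `V` preserving it -/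
def iso [PreconnectedSpace P.Mfd] (A : V →L[ℝ] V) (hA : ∀ x ∈ P.S, A x ∈ P.S)
    (hn : ∀ v, ‖A v‖ ≤ ‖v‖) (hi : ∀ v ∈ P.S, A (A v) = v) :
    letI : MetricSpace P.Mfd := P.mM
    P.Mfd ≃ᵢ P.Mfd :=
  letI : MetricSpace P.Mfd := P.mM
  { toFun := P.selfMap A hA
    invFun := P.selfMap A hA
    left_inv := fun x => P.incl_inj (hi _ (P.incl_mem x))
    right_inv := fun x => P.incl_inj (hi _ (P.incl_mem x))
    isometry_toFun := by
      intro x y
      apply le_antisymm
      · exact P.edist_selfMap_le A hA hn x y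
      · have h := P.edist_selfMap_le A hA hn (P.selfMap A hA x) (P.selfMap A hA y)
        have e1 : P.selfMap A hA (P.selfMap A hA x) = x := P.incl_inj (hi _ (P.incl_mem x))
        have e2 : P.selfMap A hA (P.selfMap A hA y) = y := P.incl_inj (hi _ (P.incl_mem y))
        rw [e1, e2] at h
        exact h }

end Par

end Pool.Agent.Y451
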