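import Pool.Agent.TH592.Nag.Bridge

/-! Two-torsion free integral homology: mod 2 homology is bounded by real homology. -/

set_option autoImplicit false

noncomputable section

namespace Pool.Agent.Y451

open Pool.Agent.Helper381 Pool.Agent.TH592.Nag

section Coef

variable {X : Type} [TopologicalSpace X]

/-- change of coefficients along an additive map -/
def cm {A B : Type} [AddCommGroup A] [AddCommGroup B] (h : A →+ B) (S : Type) :
    (S →₀ A) →+ (S →₀ B) := Finsupp.mapRange.addMonoidHom h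

@[simp] lemma cm_apply {A B : Type} [AddCommGroup A] [AddCommGroup B] (h : A →+ B) (S : Type)
    (c : S →₀ A) (s : S) : cm h S c s = h (c s) := rfl

lemma cm_single {A B : Type} [AddCommGroup A] [AddCommGroup B] (h : A →+ B) {S : Type}
    (s : S) (a : A) : cm h S (Finsupp.single s a) = Finsupp.single s (h a) := by
  simp [cm]

lemma bd_single' {R : Type} [CommRing R] (n : ℕ) (σ : Sing X (n + 1)) (r : R) :
    bd R X n (Finsupp.single σ r) =
      ∑ i : Fin (n + 2), ((-1 : ℤ) ^ (i : ℕ)) • Finsupp.single (sface n i σ) r := by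
  unfold bd
  rw [Finsupp.linearCombination_single, Finset.smul_sum]
  refine Finset.sum_congr rfl fun i _ => ?_
  rw [smul_comm, Finsupp.smul_single, smul_eq_mul, mul_one]

/-- boundaries commute with additive changes of coefficients -/
lemma cm_bd {R R' : Type} [CommRing R] [CommRing R'] (h : R →+ R') (n : ℕ)
    (c : Sing X (n + 1) →₀ R) : cm h _ (bd R X n c) = bd R' X n (cm h _ c) := by
  induction c using Finsupp.induction_linear with
  | zero => simp
  | add f g hf hg => rw [map_add, map_add, map_add, map_add, hf, hg]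
  | single σ r =>
    rw [cm_single, bd_single', bd_single', map_sum]
    refine Finset.sum_congr rfl fun i _ => ?_
    rw [map_zsmul, cm_single]

lemma cm_cyc {R R' : Type} [CommRing R] [CommRing R'] (h : R →+ R') (n : ℕ)
    {c : Sing X n →₀ R} (hc : c ∈ cyc R X n) : cm h _ c ∈ cyc R' X n := by
  cases n with
  | zero => trivial
  | succ n =>
    change bd R' X n (cm h _ c) = 0
    have h1 : bd R X n c = 0 := hc
    rw [← cm_bd, h1, map_zero]

lemma cm_bou {R R' : Type} [CommRing R] [CommRing R'] (h : R →+ R') (n : ℕ)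
    {c : Sing X n →₀ R} (hc : c ∈ bou R X n) : cm h _ c ∈ bou R' X n := by
  obtain ⟨e, rfl⟩ := hc
  exact ⟨cm h _ e, (cm_bd h n e).symm⟩

lemma bd_bd {R : Type} [CommRing R] (n : ℕ) (c : Sing X (n + 2) →₀ R) :
    bd R X n (bd R X (n + 1) c) = 0 := by
  induction c using Finsupp.induction_linear with
  | zero => simp
  | add f g hf hg => rw [map_add, map_add, hf, hg, add_zero]
  | single σ r =>
    rw [bd_single', map_sum]
    simp only [map_zsmul, bd_single', Finset.smul_sum]
    ext τ
    simp only [Finsupp.coe_finsetSum, Finset.sum_apply, Finsupp.coe_zero, Pi.zero_apply,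
      Finsupp.smul_apply]
    have := alt_cancel (k := R) n (fun i j => Finsupp.single (sface n i (sface (n + 1) j σ)) r τ)
      (fun i j hij => by rw [sface_sface n i j σ hij])
    refine Eq.trans ?_ this
    refine Finset.sum_congr rfl fun i _ => Finset.sum_congr rfl fun j _ => ?_
    simp only [zsmul_eq_mul]
    push_cast
    rfl

/-- no elements of order two -/
def No2 (X : Type) [TopologicalSpace X] : Prop :=
  ∀ n, ∀ c ∈ cyc ℤ X n, (2 : ℤ) • c ∈ bou ℤ X n → c ∈ bou ℤ X n

lemma no2_of_order (h : ∀ n, ∀ g : Hm ℤ X n, addOrderOf g ≠ 2) : No2 X := by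
  intro n c hc h2
  by_contra hcon
  let g : Hm ℤ X n := Submodule.Quotient.mk ⟨c, hc⟩
  have hg0 : g ≠ 0 := by
    intro h0
    apply hcon
    have h1 : (⟨c, hc⟩ : cyc ℤ X n) ∈ (bou ℤ X n).submoduleOf (cyc ℤ X n) :=
      (Submodule.Quotient.mk_eq_zero _).1 h0
    exact h1
  have hg2 : (2 : ℕ) • g = 0 := by
    have : (2 : ℕ) • g = Submodule.Quotient.mk ((2 : ℤ) • (⟨c, hc⟩ : cyc ℤ X n)) := by
      rw [Submodule.Quotient.mk_smul, ← natCast_zsmul]
      rfl
    have h1 : ((2 : ℤ) • (⟨c, hc⟩ : cyc ℤ X n)) ∈ (bou ℤ X n).submoduleOf (cyc ℤ X n) := h2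
    rw [this]
    exact (Submodule.Quotient.mk_eq_zero _).2 h1
  have : Fact (Nat.Prime 2) := ⟨Nat.prime_two⟩
  exact h n g (addOrderOf_eq_prime hg2 hg0)

/-- reduction mod 2 -/
abbrev red (S : Type) : (S →₀ ℤ) →+ (S →₀ ZMod 2) := cm (Int.castAddHom (ZMod 2)) S

lemma red_surj {S : Type} (c : S →₀ ZMod 2) : ∃ e, red S e = c := by
  refine ⟨Finsupp.mapRange (fun x : ZMod 2 => (x.val : ℤ)) (by simp) c, ?_⟩
  ext s
  simp

lemma red_ker {S : Type} (c : S →₀ ℤ) (h : red S c = 0) : ∃ e : S →₀ ℤ, c = (2 : ℤ) • e := by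
  refine ⟨Finsupp.mapRange (fun x : ℤ => x / 2) (by simp) c, ?_⟩
  ext s
  have h1 := DFunLike.congr_fun h s
  simp only [cm_apply, Int.coe_castAddHom, Finsupp.coe_zero, Pi.zero_apply] at h1
  have h2 := (ZMod.intCast_zmod_eq_zero_iff_dvd (c s) 2).1 h1
  simp only [Finsupp.smul_apply, Finsupp.mapRange_apply, smul_eq_mul]
  omega

lemma two_cancel {S : Type} (c : S →₀ ℤ) (h : (2 : ℤ) • c = 0) : c = 0 := by
  ext s
  have h1 := DFunLike.congr_fun h s
  simp only [Finsupp.smul_apply, smul_eq_mul, Finsupp.coe_zero, Pi.zero_apply] at h1 ⊢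
  omega

/-- mod 2 cycles lift to integral cycles -/
lemma lift_cyc (h2 : No2 X) (n : ℕ) {z : Sing X n →₀ ZMod 2} (hz : z ∈ cyc (ZMod 2) X n) :
    ∃ c ∈ cyc ℤ X n, red _ c = z := by
  obtain ⟨e, he⟩ := red_surj z
  cases n with
  | zero => exact ⟨e, trivial, he⟩
  | succ n =>
    have h1 : bd (ZMod 2) X n z = 0 := hz
    rw [← he, ← cm_bd] at h1
    obtain ⟨b, hb⟩ := red_ker _ h1
    have hbc : b ∈ cyc ℤ X n := by
      cases n with
      | zero => trivial
      | succ n =>
        change bd ℤ X n b = 0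
        apply two_cancel
        rw [← map_smul, ← hb, bd_bd]
    obtain ⟨w, hw⟩ := h2 n b hbc ⟨e, hb⟩
    refine ⟨e - (2 : ℤ) • w, ?_, ?_⟩
    · change bd ℤ X n (e - (2 : ℤ) • w) = 0
      rw [map_sub, map_smul, hw, hb, sub_self]
    · rw [map_sub, map_zsmul, he]
      have : (2 : ℤ) • red (Sing X (n + 1)) w = 0 := by
        ext s
        simp only [Finsupp.smul_apply, cm_apply, Int.coe_castAddHom, Finsupp.coe_zero,
          Pi.zero_apply, zsmul_eq_mul]
        have : ((2 : ℤ) : ZMod 2) = 0 := by decide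
        rw [this, zero_mul]
      rw [this, sub_zero]

/-- families of independent cycles -/
def IndCyc (R : Type) [CommRing R] (X : Type) [TopologicalSpace X] (n m : ℕ) : Prop :=
  ∃ z : Fin m → (Sing X n →₀ R), (∀ i, z i ∈ cyc R X n) ∧
    ∀ a : Fin m → R, ∑ i, a i • z i ∈ bou R X n → a = 0

/-- integral independence of the lifts -/
lemma int_indep (h2 : No2 X) {n m : ℕ} (z : Fin m → (Sing X n →₀ ZMod 2))
    (hz : ∀ a : Fin m → ZMod 2, ∑ i, a i • z i ∈ bou (ZMod 2) X n → a = 0)
    (c : Fin m → (Sing X n →₀ ℤ)) (hc : ∀ i, c i ∈ cyc ℤ X n) (hcz : ∀ i, red _ (c i) = z i) :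
    ∀ (N : ℕ) (a : Fin m → ℤ), ∑ i, (a i).natAbs ≤ N → ∑ i, a i • c i ∈ bou ℤ X n → a = 0 := by
  intro N
  induction N with
  | zero =>
    intro a ha _
    funext i
    have h1 : (a i).natAbs = 0 := by
      have := Finset.sum_eq_zero_iff.1 (Nat.le_zero.1 ha) i (Finset.mem_univ i)
      exact this
    exact Int.natAbs_eq_zero.1 h1
  | succ N ih =>
    intro a ha hb
    have h1 := cm_bou (Int.castAddHom (ZMod 2)) n hb
    have h3 : cm (Int.castAddHom (ZMod 2)) _ (∑ i, a i • c i) = ∑ i, ((a i : ℤ) : ZMod 2) • z i := by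
      rw [map_sum]
      refine Finset.sum_congr rfl fun i _ => ?_
      rw [map_zsmul, hcz]
      ext s
      simp
    rw [h3] at h1
    have h4 := hz _ h1
    have h5 : ∀ i, ∃ b, a i = 2 * b := by
      intro i
      have := congrFun h4 i
      exact (ZMod.intCast_zmod_eq_zero_iff_dvd (a i) 2).1 this
    choose b hb' using h5
    have h6 : ∑ i, a i • c i = (2 : ℤ) • ∑ i, b i • c i := by
      rw [Finset.smul_sum]
      refine Finset.sum_congr rfl fun i _ => ?_
      rw [hb', mul_smul]
    rw [h6] at hb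
    have h7 := h2 n (∑ i, b i • c i) (Submodule.sum_mem _ fun i _ =>
      Submodule.smul_mem _ _ (hc i)) hb
    by_contra hne
    obtain ⟨j, hj⟩ := Function.ne_iff.1 hne
    have h8 : ∑ i, (b i).natAbs < ∑ i, (a i).natAbs := by
      apply Finset.sum_lt_sum
      · intro i _
        rw [hb', Int.natAbs_mul]
        simp
        omega
      · refine ⟨j, Finset.mem_univ j, ?_⟩
        rw [hb', Int.natAbs_mul]
        have : b j ≠ 0 := by
          intro h0
          apply hj
          rw [hb', h0]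
          rfl
        have := Int.natAbs_pos.2 this
        simp
        omega
    have h9 := ih b (by omega) h7
    apply hj
    rw [hb', h9]
    rfl

/-- clearing denominators -/
lemma exists_den (T : Finset ℚ) : ∃ N : ℕ, 0 < N ∧ ∀ q ∈ T, ∃ z : ℤ, (N : ℚ) * q = z := by
  classical
  induction T using Finset.induction_on with
  | empty => exact ⟨1, one_pos, fun q hq => absurd hq (Finset.notMem_empty q)⟩
  | insert a T _ ih =>
    obtain ⟨N, hN, h⟩ := ih
    refine ⟨N * a.den, Nat.mul_pos hN a.den_pos, fun q hq => ?_⟩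
    rcases Finset.mem_insert.1 hq with rfl | hq
    · refine ⟨N * q.num, ?_⟩
      push_cast
      have := Rat.den_mul_eq_num q
      rw [mul_assoc, this]
    · obtain ⟨z, hz⟩ := h q hq
      refine ⟨a.den * z, ?_⟩
      push_cast
      rw [← hz]
      ring

/-- real relations give integral relations -/
lemma real_to_int {n m : ℕ} (c : Fin m → (Sing X n →₀ ℤ))
    (hint : ∀ a : Fin m → ℤ, ∑ i, a i • c i ∈ bou ℤ X n → a = 0) (a : Fin m → ℝ)
    (ha : ∑ i, a i • cm (Int.castAddHom ℝ) _ (c i) ∈ bou ℝ X n) : a = 0 := by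
  classical
  obtain ⟨E, hE⟩ := ha
  by_contra hne
  obtain ⟨j, hj⟩ := Function.ne_iff.1 hne
  obtain ⟨φ, hφ⟩ : ∃ φ : Module.Dual ℚ ℝ, φ (a j) ≠ 0 := by
    by_contra hcon
    push Not at hcon
    exact hj ((Module.forall_dual_apply_eq_zero_iff ℚ (a j)).1 hcon)
  obtain ⟨N, hN, hT⟩ := exists_den (Finset.univ.image (fun i => φ (a i)) ∪
    E.support.image (fun s => φ (E s)))
  have hNq : (N : ℚ) ≠ 0 := by exact_mod_cast hN.ne'
  have h1 : ∀ i, ∃ z : ℤ, (N : ℚ) * φ (a i) = z := fun i =>
    hT _ (Finset.mem_union_left _ (Finset.mem_image_of_mem _ (Finset.mem_univ i)))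
  have h2 : ∀ s, ∃ z : ℤ, (N : ℚ) * φ (E s) = z := by
    intro s
    by_cases hs : s ∈ E.support
    · exact hT _ (Finset.mem_union_right _ (Finset.mem_image_of_mem _ hs))
    · rw [Finsupp.notMem_support_iff.1 hs]
      exact ⟨0, by simp⟩
  choose b hb using h1
  -- integral chain
  let μ : ℝ →+ ℚ := ((N : ℚ) • φ).toAddMonoidHom
  have hμ : ∀ r, μ r = (N : ℚ) * φ r := fun r => rfl
  let E' : Sing X (n + 1) →₀ ℤ := Finsupp.mapRange (fun r : ℝ => (μ r).num) (by simp) E
  have hE' : cm (Int.castAddHom ℚ) _ E' = cm μ _ E := by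
    ext s
    simp only [cm_apply, Int.coe_castAddHom, E', Finsupp.mapRange_apply]
    obtain ⟨z, hz⟩ := h2 s
    rw [hμ, hz]
    simp
  have h3 : ∑ i, b i • c i = bd ℤ X n E' := by
    have hinj : Function.Injective (cm (Int.castAddHom ℚ) (Sing X n)) := by
      intro x y hxy
      ext s
      have := DFunLike.congr_fun hxy s
      simp only [cm_apply, Int.coe_castAddHom] at this
      exact_mod_cast this
    apply hinj
    rw [cm_bd, hE', ← cm_bd, hE, map_sum, map_sum]
    refine Finset.sum_congr rfl fun i _ => ?_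
    ext s
    simp only [cm_apply, Finsupp.smul_apply, Int.coe_castAddHom, smul_eq_mul]
    push_cast
    rw [← hb, hμ]
    have h4 : φ (a i * ((c i s : ℤ) : ℝ)) = ((c i s : ℤ) : ℚ) * φ (a i) := by
      have h5 : a i * ((c i s : ℤ) : ℝ) = ((c i s : ℤ) : ℚ) • a i := by
        rw [Rat.smul_def]
        push_cast
        ring
      rw [h5, map_smul, smul_eq_mul]
    rw [h4]
    ring
  have h4 := hint b ⟨E', h3.symm⟩
  have h5 := hb j
  rw [h4] at h5
  simp only [Pi.zero_apply, Int.cast_zero, mul_eq_zero] at h5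
  rcases h5 with h5 | h5
  · exact hNq h5
  · exact hφ h5

/-- without elements of order two, mod 2 homology is not larger than real homology -/
theorem indCyc_real (h2 : No2 X) {n m : ℕ} (h : IndCyc (ZMod 2) X n m) : IndCyc ℝ X n m := by
  obtain ⟨z, hz1, hz2⟩ := h
  choose c hc1 hc2 using fun i => lift_cyc h2 n (hz1 i)
  refine ⟨fun i => cm (Int.castAddHom ℝ) _ (c i), fun i => cm_cyc _ n (hc1 i), ?_⟩
  intro a ha
  exact real_to_int c (fun a ha => int_indep h2 z hz2 c hc1 hc2 _ a le_rfl ha) a ha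

end Coef

end Pool.Agent.Y451
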