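import Pool.Agent.Helper381.Riem3

/-! Coordinates in which midpoints are almost Euclidean midpoints. -/

set_option autoImplicit false

open Metric Set

noncomputable section

namespace Pool.Agent.Y451

open Pool.Agent.Helper381

universe u v

/-- Coordinates near `p` in which the distance is infinitesimally Euclidean. -/
structure Crd (M : Type u) (E : Type v) [MetricSpace M] [NormedAddCommGroup E]
    [NormedSpace ℝ E] (p : M) where
  φ : M → E
  ψ : E → M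
  η : ℝ
  ηpos : 0 < η
  L : ℝ
  one_le_L : 1 ≤ L
  K : ℝ
  Kpos : 0 < K
  lam : ℝ
  lampos : 0 < lam
  Q : E →ₗ[ℝ] E →ₗ[ℝ] ℝ
  Qlow : ∀ v, lam * ‖v‖ ^ 2 ≤ Q v v
  Qup : ∀ v, Q v v ≤ K * ‖v‖ ^ 2
  lip1 : ∀ y ∈ ball p η, ∀ y' ∈ ball p η, ‖φ y - φ y'‖ ≤ L * dist y y'
  lip2 : ∀ y ∈ ball p η, ∀ y' ∈ ball p η, dist y y' ≤ L * ‖φ y - φ y'‖
  surj : ∀ v, L * ‖v - φ p‖ < η → dist p (ψ v) ≤ L * ‖v - φ p‖ ∧ φ (ψ v) = v
  mid : ∀ a ∈ ball p η, ∀ b ∈ ball p η, ∀ m ∈ ball p η, dist a m = dist a b / 2 →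
    dist m b = dist a b / 2 →
    ‖φ m - (1 / 2 : ℝ) • (φ a + φ b)‖ ≤ K * ‖φ a - φ b‖ * Real.sqrt ‖φ a - φ b‖
  quad : ∀ r ≤ η, ∀ y ∈ ball p r, ∀ y' ∈ ball p r,
    |dist y y' ^ 2 - Q (φ y' - φ y) (φ y' - φ y)| ≤ K * r * ‖φ y' - φ y‖ ^ 2

variable {M : Type u} {E : Type v} [MetricSpace M] [NormedAddCommGroup E] [NormedSpace ℝ E]

/-- the cubic midpoint estimate in a chart -/
theorem Loc.mid_est (c : Loc M E) {a b m : E} (ha : a ∈ ball c.x₀ c.r₁) (hb : b ∈ ball c.x₀ c.r₁)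
    (hm : m ∈ ball c.x₀ c.r₁) (h1 : dist (c.ψ a) (c.ψ m) = dist (c.ψ a) (c.ψ b) / 2)
    (h2 : dist (c.ψ m) (c.ψ b) = dist (c.ψ a) (c.ψ b) / 2) :
    c.lam * ‖(m - a) - (b - m)‖ ^ 2 ≤
      (4 * c.C₃ * c.L ^ 6 + 2 * c.C * c.L ^ 6 + c.C₃) * ‖b - a‖ ^ 3 := by
  have hL := c.one_le_L
  have hC := c.Cpos
  have hC3 := c.C₃pos
  set d := dist (c.ψ a) (c.ψ b) with hd
  set D := ‖b - a‖ with hD
  have hD0 : 0 ≤ D := norm_nonneg _
  have hd0 : 0 ≤ d := dist_nonneg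
  have hdD : d ≤ c.L * D := c.dist_le ha hb
  have hma : ‖m - a‖ ≤ c.L ^ 2 * D := by
    have := c.norm_le ha hm
    rw [h1] at this
    nlinarith
  have hbm : ‖b - m‖ ≤ c.L ^ 2 * D := by
    have := c.norm_le hm hb
    rw [h2] at this
    nlinarith
  have e1 := c.le_dist_sq' ha hm
  have e2 := c.le_dist_sq' hm hb
  have e3 := c.dist_sq_le' ha hb
  have e4 := c.lip a (c.ball_sub ha) m (c.ball_sub hm) (b - m) (b - m)
  rw [abs_le] at e4
  rw [h1] at e1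
  rw [h2] at e2
  have e5 : c.G a ((m - a) - (b - m)) ((m - a) - (b - m)) =
      2 * c.G a (m - a) (m - a) + 2 * c.G a (b - m) (b - m) - c.G a (b - a) (b - a) := by
    have : b - a = (m - a) + (b - m) := by abel
    rw [this]
    simp only [map_sub, map_add, LinearMap.sub_apply, LinearMap.add_apply]
    ring
  have e6 := c.lower a (c.ball_sub ha) ((m - a) - (b - m))
  have p1 : ‖m - a‖ ^ 3 ≤ (c.L ^ 2 * D) ^ 3 := pow_le_pow_left₀ (norm_nonneg _) hma 3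
  have p2 : ‖b - m‖ ^ 3 ≤ (c.L ^ 2 * D) ^ 3 := pow_le_pow_left₀ (norm_nonneg _) hbm 3
  have p3 : c.C * ‖a - m‖ * ‖b - m‖ * ‖b - m‖ ≤ c.C * (c.L ^ 2 * D) ^ 3 := by
    rw [norm_sub_rev a m]
    have : c.C * (c.L ^ 2 * D) ^ 3 = c.C * (c.L ^ 2 * D) * (c.L ^ 2 * D) * (c.L ^ 2 * D) := by ring
    rw [this]
    gcongr
  have q1 : c.C₃ * ‖m - a‖ ^ 3 ≤ c.C₃ * (c.L ^ 2 * D) ^ 3 := by gcongr
  have q2 : c.C₃ * ‖b - m‖ ^ 3 ≤ c.C₃ * (c.L ^ 2 * D) ^ 3 := by gcongr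
  have e7 : (c.L ^ 2 * D) ^ 3 = c.L ^ 6 * D ^ 3 := by ring
  rw [e7] at q1 q2 p3
  rw [← hd] at e3
  nlinarith [e4.2]

/-- coordinates from the chart -/
def Loc.crd (c : Loc M E) : Crd M E (c.ψ c.x₀) := by
  have hL := c.one_le_L
  have hC := c.Cpos
  have hC3 := c.C₃pos
  have hr1 := c.r₁pos
  have hτ := c.τpos
  have hlam := c.lampos
  have hx₀ : c.x₀ ∈ ball c.x₀ c.r₁ := mem_ball_self hr1
  let η : ℝ := min c.τ (c.r₁ / c.L)
  have hη : 0 < η := lt_min hτ (by positivity)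
  have key : ∀ y ∈ ball (c.ψ c.x₀) η, c.φ y ∈ ball c.x₀ c.r₁ ∧ c.ψ (c.φ y) = y ∧
      ‖c.φ y - c.x₀‖ ≤ c.L * dist (c.ψ c.x₀) y := by
    intro y hy
    rw [mem_ball, dist_comm] at hy
    obtain ⟨w, hw, hwy, hwn⟩ := c.in_chart hx₀ (lt_of_lt_of_le hy (min_le_left _ _))
    have h1 : c.φ y = w := by rw [← hwy, c.φψ w hw]
    rw [h1]
    refine ⟨?_, hwy, hwn⟩
    rw [mem_ball, dist_eq_norm]
    refine lt_of_le_of_lt hwn ?_
    have := lt_of_lt_of_le hy (min_le_right _ _)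
    rw [lt_div_iff₀ (by positivity)] at this
    linarith
  let K₁ : ℝ := 4 * c.C₃ * c.L ^ 6 + 2 * c.C * c.L ^ 6 + c.C₃
  have hK₁ : 0 < K₁ := by positivity
  let K : ℝ := Real.sqrt (K₁ / c.lam) + 2 * c.C₃ * c.L + c.C * c.L + c.C
  have hK : 0 < K := by positivity
  have hφp : c.φ (c.ψ c.x₀) = c.x₀ := c.φψ _ (mem_ball_self c.rpos)
  exact
  { φ := c.φ
    ψ := c.ψ
    η := η
    ηpos := hη
    L := c.L
    one_le_L := hL
    K := K
    Kpos := hK
    lam := c.lam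
    lampos := hlam
    Q := c.G c.x₀
    Qlow := c.lower c.x₀ (mem_ball_self c.rpos)
    Qup := by
      intro v
      refine (c.upper c.x₀ (mem_ball_self c.rpos) v).trans ?_
      have : c.C ≤ K := by
        change c.C ≤ Real.sqrt (K₁ / c.lam) + 2 * c.C₃ * c.L + c.C * c.L + c.C
        have h1 := Real.sqrt_nonneg (K₁ / c.lam)
        have h2 : 0 ≤ 2 * c.C₃ * c.L := by positivity
        have h3 : 0 ≤ c.C * c.L := by positivity
        linarith
      gcongr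
    lip1 := by
      intro y hy y' hy'
      obtain ⟨a1, a2, _⟩ := key y hy
      obtain ⟨b1, b2, _⟩ := key y' hy'
      have := c.norm_le b1 a1
      rw [a2, b2, dist_comm] at this
      exact this
    lip2 := by
      intro y hy y' hy'
      obtain ⟨a1, a2, _⟩ := key y hy
      obtain ⟨b1, b2, _⟩ := key y' hy'
      have := c.dist_le b1 a1
      rw [a2, b2, dist_comm] at this
      exact this
    surj := by
      intro v hv
      rw [hφp] at hv ⊢
      have hv1 : v ∈ ball c.x₀ c.r₁ := by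
        rw [mem_ball, dist_eq_norm]
        have h1 : c.L * ‖v - c.x₀‖ < c.r₁ / c.L := lt_of_lt_of_le hv (min_le_right _ _)
        have h2 : c.r₁ / c.L ≤ c.r₁ := div_le_self hr1.le hL
        nlinarith [norm_nonneg (v - c.x₀)]
      exact ⟨c.dist_le hx₀ hv1, c.φψ v (c.ball_sub hv1)⟩
    mid := by
      intro a ha b hb m hm h1 h2
      obtain ⟨a1, a2, _⟩ := key a ha
      obtain ⟨b1, b2, _⟩ := key b hb
      obtain ⟨m1, m2, _⟩ := key m hm
      have h3 := Loc.mid_est c a1 b1 m1 (by rw [a2, b2, m2]; exact h1) (by rw [a2, b2, m2]; exact h2)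
      set D := ‖c.φ a - c.φ b‖ with hD
      have hD0 : 0 ≤ D := norm_nonneg _
      rw [norm_sub_rev (c.φ b) (c.φ a)] at h3
      change c.lam * _ ≤ K₁ * D ^ 3 at h3
      have h4 : c.φ m - (1 / 2 : ℝ) • (c.φ a + c.φ b) =
          (1 / 2 : ℝ) • ((c.φ m - c.φ a) - (c.φ b - c.φ m)) := by module
      rw [h4, norm_smul, Real.norm_of_nonneg (by norm_num : (0 : ℝ) ≤ 1 / 2)]
      set N := ‖(c.φ m - c.φ a) - (c.φ b - c.φ m)‖ with hN
      have hN0 : 0 ≤ N := norm_nonneg _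
      have h5 : N ^ 2 ≤ (Real.sqrt (K₁ / c.lam) * (D * Real.sqrt D)) ^ 2 := by
        rw [mul_pow, mul_pow, Real.sq_sqrt (by positivity), Real.sq_sqrt hD0]
        rw [div_mul_eq_mul_div, le_div_iff₀ hlam]
        calc N ^ 2 * c.lam = c.lam * N ^ 2 := by ring
          _ ≤ K₁ * D ^ 3 := h3
          _ = K₁ * (D ^ 2 * D) := by ring
      have h6 : N ≤ Real.sqrt (K₁ / c.lam) * (D * Real.sqrt D) :=
        (pow_le_pow_iff_left₀ hN0 (by positivity) two_ne_zero).mp h5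
      have h7 : Real.sqrt (K₁ / c.lam) ≤ K := by
        change Real.sqrt (K₁ / c.lam) ≤ Real.sqrt (K₁ / c.lam) + 2 * c.C₃ * c.L + c.C * c.L + c.C
        have h2 : 0 ≤ 2 * c.C₃ * c.L := by positivity
        have h3 : 0 ≤ c.C * c.L := by positivity
        linarith
      calc 1 / 2 * N ≤ N := by linarith
        _ ≤ Real.sqrt (K₁ / c.lam) * (D * Real.sqrt D) := h6
        _ ≤ K * (D * Real.sqrt D) := by gcongr
        _ = K * D * Real.sqrt D := by ring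
    quad := by
      intro r hr y hy y' hy'
      obtain ⟨a1, a2, a3⟩ := key y (ball_subset_ball hr hy)
      obtain ⟨b1, b2, b3⟩ := key y' (ball_subset_ball hr hy')
      have e1 := c.le_dist_sq' a1 b1
      have e2 := c.dist_sq_le' a1 b1
      rw [a2, b2] at e1 e2
      have e3 := c.lip (c.φ y) (c.ball_sub a1) c.x₀ (mem_ball_self c.rpos) (c.φ y' - c.φ y)
        (c.φ y' - c.φ y)
      rw [abs_le] at e3
      have hr0 : 0 < r := lt_of_le_of_lt dist_nonneg (mem_ball.1 hy)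
      have hyr : dist (c.ψ c.x₀) y < r := by rw [dist_comm]; exact hy
      have hn1 : ‖c.φ y - c.x₀‖ ≤ c.L * r := a3.trans (by gcongr)
      have hn2 : ‖c.φ y' - c.φ y‖ ≤ 2 * c.L * r := by
        have h1 : ‖c.φ y' - c.x₀‖ ≤ c.L * r := by
          refine b3.trans ?_
          rw [mem_ball, dist_comm] at hy'
          gcongr
        have h2 : c.φ y' - c.φ y = (c.φ y' - c.x₀) - (c.φ y - c.x₀) := by abel
        rw [h2]
        refine (norm_sub_le _ _).trans ?_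
        linarith
      set V := ‖c.φ y' - c.φ y‖ with hV
      have hV0 : 0 ≤ V := norm_nonneg _
      have f1 : c.C₃ * V ^ 3 ≤ 2 * c.C₃ * c.L * r * V ^ 2 := by
        have : c.C₃ * V ^ 3 = c.C₃ * V * V ^ 2 := by ring
        rw [this]
        have : c.C₃ * V ≤ c.C₃ * (2 * c.L * r) := by gcongr
        nlinarith [sq_nonneg V]
      have f2 : c.C * ‖c.φ y - c.x₀‖ * V * V ≤ c.C * c.L * r * V ^ 2 := by
        have : c.C * ‖c.φ y - c.x₀‖ ≤ c.C * (c.L * r) := by gcongr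
        nlinarith [sq_nonneg V]
      have f3 : 2 * c.C₃ * c.L * r * V ^ 2 + c.C * c.L * r * V ^ 2 ≤ K * r * V ^ 2 := by
        have : 2 * c.C₃ * c.L + c.C * c.L ≤ K := by
          change _ ≤ Real.sqrt (K₁ / c.lam) + 2 * c.C₃ * c.L + c.C * c.L + c.C
          have h1 := Real.sqrt_nonneg (K₁ / c.lam)
          linarith
        have h2 : 0 ≤ r * V ^ 2 := by positivity
        nlinarith
      rw [abs_le]
      constructor
      · linarith [e3.2, e3.1]
      · linarith [e3.2, e3.1] }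

end Pool.Agent.Y451
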