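import Pool.Agent.Y451.Rig1

/-! Rigidity of isometries fixing a point to first order. -/

set_option autoImplicit false

open Metric Set

noncomputable section

namespace Pool.Agent.Y451

open Pool.Agent.Helper381

universe u v

variable {M : Type u} {E : Type v} [MetricSpace M] [NormedAddCommGroup E] [NormedSpace ℝ E]

/-- repeated halving towards `z` -/
def Half (z : M) (w : ℕ → M) : Prop :=
  ∀ j, dist z (w (j + 1)) = dist z (w j) / 2 ∧ dist (w (j + 1)) (w j) = dist z (w j) / 2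

lemma Half.dist {z : M} {w : ℕ → M} (h : Half z w) (j : ℕ) :
    dist z (w j) = dist z (w 0) / 2 ^ j := by
  induction j with
  | zero => simp
  | succ j ih => rw [(h j).1, ih, pow_succ]; field_simp

lemma Half.dist_le {z : M} {w : ℕ → M} (h : Half z w) (j : ℕ) :
    Dist.dist z (w j) ≤ Dist.dist z (w 0) := by
  rw [h.dist j]
  exact div_le_self dist_nonneg (one_le_pow₀ (by norm_num))

lemma exists_half {R : ℝ} (G : Geo M E R) (z y : M) : ∃ w, w 0 = y ∧ Half z w := by
  choose m h1 h2 using G.midpt z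
  refine ⟨fun j => m^[j] y, rfl, fun j => ?_⟩
  change Dist.dist z (m^[j + 1] y) = _ ∧ Dist.dist (m^[j + 1] y) (m^[j] y) = _
  rw [Function.iterate_succ_apply']
  exact ⟨h1 _, h2 _⟩

lemma Half.map {z : M} {w : ℕ → M} (h : Half z w) (f : M ≃ᵢ M) (hz : f z = z) :
    Half z (fun j => f (w j)) := by
  intro j
  constructor
  · calc Dist.dist z (f (w (j + 1))) = Dist.dist (f z) (f (w (j + 1))) := by rw [hz]
      _ = Dist.dist z (w (j + 1)) := f.isometry.dist_eq _ _
      _ = Dist.dist z (w j) / 2 := (h j).1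
      _ = Dist.dist (f z) (f (w j)) / 2 := by rw [f.isometry.dist_eq]
      _ = Dist.dist z (f (w j)) / 2 := by rw [hz]
  · calc Dist.dist (f (w (j + 1))) (f (w j)) = Dist.dist (w (j + 1)) (w j) := f.isometry.dist_eq _ _
      _ = Dist.dist z (w j) / 2 := (h j).2
      _ = Dist.dist (f z) (f (w j)) / 2 := by rw [f.isometry.dist_eq]
      _ = Dist.dist z (f (w j)) / 2 := by rw [hz]

/-- fixed points are closed under halving -/
lemma Half.fixed {R : ℝ} (G : Geo M E R) {z : M} {w : ℕ → M} (h : Half z w) (f : M ≃ᵢ M)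
    (hz : f z = z) (hw : f (w 0) = w 0) (hR : Dist.dist z (w 0) < R) (j : ℕ) : f (w j) = w j := by
  induction j with
  | zero => exact hw
  | succ j ih =>
    have h1 := h j
    have h2 := (h.map f hz) j
    simp only [ih] at h2
    exact G.midpt_unique (lt_of_le_of_lt (h.dist_le j) hR) h2.1 h2.2 h1.1 h1.2

/-- constant -/
def Crd.K' {p : M} (c : Crd M E p) : ℝ := 8 * c.K * c.L ^ 2

lemma Crd.K'pos {p : M} (c : Crd M E p) : 0 < c.K' := by
  have := c.Kpos
  have := c.one_le_L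
  unfold Crd.K'
  positivity

/-- halving in coordinates is almost linear -/
lemma Crd.half_est {p : M} (c : Crd M E p) {z : M} {w : ℕ → M} (hz : z ∈ ball p c.η)
    (hw : ∀ j, w j ∈ ball p c.η) (h : Half z w) (j : ℕ) :
    ‖(2 : ℝ) ^ j • (c.φ (w j) - c.φ z) - (c.φ (w 0) - c.φ z)‖ ≤
      c.K' * (dist z (w 0) * Real.sqrt (dist z (w 0))) := by
  have hL := c.one_le_L
  have hK := c.Kpos
  set D := dist z (w 0) with hD
  have hD0 : 0 ≤ D := dist_nonneg
  set q : ℝ := Real.sqrt (1 / 2) with hq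
  have hq0 : 0 ≤ q := Real.sqrt_nonneg _
  have hq2 : q ^ 2 = 1 / 2 := Real.sq_sqrt (by norm_num)
  have hq34 : q ≤ 3 / 4 := by nlinarith
  set A : ℝ := 2 * c.K * c.L * D * Real.sqrt (c.L * D) with hA
  have hA0 : 0 ≤ A := by positivity
  have hstep : ∀ j, ‖(2 : ℝ) ^ (j + 1) • (c.φ (w (j + 1)) - c.φ z) -
      (2 : ℝ) ^ j • (c.φ (w j) - c.φ z)‖ ≤ A * q ^ j := by
    intro j
    have h1 := c.mid z hz (w j) (hw j) (w (j + 1)) (hw (j + 1)) (h j).1 (h j).2
    have e1 : (2 : ℝ) ^ (j + 1) • (c.φ (w (j + 1)) - c.φ z) - (2 : ℝ) ^ j • (c.φ (w j) - c.φ z) =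
        (2 : ℝ) ^ (j + 1) • (c.φ (w (j + 1)) - (1 / 2 : ℝ) • (c.φ z + c.φ (w j))) := by
      rw [pow_succ]
      module
    rw [e1, norm_smul, Real.norm_of_nonneg (by positivity)]
    set V := ‖c.φ z - c.φ (w j)‖ with hV
    have hV0 : 0 ≤ V := norm_nonneg _
    have hVle : V ≤ c.L * D * (1 / 2) ^ j := by
      have h2 := c.lip1 z hz (w j) (hw j)
      rw [h.dist j, ← hD] at h2
      refine h2.trans (le_of_eq ?_)
      rw [one_div, inv_pow]
      field_simp
    have hsq : Real.sqrt V ≤ Real.sqrt (c.L * D) * q ^ j := by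
      have : Real.sqrt (c.L * D) * q ^ j = Real.sqrt (c.L * D * (1 / 2) ^ j) := by
        have h5 : (1 / 2 : ℝ) ^ j = (q ^ j) ^ 2 := by
          rw [← pow_mul, mul_comm j 2, pow_mul, hq2]
        rw [h5, Real.sqrt_mul (by positivity) ((q ^ j) ^ 2), Real.sqrt_sq (by positivity)]
      rw [this]
      exact Real.sqrt_le_sqrt hVle
    calc (2 : ℝ) ^ (j + 1) * ‖c.φ (w (j + 1)) - (1 / 2 : ℝ) • (c.φ z + c.φ (w j))‖
        ≤ (2 : ℝ) ^ (j + 1) * (c.K * V * Real.sqrt V) := by gcongr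
      _ ≤ (2 : ℝ) ^ (j + 1) * (c.K * (c.L * D * (1 / 2) ^ j) * (Real.sqrt (c.L * D) * q ^ j)) := by
          gcongr
      _ = A * q ^ j * ((2 : ℝ) ^ j * (1 / 2) ^ j) := by rw [hA, pow_succ]; ring
      _ = A * q ^ j := by rw [← mul_pow]; norm_num
  have hsum : ‖(2 : ℝ) ^ j • (c.φ (w j) - c.φ z) - (c.φ (w 0) - c.φ z)‖ ≤ 4 * A * (1 - q ^ j) := by
    induction j with
    | zero => simp
    | succ j ih =>
      have h1 := hstep j
      have h2 : (2 : ℝ) ^ (j + 1) • (c.φ (w (j + 1)) - c.φ z) - (c.φ (w 0) - c.φ z) =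
          ((2 : ℝ) ^ (j + 1) • (c.φ (w (j + 1)) - c.φ z) - (2 : ℝ) ^ j • (c.φ (w j) - c.φ z)) +
          ((2 : ℝ) ^ j • (c.φ (w j) - c.φ z) - (c.φ (w 0) - c.φ z)) := by abel
      rw [h2]
      refine (norm_add_le _ _).trans ((add_le_add h1 ih).trans ?_)
      have hqj : 0 ≤ q ^ j := by positivity
      rw [pow_succ]
      nlinarith [mul_nonneg hA0 hqj]
  refine hsum.trans ?_
  have h3 : Real.sqrt (c.L * D) ≤ c.L * Real.sqrt D := by
    rw [Real.sqrt_mul (by positivity)]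
    have : Real.sqrt c.L ≤ c.L := by
      rw [Real.sqrt_le_left (by positivity)]
      nlinarith
    gcongr
  have h4 : 0 ≤ q ^ j := by positivity
  calc 4 * A * (1 - q ^ j) ≤ 4 * A * 1 := by gcongr; linarith
    _ = 8 * c.K * c.L * D * Real.sqrt (c.L * D) := by rw [hA]; ring
    _ ≤ 8 * c.K * c.L * D * (c.L * Real.sqrt D) := by gcongr
    _ = c.K' * (D * Real.sqrt D) := by unfold Crd.K'; ring

/-- the isometry moves points very little near `p` -/
def FirstOrder (f : M → M) (p : M) : Prop :=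
  ∀ ε > 0, ∃ δ > 0, ∀ y, dist p y < δ → dist (f y) y ≤ ε * dist p y

lemma first_est {R : ℝ} (G : Geo M E R) {p : M} (c : Crd M E p) (f : M ≃ᵢ M) (hp : f p = p)
    (hf : FirstOrder f p) {y : M} (hy : y ∈ ball p c.η) :
    dist (f y) y ≤ 2 * c.L * c.K' * (dist p y * Real.sqrt (dist p y)) := by
  have hL := c.one_le_L
  set D := dist p y with hD
  have hD0 : 0 ≤ D := dist_nonneg
  obtain ⟨w, hw0, hw⟩ := exists_half G p y
  have hpη : p ∈ ball p c.η := mem_ball_self c.ηpos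
  have hyη : D < c.η := by rw [hD, dist_comm]; exact hy
  have hwη : ∀ j, w j ∈ ball p c.η := by
    intro j
    rw [mem_ball, dist_comm]
    refine lt_of_le_of_lt (hw.dist_le j) ?_
    rw [hw0]; exact hyη
  have hw' := hw.map f hp
  have hfd : ∀ x, dist p (f x) = dist p x := by
    intro x
    calc dist p (f x) = dist (f p) (f x) := by rw [hp]
      _ = dist p x := f.isometry.dist_eq _ _
  have hwη' : ∀ j, f (w j) ∈ ball p c.η := by
    intro j
    have := hwη j
    rw [mem_ball, dist_comm] at this ⊢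
    rwa [hfd]
  have hmain : ‖c.φ (f y) - c.φ y‖ ≤ 2 * (c.K' * (D * Real.sqrt D)) := by
    apply le_of_forall_pos_le_add
    intro ε hε
    obtain ⟨δ, hδ, h⟩ := hf (ε / (c.L * (D + 1))) (by positivity)
    obtain ⟨j, hj⟩ : ∃ j : ℕ, D / 2 ^ j < δ := by
      obtain ⟨j, hj⟩ := exists_pow_lt_of_lt_one (show 0 < δ / (D + 1) by positivity)
        (show (1 / 2 : ℝ) < 1 by norm_num)
      refine ⟨j, ?_⟩
      rw [lt_div_iff₀ (by positivity)] at hj
      have h1 : D / 2 ^ j = (1 / 2) ^ j * D := by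
        rw [one_div, inv_pow]; field_simp
      rw [h1]
      refine lt_of_le_of_lt ?_ hj
      gcongr
      linarith
    have e1 := c.half_est hpη hwη hw j
    have e2 := c.half_est hpη hwη' hw' j
    simp only [hw0] at e1 e2
    rw [hfd] at e2
    have hwj : dist p (w j) = D / 2 ^ j := by rw [hw.dist j, hw0]
    have e3 := h (w j) (by rw [hwj]; exact hj)
    have e4 := c.lip1 (f (w j)) (hwη' j) (w j) (hwη j)
    have e5 : c.φ (f y) - c.φ y =
        -((2 : ℝ) ^ j • (c.φ (f (w j)) - c.φ p) - (c.φ (f y) - c.φ p)) +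
        ((2 : ℝ) ^ j • (c.φ (w j) - c.φ p) - (c.φ y - c.φ p)) +
        (2 : ℝ) ^ j • (c.φ (f (w j)) - c.φ (w j)) := by module
    rw [e5]
    refine (norm_add_le _ _).trans ?_
    refine (add_le_add (norm_add_le _ _) le_rfl).trans ?_
    rw [norm_neg, norm_smul, Real.norm_of_nonneg (by positivity : (0 : ℝ) ≤ 2 ^ j)]
    have e6 : (2 : ℝ) ^ j * ‖c.φ (f (w j)) - c.φ (w j)‖ ≤ ε := by
      calc (2 : ℝ) ^ j * ‖c.φ (f (w j)) - c.φ (w j)‖
          ≤ 2 ^ j * (c.L * (ε / (c.L * (D + 1)) * (D / 2 ^ j))) := by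
            rw [hwj] at e3
            have := e4.trans (mul_le_mul_of_nonneg_left e3 (by positivity))
            gcongr
        _ = ε * (D / (D + 1)) := by field_simp
        _ ≤ ε * 1 := by
            gcongr
            rw [div_le_one (by positivity)]
            linarith
        _ = ε := mul_one _
    linarith
  have hfy : f y ∈ ball p c.η := by
    have := hwη' 0
    rwa [hw0] at this
  calc dist (f y) y ≤ c.L * ‖c.φ (f y) - c.φ y‖ := c.lip2 _ hfy _ hy
    _ ≤ c.L * (2 * (c.K' * (D * Real.sqrt D))) := by gcongr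
    _ = _ := by ring

lemma FirstOrder.iter {f : M ≃ᵢ M} {p : M} (hf : FirstOrder f p) (k : ℕ) :
    FirstOrder (⇑(f ^ k)) p := by
  induction k with
  | zero =>
    intro ε hε
    refine ⟨1, one_pos, fun y _ => ?_⟩
    simp only [pow_zero, IsometryEquiv.coe_one, id_eq, dist_self]
    positivity
  | succ k ih =>
    intro ε hε
    obtain ⟨δ₁, h₁, H₁⟩ := ih (ε / 2) (by positivity)
    obtain ⟨δ₂, h₂, H₂⟩ := hf (ε / 2) (by positivity)
    refine ⟨min δ₁ δ₂, lt_min h₁ h₂, fun y hy => ?_⟩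
    have e1 := H₁ y (lt_of_lt_of_le hy (min_le_left _ _))
    have e2 := H₂ y (lt_of_lt_of_le hy (min_le_right _ _))
    have e3 : (f ^ (k + 1)) y = (f ^ k) (f y) := by rw [pow_succ]; rfl
    rw [e3]
    have e4 := dist_triangle ((f ^ k) (f y)) ((f ^ k) y) y
    rw [(f ^ k).isometry.dist_eq] at e4
    linarith

lemma pow_fix {f : M ≃ᵢ M} {p : M} (hp : f p = p) (k : ℕ) : (f ^ k) p = p := by
  induction k with
  | zero => rfl
  | succ k ih =>
    have e3 : (f ^ (k + 1)) p = (f ^ k) (f p) := by rw [pow_succ]; rfl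
    rw [e3, hp, ih]

lemma zpow_est {R : ℝ} (G : Geo M E R) {p : M} (c : Crd M E p) (f : M ≃ᵢ M) (hp : f p = p)
    (hf : FirstOrder f p) {y : M} (hy : y ∈ ball p c.η) (k : ℤ) :
    dist ((f ^ k) y) y ≤ 2 * c.L * c.K' * (dist p y * Real.sqrt (dist p y)) := by
  have key : ∀ k : ℕ, dist ((f ^ k) y) y ≤ 2 * c.L * c.K' * (dist p y * Real.sqrt (dist p y)) :=
    fun k => first_est G c (f ^ k) (pow_fix hp k) (hf.iter k) hy
  obtain ⟨k, rfl | rfl⟩ := k.eq_nat_or_neg
  · rw [zpow_natCast]; exact key k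
  · rw [zpow_neg, zpow_natCast]
    have h1 := (f ^ k).isometry.dist_eq ((f ^ k)⁻¹ y) y
    have h2 : (f ^ k) ((f ^ k)⁻¹ y) = y := (f ^ k).apply_symm_apply y
    rw [h2] at h1
    rw [← h1, dist_comm]
    exact key k

end Pool.Agent.Y451
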