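import Pool.Agent.Y451.Rig2

/-! Rigidity: an isometry fixing a point to first order is the identity. -/

set_option autoImplicit false

open Metric Set

noncomputable section

namespace Pool.Agent.Y451

open Pool.Agent.Helper381

universe u v

variable {M : Type u} {E : Type v} [MetricSpace M] [NormedAddCommGroup E] [NormedSpace ℝ E]

/-- a point with small orbit is close to a fixed point -/
lemma exists_fixed [CompactSpace M] {R : ℝ} (G : Geo M E R) (f : M ≃ᵢ M) {y : M} {D : ℝ}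
    (hD : D < R) (h : ∀ k : ℤ, dist ((f ^ k) y) y ≤ D) : ∃ c, f c = c ∧ dist c y ≤ D := by
  set o : ℤ → M := fun k => (f ^ k) y with ho
  have ho0 : o 0 = y := by simp [ho]
  have hof : ∀ k, f (o k) = o (k + 1) := by
    intro k
    change f ((f ^ k) y) = (f ^ (k + 1)) y
    rw [add_comm, zpow_add, zpow_one]
    rfl
  set S : M → ℝ := fun c => ⨆ k : ℤ, dist c (o k) with hS
  have hbd : ∀ c, BddAbove (range fun k : ℤ => dist c (o k)) := by
    intro c
    refine ⟨dist c y + D, ?_⟩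
    rintro _ ⟨k, rfl⟩
    have h1 := dist_triangle c y (o k)
    have h2 := h k
    rw [dist_comm] at h2
    change dist c (o k) ≤ _
    change dist y (o k) ≤ D at h2
    linarith
  have hle : ∀ c k, dist c (o k) ≤ S c := fun c k => le_ciSup (hbd c) k
  have hSle : ∀ c c', S c ≤ S c' + dist c c' := by
    intro c c'
    apply ciSup_le
    intro k
    have h1 := dist_triangle c c' (o k)
    have h2 := hle c' k
    linarith
  have hScont : Continuous S := by
    rw [Metric.continuous_iff]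
    intro b ε hε
    refine ⟨ε, hε, fun a ha => ?_⟩
    rw [Real.dist_eq, abs_lt]
    have h1 := hSle a b
    have h2 := hSle b a
    rw [dist_comm b a] at h2
    constructor <;> linarith
  obtain ⟨c, _, hc⟩ := isCompact_univ.exists_isMinOn (⟨y, mem_univ y⟩ : (univ : Set M).Nonempty)
    hScont.continuousOn
  have hmin : ∀ x, S c ≤ S x := fun x => hc (mem_univ x)
  have hSf : ∀ x, S (f x) = S x := by
    intro x
    change (⨆ k : ℤ, dist (f x) (o k)) = ⨆ k : ℤ, dist x (o k)
    rw [← (Equiv.addRight (1 : ℤ)).iSup_comp (g := fun k : ℤ => dist (f x) (o k))]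
    congr 1
    funext k
    change dist (f x) (o (k + 1)) = dist x (o k)
    rw [← hof, f.isometry.dist_eq]
  have hSy : S y ≤ D := by
    apply ciSup_le
    intro k
    rw [dist_comm]
    exact h k
  have hcy : dist c y ≤ D := by
    have := hle c 0
    rw [ho0] at this
    exact this.trans ((hmin y).trans hSy)
  have hfcy : dist (f c) y ≤ D := by
    have := hle (f c) 0
    rw [ho0, hSf] at this
    exact this.trans ((hmin y).trans hSy)
  refine ⟨c, ?_, hcy⟩
  by_contra hne
  obtain ⟨ch, hch⟩ := G.chart y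
  have hcW : c ∈ ch.W := hch (lt_of_le_of_lt hcy hD)
  have hfW : f c ∈ ch.W := hch (lt_of_le_of_lt hfcy hD)
  have hoW : ∀ k, o k ∈ ch.W := fun k => hch (lt_of_le_of_lt (h k) hD)
  set κ := 3 / 16 * ch.Q (ch.φ (f c) - ch.φ c) with hκ
  have hκ0 : 0 < κ := by
    have := ch.Q_pos_of_ne hfW hcW hne
    positivity
  set m := ch.mid (f c) c with hm
  have hS0 : 0 ≤ S c := le_trans dist_nonneg (hle c 0)
  have h1 : ∀ k, dist m (o k) ≤ Real.sqrt (S c ^ 2 - κ) := by
    intro k
    apply Real.le_sqrt_of_sq_le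
    have e1 := ch.sc' (hoW k) hfW hcW
    have e2 : dist (o k) (f c) ^ 2 ≤ S c ^ 2 := by
      rw [dist_comm]
      have := hle (f c) k
      rw [hSf] at this
      exact pow_le_pow_left₀ dist_nonneg this 2
    have e3 : dist (o k) c ^ 2 ≤ S c ^ 2 := by
      rw [dist_comm]
      exact pow_le_pow_left₀ dist_nonneg (hle c k) 2
    rw [dist_comm m]
    change dist (o k) m ^ 2 ≤ _ at e1
    linarith
  have h2 : S m ≤ Real.sqrt (S c ^ 2 - κ) := ciSup_le h1
  have h3 := hmin m
  have h4 : 0 ≤ S c ^ 2 - κ := by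
    by_contra hneg
    push Not at hneg
    have : Real.sqrt (S c ^ 2 - κ) = 0 := Real.sqrt_eq_zero_of_nonpos hneg.le
    rw [this] at h2
    have h5 : S c = 0 := le_antisymm (h3.trans h2) hS0
    have h6 : dist c y = 0 := le_antisymm (by
      have := hle c 0
      rw [ho0, h5] at this
      exact this) dist_nonneg
    have h7 : dist (f c) y = 0 := le_antisymm (by
      have := hle (f c) 0
      rw [ho0, hSf, h5] at this
      exact this) dist_nonneg
    rw [dist_eq_zero] at h6 h7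
    exact hne (h7.trans h6.symm)
  have h5 : S c ≤ Real.sqrt (S c ^ 2 - κ) := h3.trans h2
  have h6 : S c ^ 2 ≤ S c ^ 2 - κ := by
    have := pow_le_pow_left₀ hS0 h5 2
    rwa [Real.sq_sqrt h4] at this
  linarith

/-- the choice of a small radius -/
lemma exists_radius (η R K6 K7 L K lam : ℝ) (hη : 0 < η) (hR : 0 < R) (hlam : 0 < lam) :
    ∃ r : ℝ, 0 < r ∧ 2 * r ≤ η ∧ L ^ 2 * r < η ∧ r < R ∧ K6 * Real.sqrt r ≤ 1 / 4 ∧
      4 * L ^ 2 * K6 * Real.sqrt r ≤ 1 ∧ 4 * L * K7 * Real.sqrt r ≤ 1 / 2 ∧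
      r * (4 * K + 32 * K * L ^ 2 * K7 ^ 2) < lam / 2 := by
  have hs : Filter.Tendsto (fun r : ℝ => Real.sqrt r) (nhdsWithin 0 (Ioi 0)) (nhds 0) := by
    have : Filter.Tendsto (fun r : ℝ => Real.sqrt r) (nhds 0) (nhds (Real.sqrt 0)) :=
      Real.continuous_sqrt.tendsto 0
    rw [Real.sqrt_zero] at this
    exact this.mono_left nhdsWithin_le_nhds
  have hi : Filter.Tendsto (fun r : ℝ => r) (nhdsWithin 0 (Ioi 0)) (nhds 0) :=
    Filter.tendsto_id.mono_left nhdsWithin_le_nhds
  have t : ∀ (a b : ℝ) (g : ℝ → ℝ), Filter.Tendsto g (nhdsWithin 0 (Ioi 0)) (nhds 0) → 0 < b →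
      ∀ᶠ r in nhdsWithin (0 : ℝ) (Ioi 0), a * g r < b := by
    intro a b g hg hb
    have : Filter.Tendsto (fun r => a * g r) (nhdsWithin 0 (Ioi 0)) (nhds (a * 0)) :=
      hg.const_mul a
    rw [mul_zero] at this
    exact this.eventually_lt_const hb
  have h := (((t 2 η _ hi hη).and (t (L ^ 2) η _ hi hη)).and ((t 1 R _ hi hR).and
    (t K6 (1 / 4) _ hs (by norm_num)))).and (((t (4 * L ^ 2 * K6) 1 _ hs one_pos).and
    (t (4 * L * K7) (1 / 2) _ hs (by norm_num))).and ((t (4 * K + 32 * K * L ^ 2 * K7 ^ 2) (lam / 2) _ hi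
      (by positivity)).and self_mem_nhdsWithin))
  obtain ⟨r, ⟨⟨h1, h2⟩, h3, h4⟩, ⟨h5, h6⟩, h7, h8⟩ := h.exists
  refine ⟨r, h8, h1.le, h2, by linarith, h4.le, h5.le, h6.le, by linarith⟩

theorem local_rigid [CompactSpace M] {R : ℝ} (G : Geo M E R) {p : M} (c : Crd M E p) (f : M ≃ᵢ M)
    (hp : f p = p) (hf : FirstOrder f p) : ∃ δ > 0, ∀ y, dist p y < δ → f y = y := by
  have hL := c.one_le_L
  have hK := c.Kpos
  have hK' := c.K'pos
  set K6 : ℝ := 2 * c.L * c.K' with hK6
  have hK60 : 0 < K6 := by positivity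
  set K7 : ℝ := c.K' + c.L * K6 with hK7
  have hK70 : 0 < K7 := by positivity
  obtain ⟨r, hr0, hr1, hr2, hr3, hr4, hr5, hr6, hr7⟩ :=
    exists_radius c.η R K6 K7 c.L c.K c.lam c.ηpos G.Rpos c.lampos
  set q := Real.sqrt r with hq
  have hq0 : 0 < q := Real.sqrt_pos.2 hr0
  have hqq : q ^ 2 = r := Real.sq_sqrt hr0.le
  have hpη : p ∈ ball p c.η := mem_ball_self c.ηpos
  -- fixed points are dense at small scale
  have hdense : ∀ y, dist p y < r → ∃ x, f x = x ∧ dist x y ≤ K6 * (r * q) := by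
    intro y hy
    have hyη : y ∈ ball p c.η := by rw [mem_ball, dist_comm]; linarith
    have h1 : ∀ k : ℤ, dist ((f ^ k) y) y ≤ K6 * (r * q) := by
      intro k
      refine (zpow_est G c f hp hf hyη k).trans ?_
      have : Real.sqrt (dist p y) ≤ q := Real.sqrt_le_sqrt hy.le
      have h0 : (0 : ℝ) ≤ dist p y := dist_nonneg
      gcongr
    refine exists_fixed G f ?_ h1
    calc K6 * (r * q) = (K6 * q) * r := by ring
      _ ≤ 1 / 4 * r := by gcongr
      _ < R := by linarith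
  refine ⟨r / 8, by positivity, fun y hy => ?_⟩
  by_contra hne
  -- nearest fixed point
  have hFc : IsCompact {x : M | f x = x} :=
    (isClosed_eq f.continuous continuous_id).isCompact
  obtain ⟨z, hz, hzmin⟩ := hFc.exists_isMinOn ⟨p, hp⟩
    ((continuous_const.dist continuous_id).continuousOn (f := fun x => dist y x))
  have hz' : f z = z := hz
  have hzmin' : ∀ x, f x = x → dist y z ≤ dist y x := fun x hx => hzmin hx
  have hyz : y ≠ z := by rintro rfl; exact hne hz'
  have hyp : dist y z ≤ dist y p := hzmin' p hp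
  have hyp' : dist y z < r / 8 := by rw [dist_comm y p] at hyp; linarith
  have hpz : dist p z < r / 4 := by
    have := dist_triangle p y z
    linarith
  have hyη : y ∈ ball p c.η := by rw [mem_ball, dist_comm]; linarith
  have hzη : z ∈ ball p c.η := by rw [mem_ball, dist_comm]; linarith
  set δ := ‖c.φ y - c.φ z‖ with hδ
  have hδ0 : 0 < δ := by
    have h1 := c.lip2 y hyη z hzη
    have h2 : 0 < dist y z := dist_pos.2 hyz
    by_contra hcon
    push Not at hcon
    have : c.L * δ ≤ 0 := mul_nonpos_of_nonneg_of_nonpos (by linarith) hcon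
    linarith
  set s := r / (4 * c.L) with hs
  have hs0 : 0 < s := by positivity
  have hsL : c.L * s = r / 4 := by rw [hs]; field_simp
  -- δ ≤ s
  have hδs : δ ≤ s := by
    obtain ⟨x, hx, hxy⟩ := hdense y (by linarith)
    have h1 := hzmin' x hx
    rw [dist_comm x y] at hxy
    have h2 := c.lip1 y hyη z hzη
    have h3 : c.L * δ * 4 ≤ r := by
      calc c.L * δ * 4 ≤ c.L * (c.L * (K6 * (r * q))) * 4 := by
            have : dist y z ≤ K6 * (r * q) := h1.trans hxy
            have : δ ≤ c.L * (K6 * (r * q)) := h2.trans (by gcongr)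
            gcongr
        _ = (4 * c.L ^ 2 * K6 * q) * r := by ring
        _ ≤ 1 * r := by gcongr
        _ = r := one_mul r
    rw [hs, le_div_iff₀ (by positivity)]
    linarith
  set u : E := δ⁻¹ • (c.φ y - c.φ z) with hu
  have hun : ‖u‖ = 1 := by
    rw [hu, norm_smul, norm_inv, Real.norm_of_nonneg hδ0.le, ← hδ]
    field_simp
  have hδu : δ • u = c.φ y - c.φ z := by
    rw [hu, smul_smul, mul_inv_cancel₀ hδ0.ne', one_smul]
  -- a point in the direction of y
  set v₀ : E := c.φ z + s • u with hv₀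
  have hv₀n : c.L * ‖v₀ - c.φ p‖ < c.η := by
    have h1 : v₀ - c.φ p = (c.φ z - c.φ p) + s • u := by rw [hv₀]; abel
    have h2 : ‖v₀ - c.φ p‖ ≤ c.L * (r / 4) + s := by
      rw [h1]
      refine (norm_add_le _ _).trans ?_
      rw [norm_smul, hun, Real.norm_of_nonneg hs0.le, mul_one]
      have h3 := c.lip1 z hzη p hpη
      rw [dist_comm] at h3
      have : c.L * dist p z ≤ c.L * (r / 4) := by gcongr
      linarith
    have h3 : s ≤ r / 4 := by
      rw [hs]
      apply div_le_div_of_nonneg_left hr0.le (by norm_num)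
      linarith
    calc c.L * ‖v₀ - c.φ p‖ ≤ c.L * (c.L * (r / 4) + s) := by gcongr
      _ = c.L ^ 2 * r / 4 + c.L * s := by ring
      _ = c.L ^ 2 * r / 4 + r / 4 := by rw [hsL]
      _ ≤ c.L ^ 2 * r := by
          have h5 : 1 ≤ c.L ^ 2 := one_le_pow₀ hL
          have h6 : 1 * r ≤ c.L ^ 2 * r := by gcongr
          linarith
      _ < c.η := hr2
  obtain ⟨hw₀p, hw₀φ⟩ := c.surj v₀ hv₀n
  set w₀ := c.ψ v₀ with hw₀
  have hw₀η : w₀ ∈ ball p c.η := by
    rw [mem_ball, dist_comm]; exact lt_of_le_of_lt hw₀p hv₀n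
  have hw₀z : dist w₀ z ≤ r / 4 := by
    refine (c.lip2 w₀ hw₀η z hzη).trans ?_
    rw [hw₀φ, hv₀, add_sub_cancel_left, norm_smul, hun, Real.norm_of_nonneg hs0.le, mul_one, hsL]
  have hw₀r : dist p w₀ < r := by
    have := dist_triangle_right p w₀ z
    rw [dist_comm w₀ z] at this
    rw [dist_comm z w₀] at this
    linarith
  obtain ⟨w', hw'f, hw'd⟩ := hdense w₀ hw₀r
  have hKq : K6 * (r * q) ≤ r / 4 := by
    calc K6 * (r * q) = (K6 * q) * r := by ring
      _ ≤ 1 / 4 * r := by gcongr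
      _ = r / 4 := by ring
  have hw'z : dist z w' ≤ r / 2 := by
    have := dist_triangle z w₀ w'
    rw [dist_comm z w₀, dist_comm w₀ w'] at this
    linarith
  obtain ⟨w, hw0, hw⟩ := exists_half G z w'
  have hwη : ∀ j, w j ∈ ball p c.η := by
    intro j
    rw [mem_ball, dist_comm]
    have h1 := dist_triangle p z (w j)
    have h2 := hw.dist_le j
    rw [hw0] at h2
    linarith
  have hwf : ∀ j, f (w j) = w j :=
    hw.fixed G f hz' (by rw [hw0]; exact hw'f) (by rw [hw0]; linarith)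
  -- choose the right scale
  obtain ⟨n, hn1, hn2⟩ := exists_nat_pow_near_of_lt_one (x := δ / s) (y := (1 / 2 : ℝ))
    (by positivity) ((div_le_one hs0).2 hδs) (by norm_num) (by norm_num)
  set j := n + 1 with hj
  set t := s * (1 / 2) ^ j / δ with ht
  have hj1 : s * (1 / 2) ^ j < δ := by
    rw [lt_div_iff₀ hs0] at hn1
    linarith
  have hj2 : δ ≤ 2 * (s * (1 / 2) ^ j) := by
    rw [div_le_iff₀ hs0] at hn2
    rw [hj, pow_succ]
    linarith
  have ht1 : t < 1 := by rw [ht, div_lt_one hδ0]; exact hj1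
  have ht2 : 1 / 2 ≤ t := by
    rw [ht, le_div_iff₀ hδ0]
    linarith
  have hest := c.half_est hzη hwη hw j
  rw [hw0] at hest
  set e : E := (c.φ (w j) - c.φ z) - t • (c.φ y - c.φ z) with he
  have hte : t • (c.φ y - c.φ z) = (s * (1 / 2) ^ j) • u := by
    rw [← hδu, smul_smul, ht]
    congr 1
    field_simp
  have hen : ‖e‖ ≤ δ * (4 * c.L * K7 * q) := by
    have h1 : (2 : ℝ) ^ j • e = ((2 : ℝ) ^ j • (c.φ (w j) - c.φ z) - (c.φ w' - c.φ z)) +
        (c.φ w' - c.φ w₀) := by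
      have h2 : (2 : ℝ) ^ j • (s * (1 / 2) ^ j) • u = s • u := by
        rw [smul_smul]
        congr 1
        have : (2 : ℝ) ^ j * (1 / 2) ^ j = 1 := by rw [← mul_pow]; norm_num
        calc (2 : ℝ) ^ j * (s * (1 / 2) ^ j) = s * ((2 : ℝ) ^ j * (1 / 2) ^ j) := by ring
          _ = s := by rw [this, mul_one]
      rw [he, hte, smul_sub, h2, hw₀φ, hv₀]
      abel
    have h2 : ‖(2 : ℝ) ^ j • e‖ ≤ K7 * (r * q) := by
      rw [h1]
      refine (norm_add_le _ _).trans ?_
      have h3 : dist z w' * Real.sqrt (dist z w') ≤ r * q := by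
        have : dist z w' ≤ r := by linarith
        have h5 : Real.sqrt (dist z w') ≤ q := Real.sqrt_le_sqrt this
        have h0 : (0 : ℝ) ≤ dist z w' := dist_nonneg
        gcongr
      have h4 : ‖c.φ w' - c.φ w₀‖ ≤ c.L * (K6 * (r * q)) := by
        have hw'η : w' ∈ ball p c.η := by have := hwη 0; rwa [hw0] at this
        refine (c.lip1 w' hw'η w₀ hw₀η).trans ?_
        gcongr
      have h5 : c.K' * (dist z w' * Real.sqrt (dist z w')) ≤ c.K' * (r * q) := by gcongr
      rw [hK7]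
      linarith
    rw [norm_smul, Real.norm_of_nonneg (by positivity)] at h2
    have h3 : ‖e‖ ≤ (1 / 2) ^ j * (K7 * (r * q)) := by
      have h4 : ‖e‖ = (1 / 2) ^ j * (2 ^ j * ‖e‖) := by
        rw [← mul_assoc, ← mul_pow]; norm_num
      rw [h4]
      gcongr
    have h4 : (1 / 2 : ℝ) ^ j ≤ δ / s := by
      rw [le_div_iff₀ hs0]; linarith
    calc ‖e‖ ≤ (1 / 2) ^ j * (K7 * (r * q)) := h3
      _ ≤ δ / s * (K7 * (r * q)) := by gcongr
      _ = δ * (4 * c.L * K7 * q) := by rw [hs]; field_simp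
  have heδ : ‖e‖ ≤ δ / 2 := by
    calc ‖e‖ ≤ δ * (4 * c.L * K7 * q) := hen
      _ ≤ δ * (1 / 2) := by gcongr
      _ = δ / 2 := by ring
  have hφ : c.φ (w j) - c.φ y = e - (1 - t) • (c.φ y - c.φ z) := by
    rw [he]; module
  -- compare distances
  have hyr : y ∈ ball p (2 * r) := by rw [mem_ball, dist_comm]; linarith
  have hzr : z ∈ ball p (2 * r) := by rw [mem_ball, dist_comm]; linarith
  have hwr : w j ∈ ball p (2 * r) := by
    rw [mem_ball, dist_comm]
    have h1 := dist_triangle p z (w j)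
    have h2 := hw.dist_le j
    rw [hw0] at h2
    linarith
  have q1 := c.quad (2 * r) hr1 y hyr z hzr
  have q2 := c.quad (2 * r) hr1 y hyr (w j) hwr
  rw [abs_le] at q1 q2
  have hmin := hzmin' (w j) (hwf j)
  have hsq : dist y z ^ 2 ≤ dist y (w j) ^ 2 := pow_le_pow_left₀ dist_nonneg hmin 2
  set a : E := c.φ y - c.φ z with ha
  set Q0 := c.Q a a with hQ0
  have hQ0l := c.Qlow a
  have hQa : c.Q (c.φ z - c.φ y) (c.φ z - c.φ y) = Q0 := by
    have : c.φ z - c.φ y = -a := by rw [ha]; abel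
    rw [this]
    simp [hQ0]
  have hQe : c.Q (c.φ (w j) - c.φ y) (c.φ (w j) - c.φ y) ≤
      2 * c.Q e e + 2 * ((1 - t) ^ 2 * Q0) := by
    rw [hφ]
    have h1 := c.Qlow (e + (1 - t) • a)
    have h2 : 0 ≤ c.Q (e + (1 - t) • a) (e + (1 - t) • a) := by
      refine le_trans ?_ h1
      have := c.lampos
      positivity
    have h3 : c.Q (e - (1 - t) • a) (e - (1 - t) • a) + c.Q (e + (1 - t) • a) (e + (1 - t) • a) =
        2 * c.Q e e + 2 * ((1 - t) ^ 2 * Q0) := by
      simp only [map_sub, map_add, map_smul, LinearMap.sub_apply, LinearMap.add_apply,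
        LinearMap.smul_apply, smul_eq_mul, hQ0]
      ring
    linarith
  have hQee : c.Q e e ≤ c.K * (δ * (4 * c.L * K7 * q)) ^ 2 := by
    refine (c.Qup e).trans ?_
    gcongr
  have h1t : (1 - t) ^ 2 ≤ 1 / 4 := by
    calc (1 - t) ^ 2 ≤ (1 / 2) ^ 2 := pow_le_pow_left₀ (by linarith) (by linarith) 2
      _ = 1 / 4 := by norm_num
  have hQ00 : 0 ≤ Q0 := by
    refine le_trans ?_ hQ0l
    have := c.lampos
    positivity
  have hn3 : ‖c.φ (w j) - c.φ y‖ ≤ δ := by
    rw [hφ]
    refine (norm_sub_le _ _).trans ?_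
    rw [norm_smul, Real.norm_of_nonneg (by linarith), ← hδ]
    have h11 : (1 - t) * δ ≤ 1 / 2 * δ := by gcongr; linarith
    linarith
  have hn4 : ‖c.φ z - c.φ y‖ = δ := by rw [hδ, norm_sub_rev]
  rw [hQa, hn4] at q1
  have hn5 : c.K * (2 * r) * ‖c.φ (w j) - c.φ y‖ ^ 2 ≤ c.K * (2 * r) * δ ^ 2 := by gcongr
  have hfin : c.lam * δ ^ 2 ≤ Q0 := hQ0l
  have h7 : (1 - t) ^ 2 * Q0 ≤ 1 / 4 * Q0 := by gcongr
  have h8 : (δ * (4 * c.L * K7 * q)) ^ 2 = 16 * c.L ^ 2 * K7 ^ 2 * r * δ ^ 2 := by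
    rw [← hqq]; ring
  rw [h8] at hQee
  have h9 : Q0 / 2 ≤ r * (4 * c.K + 32 * c.K * c.L ^ 2 * K7 ^ 2) * δ ^ 2 := by
    linarith [q1.1, q2.2]
  have h10 : 0 < δ ^ 2 := by positivity
  have h11 := mul_lt_mul_of_pos_right hr7 h10
  linarith

/-- rigidity -/
theorem rigid [CompactSpace M] [PreconnectedSpace M] {R : ℝ} (G : Geo M E R) {p : M}
    (c : Crd M E p) (f : M ≃ᵢ M) (hp : f p = p) (hf : FirstOrder f p) : ∀ y, f y = y :=
  G.eq_id f (local_rigid G c f hp hf)

end Pool.Agent.Y451
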