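import Pool.Agent.Y451.Rig3

/-! An isometry of a compact connected Riemannian manifold fixing a point, with differential
minus the identity there, is a symmetry. -/

set_option autoImplicit false

open Metric Set Manifold Bundle Filter
open scoped ContDiff Topology

noncomputable section

namespace Pool.Agent.Y451

open Pool.Agent.Helper381

universe u v

section Gen

variable {M : Type u} {E : Type v} [MetricSpace M] [NormedAddCommGroup E] [NormedSpace ℝ E]

lemma crd_of_loc (c : Loc M E) {p : M} (h : c.ψ c.x₀ = p) : ∃ c' : Crd M E p, c'.φ = c.φ := by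
  subst h
  exact ⟨Loc.crd c, rfl⟩

/-- the map is minus the identity to first order in the coordinates -/
def MinusFirst (φ : M → E) (f : M → M) (p : M) : Prop :=
  ∀ ε > 0, ∃ δ > 0, ∀ y, dist p y < δ → ‖(φ (f y) - φ p) + (φ y - φ p)‖ ≤ ε * ‖φ y - φ p‖

lemma MinusFirst.comp {p : M} (c : Crd M E p) {f : M → M} (hf : Isometry f) (hp : f p = p)
    (h : MinusFirst c.φ f p) : FirstOrder (f ∘ f) p := by
  have hL := c.one_le_L
  intro ε hε
  obtain ⟨δ, hδ, hd⟩ := h (ε / (2 * c.L ^ 2)) (by positivity)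
  refine ⟨min δ c.η, lt_min hδ c.ηpos, fun y hy => ?_⟩
  have hy1 := lt_of_lt_of_le hy (min_le_left _ _)
  have hy2 := lt_of_lt_of_le hy (min_le_right _ _)
  have hfd : ∀ x, dist p (f x) = dist p x := by
    intro x
    calc dist p (f x) = dist (f p) (f x) := by rw [hp]
      _ = dist p x := hf.dist_eq _ _
  have hpη : p ∈ ball p c.η := mem_ball_self c.ηpos
  have hyη : y ∈ ball p c.η := by rw [mem_ball, dist_comm]; exact hy2
  have hfyη : f y ∈ ball p c.η := by rw [mem_ball, dist_comm, hfd]; exact hy2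
  have hffyη : f (f y) ∈ ball p c.η := by rw [mem_ball, dist_comm, hfd, hfd]; exact hy2
  have e1 := hd y hy1
  have e2 := hd (f y) (by rw [hfd]; exact hy1)
  have e3 : c.φ (f (f y)) - c.φ y = ((c.φ (f (f y)) - c.φ p) + (c.φ (f y) - c.φ p)) -
      ((c.φ (f y) - c.φ p) + (c.φ y - c.φ p)) := by abel
  have e4 := c.lip1 y hyη p hpη
  have e5 := c.lip1 (f y) hfyη p hpη
  rw [dist_comm y p] at e4
  rw [dist_comm (f y) p, hfd] at e5
  have e6 : ‖c.φ (f (f y)) - c.φ y‖ ≤ ε / c.L * dist p y := by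
    rw [e3]
    refine (norm_sub_le _ _).trans ((add_le_add e2 e1).trans ?_)
    calc ε / (2 * c.L ^ 2) * ‖c.φ (f y) - c.φ p‖ + ε / (2 * c.L ^ 2) * ‖c.φ y - c.φ p‖
        ≤ ε / (2 * c.L ^ 2) * (c.L * dist p y) + ε / (2 * c.L ^ 2) * (c.L * dist p y) := by gcongr
      _ = ε / c.L * dist p y := by field_simp; ring
  calc dist ((f ∘ f) y) y ≤ c.L * ‖c.φ (f (f y)) - c.φ y‖ := c.lip2 _ hffyη _ hyη
    _ ≤ c.L * (ε / c.L * dist p y) := by gcongr
    _ = ε * dist p y := by field_simp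

lemma MinusFirst.isolated {p : M} (c : Crd M E p) {f : M → M}
    (h : MinusFirst c.φ f p) : ∃ ε > 0, ∀ y, dist y p < ε → f y = y → y = p := by
  obtain ⟨δ, hδ, hd⟩ := h 1 one_pos
  refine ⟨min δ c.η, lt_min hδ c.ηpos, fun y hy hfy => ?_⟩
  have hy1 := lt_of_lt_of_le hy (min_le_left _ _)
  have hy2 := lt_of_lt_of_le hy (min_le_right _ _)
  have e1 := hd y (by rw [dist_comm]; exact hy1)
  rw [hfy, one_mul] at e1
  have e2 : ‖(c.φ y - c.φ p) + (c.φ y - c.φ p)‖ = 2 * ‖c.φ y - c.φ p‖ := by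
    rw [← two_smul ℝ, norm_smul]
    norm_num
  rw [e2] at e1
  have e3 : ‖c.φ y - c.φ p‖ = 0 := by
    have := norm_nonneg (c.φ y - c.φ p)
    linarith
  have e4 := c.lip2 y (by rw [mem_ball]; exact hy2) p (mem_ball_self c.ηpos)
  rw [e3, mul_zero] at e4
  exact dist_le_zero.1 e4

lemma isom_surj' [CompactSpace M] (ψ : M → M) (hψ : Isometry ψ) : Function.Surjective ψ := by
  intro y
  by_contra hy
  have hcl : IsClosed (Set.range ψ) := (isCompact_range hψ.continuous).isClosed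
  obtain ⟨ε, hε, hb⟩ := Metric.isOpen_iff.1 hcl.isOpen_compl y hy
  have h1 : ∀ x, ε ≤ dist (ψ x) y := by
    intro x
    by_contra h
    push Not at h
    exact hb (Metric.mem_ball.2 h) ⟨x, rfl⟩
  have hit : ∀ n : ℕ, Isometry (ψ^[n]) := by
    intro n
    induction n with
    | zero => exact isometry_id
    | succ n ih => rw [Function.iterate_succ]; exact ih.comp hψ
  have h2 : ∀ n k : ℕ, ε ≤ dist (ψ^[n + (k + 1)] y) (ψ^[n] y) := by
    intro n k
    rw [Function.iterate_add_apply, (hit n).dist_eq, Function.iterate_succ_apply']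
    exact h1 _
  obtain ⟨a, φ, hφ, hlim⟩ := CompactSpace.tendsto_subseq (fun n => ψ^[n] y)
  have hc := hlim.cauchySeq
  rw [Metric.cauchySeq_iff'] at hc
  obtain ⟨N, hN⟩ := hc ε hε
  have h3 := hN (N + 1) (by omega)
  have h4 : φ N < φ (N + 1) := hφ (by omega)
  obtain ⟨k, hk⟩ : ∃ k, φ (N + 1) = φ N + (k + 1) := ⟨φ (N+1) - φ N - 1, by omega⟩
  have h5 := h2 (φ N) k
  simp only [Function.comp_apply] at h3
  rw [hk] at h3
  linarith

/-- an isometry which is minus the identity to first order is a symmetry -/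
theorem isSymm_of_minusFirst [CompactSpace M] [PreconnectedSpace M] {R : ℝ} (G : Geo M E R)
    {p : M} (c : Crd M E p) (f : M → M) (hf : Isometry f) (hp : f p = p)
    (h : MinusFirst c.φ f p) : ∃ t : M ≃ᵢ M, (∀ y, t y = f y) ∧ IsSymmetryAt p t := by
  let e : M ≃ M := Equiv.ofBijective f ⟨hf.injective, isom_surj' f hf⟩
  let t : M ≃ᵢ M := ⟨e, hf⟩
  have ht : ∀ y, t y = f y := fun y => rfl
  have h1 : FirstOrder (⇑(t.trans t)) p := MinusFirst.comp c hf hp h
  have h2 : (t.trans t) p = p := by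
    change f (f p) = p
    rw [hp, hp]
  have h3 := rigid G c (t.trans t) h2 h1
  exact ⟨t, ht, h3, hp, MinusFirst.isolated c h⟩

end Gen

section Riem

variable {E : Type v} [NormedAddCommGroup E] [NormedSpace ℝ E] [FiniteDimensional ℝ E]
  {M : Type u} [MetricSpace M] [ChartedSpace E M] [IsManifold 𝓘(ℝ, E) ∞ M]
  [RiemannianBundle (fun (x : M) ↦ TangentSpace 𝓘(ℝ, E) x)]
  [IsContMDiffRiemannianBundle 𝓘(ℝ, E) ∞ E (fun (x : M) ↦ TangentSpace 𝓘(ℝ, E) x)]
  [IsRiemannianManifold 𝓘(ℝ, E) M]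

theorem exists_crd (p : M) : ∃ c : Crd M E p, c.φ = extChartAt 𝓘(ℝ, E) p := by
  obtain ⟨g, hgx, hgt, hG⟩ := exists_metCoef (E := E) p
  have : ∃ c : Loc M E, c.ψ c.x₀ = p ∧ c.φ = extChartAt 𝓘(ℝ, E) p := by
    refine ⟨{ toMetCoef := g
              φ := extChartAt 𝓘(ℝ, E) p
              ψ := psi p
              φψ := fun v hv => (extChartAt 𝓘(ℝ, E) p).right_inv (hgt hv)
              isOpen_image := fun V hV hVo => isOpen_psi_image p (hV.trans hgt) hVo
              contφ := ?_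
              contψ := (continuousOn_extChartAt_symm p).mono hgt
              up := ?_
              lo := ?_ }, ?_, rfl⟩
    · apply (continuousOn_extChartAt p).mono
      rintro _ ⟨v, hv, rfl⟩
      exact (extChartAt 𝓘(ℝ, E) p).map_target (hgt hv)
    · intro x hx y hy K hK h
      apply up_chart p _ K hK
      · intro t ht
        have := h t ht
        rwa [hG] at this
      · intro t ht
        apply hgt
        have := (convex_ball g.x₀ g.r) hx hy (by linarith [ht.2] : (0 : ℝ) ≤ 1 - t) ht.1 (by ring)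
        have e : (1 - t) • x + t • y = x + t • (y - x) := by module
        rwa [e] at this
    · intro x hx s K hs hK h y hy
      obtain ⟨w, hw, hwy, hle⟩ := lo_chart p hgt hx hs hK (by
        intro w hw
        have := h w (by rw [hG]; exact hw)
        refine ⟨this.1, fun v => ?_⟩
        have h2 := this.2 v
        rwa [hG, hG] at h2) y hy
      exact ⟨w, hw, hwy, by rw [hG]; exact hle⟩
    · change psi p g.x₀ = p
      rw [hgx]
      exact extChartAt_to_inv p
  obtain ⟨c, h1, h2⟩ := this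
  obtain ⟨c', hc'⟩ := crd_of_loc c h1
  exact ⟨c', hc'.trans h2⟩

omit [FiniteDimensional ℝ E] [IsManifold 𝓘(ℝ, E) ∞ M]
  [RiemannianBundle (fun (x : M) ↦ TangentSpace 𝓘(ℝ, E) x)]
  [IsContMDiffRiemannianBundle 𝓘(ℝ, E) ∞ E (fun (x : M) ↦ TangentSpace 𝓘(ℝ, E) x)]
  [IsRiemannianManifold 𝓘(ℝ, E) M] in
lemma minusFirst_of_mfderiv {p : M} {f : M → M} (hp : f p = p)
    (hd : MDifferentiableAt 𝓘(ℝ, E) 𝓘(ℝ, E) f p)
    (hm : mfderiv 𝓘(ℝ, E) 𝓘(ℝ, E) f p = -ContinuousLinearMap.id ℝ E) :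
    MinusFirst (extChartAt 𝓘(ℝ, E) p) f p := by
  have h1 := hd.hasMFDerivAt
  rw [hm] at h1
  have h2 := h1.2
  rw [writtenInExtChartAt, hp] at h2
  simp only [modelWithCornersSelf_coe, range_id, hasFDerivWithinAt_univ] at h2
  have h3 := h2.isLittleO
  intro ε hε
  have h4 := h3.def hε
  have hc : Tendsto (extChartAt 𝓘(ℝ, E) p) (𝓝 p) (𝓝 (extChartAt 𝓘(ℝ, E) p p)) :=
    (continuousAt_extChartAt p)
  have h5 := hc.eventually h4
  have h6 : ∀ᶠ y in 𝓝 p, y ∈ (extChartAt 𝓘(ℝ, E) p).source := extChartAt_source_mem_nhds p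
  obtain ⟨δ, hδ, h7⟩ := Metric.eventually_nhds_iff.1 (h5.and h6)
  refine ⟨δ, hδ, fun y hy => ?_⟩
  obtain ⟨h8, h9⟩ := h7 (by rw [dist_comm]; exact hy)
  simp only [Function.comp_apply] at h8
  rw [(extChartAt 𝓘(ℝ, E) p).left_inv h9, (extChartAt 𝓘(ℝ, E) p).left_inv
    (mem_extChartAt_source p), hp] at h8
  refine le_trans (le_of_eq ?_) h8
  congr 1
  simp only [neg_apply, ContinuousLinearMap.id_apply, sub_neg_eq_add]

/-- An isometry of a compact connected Riemannian manifold which fixes a point and has differential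
`-id` there is the symmetry at that point. -/
theorem isSymm_of_mfderiv [CompactSpace M] [PreconnectedSpace M] {p : M} {f : M → M}
    (hf : Isometry f) (hp : f p = p) (hd : MDifferentiableAt 𝓘(ℝ, E) 𝓘(ℝ, E) f p)
    (hm : mfderiv 𝓘(ℝ, E) 𝓘(ℝ, E) f p = -ContinuousLinearMap.id ℝ E) :
    ∃ t : M ≃ᵢ M, (∀ y, t y = f y) ∧ IsSymmetryAt p t := by
  obtain ⟨R, G⟩ := riemannian_geo (E := E) (M := M)
  obtain ⟨c, hc⟩ := exists_crd (E := E) p
  apply isSymm_of_minusFirst G c f hf hp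
  rw [hc]
  exact minusFirst_of_mfderiv hp hd hm

end Riem

end Pool.Agent.Y451
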