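import Pool.Agent.Y451.Emb

/-! The unit decomposable tensors in `ℝ² ⊗ ℝ³ ⊗ ℝ³`. -/

set_option autoImplicit false

open Set Filter Topology
open scoped ContDiff

noncomputable section

namespace Pool.Agent.Y451

/-- the space of tensors -/
abbrev V5 : Type := EuclideanSpace ℝ (Fin 2 × Fin 3 × Fin 3)

/-- the model space -/
abbrev E5 : Type := EuclideanSpace ℝ (Fin 5)

/-- decomposable tensors -/
def tens (x : Fin 2 → ℝ) (y z : Fin 3 → ℝ) : V5 := WithLp.toLp 2 fun p => x p.1 * y p.2.1 * z p.2.2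

@[simp] lemma tens_apply (x : Fin 2 → ℝ) (y z : Fin 3 → ℝ) (p : Fin 2 × Fin 3 × Fin 3) :
    tens x y z p = x p.1 * y p.2.1 * z p.2.2 := rfl

/-- the unit decomposable tensors -/
def S5 : Set V5 := {T | ∃ (x : Fin 2 → ℝ) (y z : Fin 3 → ℝ), ∑ i, x i ^ 2 = 1 ∧ ∑ i, y i ^ 2 = 1 ∧
  ∑ i, z i ^ 2 = 1 ∧ T = tens x y z}

/-- sign -/
def sg (b : Bool) : ℝ := if b then 1 else -1

lemma sg_sq (b : Bool) : sg b * sg b = 1 := by
  cases b <;> simp [sg]

lemma sg_abs (b : Bool) : |sg b| = 1 := by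
  cases b <;> simp [sg]

/-- first factor -/
def cX (i : Fin 2) (u : E5) : Fin 2 → ℝ := fun m => if m = i then 1 else u 0

/-- second factor -/
def cY (j : Fin 3) (u : E5) : Fin 3 → ℝ := fun m => if m = j then 1 else
  if m = j.succAbove 0 then u 1 else u 2

/-- third factor -/
def cZ (k : Fin 3) (u : E5) : Fin 3 → ℝ := fun m => if m = k then 1 else
  if m = k.succAbove 0 then u 3 else u 4

/-- square of the norm -/
def cN (u : E5) : ℝ := (1 + u 0 ^ 2) * (1 + u 1 ^ 2 + u 2 ^ 2) * (1 + u 3 ^ 2 + u 4 ^ 2)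

lemma cN_pos (u : E5) : 0 < cN u := by
  unfold cN
  positivity

lemma sum_cX (i : Fin 2) (u : E5) : ∑ m, cX i u m ^ 2 = 1 + u 0 ^ 2 := by
  rw [Fin.sum_univ_two]
  fin_cases i <;> simp [cX] <;> ring

lemma sum_cY (j : Fin 3) (u : E5) : ∑ m, cY j u m ^ 2 = 1 + u 1 ^ 2 + u 2 ^ 2 := by
  rw [Fin.sum_univ_three]
  fin_cases j <;> simp [cY, Fin.succAbove] <;> ring

lemma sum_cZ (k : Fin 3) (u : E5) : ∑ m, cZ k u m ^ 2 = 1 + u 3 ^ 2 + u 4 ^ 2 := by
  rw [Fin.sum_univ_three]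
  fin_cases k <;> simp [cZ, Fin.succAbove] <;> ring

/-- the parametrisation -/
def cphi (a : Fin 2 × Fin 3 × Fin 3 × Bool) (u : E5) : V5 :=
  (sg a.2.2.2 * (Real.sqrt (cN u))⁻¹) • tens (cX a.1 u) (cY a.2.1 u) (cZ a.2.2.1 u)

/-- the chart -/
def crho (a : Fin 2 × Fin 3 × Fin 3 × Bool) (T : V5) : E5 :=
  WithLp.toLp 2 ![T (a.1.succAbove 0, a.2.1, a.2.2.1) / T (a.1, a.2.1, a.2.2.1),
    T (a.1, a.2.1.succAbove 0, a.2.2.1) / T (a.1, a.2.1, a.2.2.1),
    T (a.1, a.2.1.succAbove 1, a.2.2.1) / T (a.1, a.2.1, a.2.2.1),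
    T (a.1, a.2.1, a.2.2.1.succAbove 0) / T (a.1, a.2.1, a.2.2.1),
    T (a.1, a.2.1, a.2.2.1.succAbove 1) / T (a.1, a.2.1, a.2.2.1)]

/-- the domains of the charts -/
def cW (a : Fin 2 × Fin 3 × Fin 3 × Bool) : Set V5 := {T | 0 < sg a.2.2.2 * T (a.1, a.2.1, a.2.2.1)}

lemma contDiff_coord {ι : Type} [Fintype ι] (i : ι) :
    ContDiff ℝ ∞ (fun u : EuclideanSpace ℝ ι => u i) :=
  (EuclideanSpace.proj (𝕜 := ℝ) i).contDiff

lemma contDiff_cphi (a : Fin 2 × Fin 3 × Fin 3 × Bool) : ContDiff ℝ ∞ (cphi a) := by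
  rw [contDiff_euclidean]
  intro p
  unfold cphi
  simp only [PiLp.smul_apply, tens_apply, smul_eq_mul]
  have h0 : ContDiff ℝ ∞ cN := by
    unfold cN
    have := fun i => contDiff_coord (ι := Fin 5) i
    exact ((contDiff_const.add ((this 0).pow 2)).mul ((contDiff_const.add ((this 1).pow 2)).add
      ((this 2).pow 2))).mul ((contDiff_const.add ((this 3).pow 2)).add ((this 4).pow 2))
  have h1 : ContDiff ℝ ∞ (fun u => (Real.sqrt (cN u))⁻¹) :=
    (h0.sqrt (fun u => (cN_pos u).ne')).inv (fun u => (Real.sqrt_pos.2 (cN_pos u)).ne')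
  have hX : ContDiff ℝ ∞ (fun u => cX a.1 u p.1) := by
    unfold cX
    split_ifs
    · exact contDiff_const
    · exact contDiff_coord 0
  have hY : ContDiff ℝ ∞ (fun u => cY a.2.1 u p.2.1) := by
    unfold cY
    split_ifs
    · exact contDiff_const
    · exact contDiff_coord 1
    · exact contDiff_coord 2
  have hZ : ContDiff ℝ ∞ (fun u => cZ a.2.2.1 u p.2.2) := by
    unfold cZ
    split_ifs
    · exact contDiff_const
    · exact contDiff_coord 3
    · exact contDiff_coord 4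
  exact (contDiff_const.mul h1).mul ((hX.mul hY).mul hZ)

lemma ne_of_mem_cW {a : Fin 2 × Fin 3 × Fin 3 × Bool} {T : V5} (h : T ∈ cW a) :
    T (a.1, a.2.1, a.2.2.1) ≠ 0 := by
  intro h0
  have : 0 < sg a.2.2.2 * T (a.1, a.2.1, a.2.2.1) := h
  rw [h0, mul_zero] at this
  exact lt_irrefl _ this

lemma contDiffOn_crho (a : Fin 2 × Fin 3 × Fin 3 × Bool) : ContDiffOn ℝ ∞ (crho a) (cW a) := by
  rw [contDiffOn_euclidean]
  intro m
  have h : ∀ p q : Fin 2 × Fin 3 × Fin 3, q = (a.1, a.2.1, a.2.2.1) →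
      ContDiffOn ℝ ∞ (fun T : V5 => T p / T q) (cW a) := by
    rintro p q rfl
    exact (contDiff_coord p).contDiffOn.div (contDiff_coord _).contDiffOn
      (fun T hT => ne_of_mem_cW hT)
  fin_cases m
  · exact h _ _ rfl
  · exact h _ _ rfl
  · exact h _ _ rfl
  · exact h _ _ rfl
  · exact h _ _ rfl

lemma fin2_eq (i m : Fin 2) (h : m ≠ i) : m = i.succAbove 0 := by
  revert i m; decide

lemma fin3_eq (i m : Fin 3) (h : m ≠ i) (h' : m ≠ i.succAbove 0) : m = i.succAbove 1 := by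
  revert i m; decide

lemma cphi_mem (a : Fin 2 × Fin 3 × Fin 3 × Bool) (u : E5) : cphi a u ∈ S5 := by
  set n1 := 1 + u 0 ^ 2 with hn1
  set n2 := 1 + u 1 ^ 2 + u 2 ^ 2 with hn2
  set n3 := 1 + u 3 ^ 2 + u 4 ^ 2 with hn3
  have h1 : 0 < n1 := by positivity
  have h2 : 0 < n2 := by positivity
  have h3 : 0 < n3 := by positivity
  refine ⟨fun m => sg a.2.2.2 * (Real.sqrt n1)⁻¹ * cX a.1 u m,
    fun m => (Real.sqrt n2)⁻¹ * cY a.2.1 u m, fun m => (Real.sqrt n3)⁻¹ * cZ a.2.2.1 u m,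
    ?_, ?_, ?_, ?_⟩
  · simp only [mul_pow]
    rw [← Finset.mul_sum, sum_cX, inv_pow, Real.sq_sqrt h1.le, pow_two (sg _), sg_sq, ← hn1]
    field_simp
  · simp only [mul_pow]
    rw [← Finset.mul_sum, sum_cY, inv_pow, Real.sq_sqrt h2.le, ← hn2]
    field_simp
  · simp only [mul_pow]
    rw [← Finset.mul_sum, sum_cZ, inv_pow, Real.sq_sqrt h3.le, ← hn3]
    field_simp
  · ext p
    simp only [cphi, PiLp.smul_apply, tens_apply, smul_eq_mul]
    have : Real.sqrt (cN u) = Real.sqrt n1 * Real.sqrt n2 * Real.sqrt n3 := by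
      rw [← Real.sqrt_mul h1.le, ← Real.sqrt_mul (mul_pos h1 h2).le]
      rfl
    rw [this, mul_inv, mul_inv]
    ring

lemma cphi_apply_self (a : Fin 2 × Fin 3 × Fin 3 × Bool) (u : E5) :
    cphi a u (a.1, a.2.1, a.2.2.1) = sg a.2.2.2 * (Real.sqrt (cN u))⁻¹ := by
  simp [cphi, cX, cY, cZ]

lemma cphi_mem_W (a : Fin 2 × Fin 3 × Fin 3 × Bool) (u : E5) : cphi a u ∈ cW a := by
  change 0 < sg a.2.2.2 * cphi a u (a.1, a.2.1, a.2.2.1)
  rw [cphi_apply_self, ← mul_assoc, sg_sq, one_mul]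
  exact inv_pos.2 (Real.sqrt_pos.2 (cN_pos u))

lemma succAbove_ne' {n : ℕ} (i : Fin (n + 1)) (j : Fin n) : ¬ i.succAbove j = i :=
  Fin.succAbove_ne i j

lemma sg_ne (b : Bool) : sg b ≠ 0 := by
  cases b <;> simp [sg]

lemma crho_cphi (a : Fin 2 × Fin 3 × Fin 3 × Bool) (u : E5) : crho a (cphi a u) = u := by
  have h1 : Real.sqrt (cN u) ≠ 0 := (Real.sqrt_pos.2 (cN_pos u)).ne'
  have h2 : sg a.2.2.2 ≠ 0 := sg_ne _
  have h01 : ∀ j : Fin 3, ¬ j.succAbove 1 = j.succAbove 0 := by decide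
  ext m
  fin_cases m <;>
  simp [crho, cphi_apply_self] <;>
  simp [cphi, cX, cY, cZ, h01] <;>
  field_simp

lemma cphi_crho (a : Fin 2 × Fin 3 × Fin 3 × Bool) (T : V5) (hT : T ∈ S5) (hW : T ∈ cW a) :
    cphi a (crho a T) = T := by
  obtain ⟨x, y, z, hx, hy, hz, rfl⟩ := hT
  obtain ⟨i, j, k, b⟩ := a
  have hW' : 0 < sg b * (x i * y j * z k) := hW
  have hne : x i * y j * z k ≠ 0 := by
    intro h; rw [h, mul_zero] at hW'; exact lt_irrefl _ hW'
  have hxi : x i ≠ 0 := by rintro h; simp [h] at hne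
  have hyj : y j ≠ 0 := by rintro h; simp [h] at hne
  have hzk : z k ≠ 0 := by rintro h; simp [h] at hne
  set u := crho (i, j, k, b) (tens x y z) with hu
  have u0 : u 0 = x (i.succAbove 0) / x i := by
    simp [hu, crho]; field_simp
  have u1 : u 1 = y (j.succAbove 0) / y j := by
    simp [hu, crho]; field_simp
  have u2 : u 2 = y (j.succAbove 1) / y j := by
    simp [hu, crho]; field_simp
  have u3 : u 3 = z (k.succAbove 0) / z k := by
    simp [hu, crho]; field_simp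
  have u4 : u 4 = z (k.succAbove 1) / z k := by
    simp [hu, crho]; field_simp
  have hX : ∀ m, cX i u m = x m / x i := by
    intro m
    unfold cX
    split_ifs with h
    · subst h; field_simp
    · rw [u0, ← fin2_eq i m h]
  have hY : ∀ m, cY j u m = y m / y j := by
    intro m
    unfold cY
    split_ifs with h h'
    · subst h; field_simp
    · rw [u1, h']
    · rw [u2, ← fin3_eq j m h h']
  have hZ : ∀ m, cZ k u m = z m / z k := by
    intro m
    unfold cZ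
    split_ifs with h h'
    · subst h; field_simp
    · rw [u3, h']
    · rw [u4, ← fin3_eq k m h h']
  have hN : cN u = (x i * y j * z k)⁻¹ ^ 2 := by
    have e1 : 1 + u 0 ^ 2 = (x i)⁻¹ ^ 2 := by
      rw [← sum_cX i u]
      simp only [hX, div_pow]
      rw [← Finset.sum_div, hx]; field_simp
    have e2 : 1 + u 1 ^ 2 + u 2 ^ 2 = (y j)⁻¹ ^ 2 := by
      rw [← sum_cY j u]
      simp only [hY, div_pow]
      rw [← Finset.sum_div, hy]; field_simp
    have e3 : 1 + u 3 ^ 2 + u 4 ^ 2 = (z k)⁻¹ ^ 2 := by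
      rw [← sum_cZ k u]
      simp only [hZ, div_pow]
      rw [← Finset.sum_div, hz]; field_simp
    unfold cN
    rw [e1, e2, e3]
    ring
  have hsq : (Real.sqrt (cN u))⁻¹ = sg b * (x i * y j * z k) := by
    rw [hN, Real.sqrt_sq_eq_abs, abs_inv, inv_inv]
    have h3 : |sg b * (x i * y j * z k)| = sg b * (x i * y j * z k) := abs_of_pos hW'
    rw [abs_mul, sg_abs, one_mul] at h3
    exact h3
  ext p
  simp only [cphi, PiLp.smul_apply, tens_apply, smul_eq_mul, hX, hY, hZ, hsq]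
  have h4 := sg_sq b
  field_simp
  rw [pow_two, h4]; ring

/-- the unit decomposable tensors as a submanifold -/
def P5 : Par V5 E5 where
  S := S5
  ι := Fin 2 × Fin 3 × Fin 3 × Bool
  W := cW
  ρ := crho
  φ := cphi
  openW a := by
    apply isOpen_lt continuous_const
    exact continuous_const.mul (contDiff_coord _).continuous
  smoothρ := contDiffOn_crho
  smoothφ := contDiff_cphi
  φS := cphi_mem
  φW := cphi_mem_W
  ρφ := crho_cphi
  φρ := cphi_crho
  cover := by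
    rintro _ ⟨x, y, z, hx, hy, hz, rfl⟩
    have hne : ∀ {n : ℕ} (x : Fin n → ℝ), ∑ i, x i ^ 2 = 1 → ∃ i, x i ≠ 0 := by
      intro n x hx
      by_contra hcon
      push Not at hcon
      simp [hcon] at hx
    obtain ⟨i, hi⟩ := hne x hx
    obtain ⟨j, hj⟩ := hne y hy
    obtain ⟨k, hk⟩ := hne z hz
    have h0 : x i * y j * z k ≠ 0 := mul_ne_zero (mul_ne_zero hi hj) hk
    rcases lt_or_gt_of_ne h0 with h | h
    · refine ⟨(i, j, k, false), ?_⟩
      change 0 < sg false * (x i * y j * z k)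
      simp only [sg, Bool.false_eq_true, if_false]
      linarith
    · refine ⟨(i, j, k, true), ?_⟩
      change 0 < sg true * (x i * y j * z k)
      simp only [sg, if_true]
      linarith

end Pool.Agent.Y451
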