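import Pool.Agent.Y451.Seg
import Pool.Agent.Y451.Emb3

/-! Topology and symmetries of the space of unit decomposable tensors. -/

set_option autoImplicit false

open Set Filter Topology Matrix
open scoped ContDiff

noncomputable section

namespace Pool.Agent.Y451

/-- the manifold -/
abbrev M5 : Type := P5.Mfd

/-- unit vectors -/
def Unit' {n : ℕ} (x : Fin n → ℝ) : Prop := ∑ i, x i ^ 2 = 1

lemma unit_iff {n : ℕ} (x : Fin n → ℝ) : Unit' x ↔ x ⬝ᵥ x = 1 := by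
  unfold Unit' dotProduct
  simp only [pow_two]

lemma mem_S5 {T : V5} : T ∈ S5 ↔ ∃ x y z, Unit' x ∧ Unit' y ∧ Unit' z ∧ T = tens x y z := Iff.rfl

lemma continuous_tens : Continuous (fun q : (Fin 2 → ℝ) × (Fin 3 → ℝ) × (Fin 3 → ℝ) =>
    tens q.1 q.2.1 q.2.2) := by
  apply (PiLp.continuous_toLp 2 _).comp
  fun_prop

/-- the parametrisation by three unit vectors -/
def F5 (q : Metric.sphere (0 : EuclideanSpace ℝ (Fin 2)) 1 ×
    Metric.sphere (0 : EuclideanSpace ℝ (Fin 3)) 1 × Metric.sphere (0 : EuclideanSpace ℝ (Fin 3)) 1) :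
    M5 :=
  P5.pt (tens (WithLp.ofLp q.1.1) (WithLp.ofLp q.2.1.1) (WithLp.ofLp q.2.2.1)) (by
    have h : ∀ {n : ℕ} (v : Metric.sphere (0 : EuclideanSpace ℝ (Fin n)) 1),
        ∑ i, (WithLp.ofLp v.1) i ^ 2 = 1 := by
      intro n v
      have h1 := v.2
      rw [mem_sphere_zero_iff_norm] at h1
      have h2 := EuclideanSpace.norm_sq_eq v.1
      rw [h1] at h2
      simpa using h2.symm
    exact ⟨_, _, _, h _, h _, h _, rfl⟩)

lemma continuous_F5 : Continuous F5 := by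
  apply Continuous.subtype_mk
  have h : Continuous (fun q : Metric.sphere (0 : EuclideanSpace ℝ (Fin 2)) 1 ×
    Metric.sphere (0 : EuclideanSpace ℝ (Fin 3)) 1 ×
    Metric.sphere (0 : EuclideanSpace ℝ (Fin 3)) 1 =>
      ((WithLp.ofLp q.1.1, WithLp.ofLp q.2.1.1, WithLp.ofLp q.2.2.1) :
        (Fin 2 → ℝ) × (Fin 3 → ℝ) × (Fin 3 → ℝ))) := by fun_prop
  exact continuous_tens.comp h

lemma surj_F5 : Function.Surjective F5 := by
  rintro ⟨T, x, y, z, hx, hy, hz, rfl⟩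
  have h : ∀ {n : ℕ} (v : Fin n → ℝ), ∑ i, v i ^ 2 = 1 →
      WithLp.toLp 2 v ∈ Metric.sphere (0 : EuclideanSpace ℝ (Fin n)) 1 := by
    intro n v hv
    rw [mem_sphere_zero_iff_norm]
    have h2 := EuclideanSpace.norm_sq_eq (WithLp.toLp 2 v : EuclideanSpace ℝ (Fin n))
    simp only [Real.norm_eq_abs, sq_abs, hv] at h2
    nlinarith [norm_nonneg (WithLp.toLp 2 v : EuclideanSpace ℝ (Fin n))]
  exact ⟨⟨⟨_, h x hx⟩, ⟨_, h y hy⟩, ⟨_, h z hz⟩⟩, rfl⟩

instance : CompactSpace M5 := Function.Surjective.compactSpace continuous_F5 surj_F5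

instance : ConnectedSpace M5 := by
  have h : ∀ n : ℕ, 1 < n → ConnectedSpace (Metric.sphere (0 : EuclideanSpace ℝ (Fin n)) 1) := by
    intro n hn
    apply isConnected_iff_connectedSpace.1
    apply isConnected_sphere _ _ zero_le_one
    rw [← Module.finrank_eq_rank, finrank_euclideanSpace_fin]
    exact_mod_cast hn
  have h2 := h 2 (by norm_num)
  have h3 := h 3 (by norm_num)
  exact surj_F5.connectedSpace continuous_F5

instance : MetricSpace M5 := P5.mM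

instance : IsRiemannianManifold (modelWithCornersSelf ℝ E5) M5 := P5.isRiem

/-- the linear map on tensors given by three matrices -/
def kr (a : Matrix (Fin 2) (Fin 2) ℝ) (b c : Matrix (Fin 3) (Fin 3) ℝ) : V5 →L[ℝ] V5 :=
  LinearMap.toContinuousLinearMap
    { toFun := fun T => WithLp.toLp 2 (fun p => ∑ q : Fin 2 × Fin 3 × Fin 3,
        a p.1 q.1 * b p.2.1 q.2.1 * c p.2.2 q.2.2 * T q)
      map_add' := by
        intro S T
        ext p
        simp [mul_add, Finset.sum_add_distrib]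
      map_smul' := by
        intro r T
        ext p
        simp only [PiLp.smul_apply, smul_eq_mul, RingHom.id_apply, Finset.mul_sum]
        refine Finset.sum_congr rfl fun q _ => by ring }

lemma kr_apply (a : Matrix (Fin 2) (Fin 2) ℝ) (b c : Matrix (Fin 3) (Fin 3) ℝ) (T : V5)
    (p : Fin 2 × Fin 3 × Fin 3) : kr a b c T p =
      ∑ q : Fin 2 × Fin 3 × Fin 3, a p.1 q.1 * b p.2.1 q.2.1 * c p.2.2 q.2.2 * T q := rfl

lemma kr_tens (a : Matrix (Fin 2) (Fin 2) ℝ) (b c : Matrix (Fin 3) (Fin 3) ℝ) (x : Fin 2 → ℝ)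
    (y z : Fin 3 → ℝ) : kr a b c (tens x y z) = tens (a *ᵥ x) (b *ᵥ y) (c *ᵥ z) := by
  ext p
  rw [kr_apply, tens_apply]
  simp only [tens_apply, Fintype.sum_prod_type, mulVec, dotProduct]
  rw [Finset.sum_mul_sum, Finset.sum_mul]
  refine Finset.sum_congr rfl fun i _ => ?_
  rw [Finset.sum_mul_sum]
  refine Finset.sum_congr rfl fun j _ => ?_
  refine Finset.sum_congr rfl fun k _ => ?_
  ring

lemma kr_kr (a a' : Matrix (Fin 2) (Fin 2) ℝ) (b b' c c' : Matrix (Fin 3) (Fin 3) ℝ) (T : V5) :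
    kr a b c (kr a' b' c' T) = kr (a * a') (b * b') (c * c') T := by
  ext p
  rw [kr_apply, kr_apply]
  simp only [kr_apply, Finset.mul_sum]
  rw [Finset.sum_comm]
  refine Finset.sum_congr rfl fun q _ => ?_
  simp only [Matrix.mul_apply]
  rw [Finset.sum_mul_sum, Finset.sum_mul, Finset.sum_mul, Fintype.sum_prod_type]
  refine Finset.sum_congr rfl fun i _ => ?_
  rw [Finset.sum_mul_sum, Finset.sum_mul, Fintype.sum_prod_type]
  refine Finset.sum_congr rfl fun j _ => ?_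
  rw [Finset.sum_mul]
  refine Finset.sum_congr rfl fun k _ => ?_
  ring

lemma kr_one (T : V5) : kr 1 1 1 T = T := by
  ext p
  rw [kr_apply, Finset.sum_eq_single p]
  · simp
  · intro q _ hq
    have : p.1 ≠ q.1 ∨ p.2.1 ≠ q.2.1 ∨ p.2.2 ≠ q.2.2 := by
      by_contra hcon
      push Not at hcon
      exact hq (Prod.ext hcon.1.symm (Prod.ext hcon.2.1.symm hcon.2.2.symm))
    rcases this with h | h | h
    · rw [Matrix.one_apply_ne h]; ring
    · rw [Matrix.one_apply_ne h]; ring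
    · rw [Matrix.one_apply_ne h]; ring
  · intro h
    exact absurd (Finset.mem_univ p) h

lemma kr_adj (a : Matrix (Fin 2) (Fin 2) ℝ) (b c : Matrix (Fin 3) (Fin 3) ℝ) (S T : V5) :
    inner ℝ (kr a b c S) T = inner ℝ S (kr aᵀ bᵀ cᵀ T) := by
  simp only [PiLp.inner_apply, kr_apply, RCLike.inner_apply, conj_trivial, Finset.sum_mul,
    Finset.mul_sum]
  rw [Finset.sum_comm]
  refine Finset.sum_congr rfl fun q _ => Finset.sum_congr rfl fun p _ => ?_
  simp only [Matrix.transpose_apply]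
  ring

/-- involutions -/
structure Inv3 (a : Matrix (Fin 2) (Fin 2) ℝ) (b c : Matrix (Fin 3) (Fin 3) ℝ) : Prop where
  ta : aᵀ = a
  tb : bᵀ = b
  tc : cᵀ = c
  ia : a * a = 1
  ib : b * b = 1
  ic : c * c = 1

lemma Inv3.inv {a : Matrix (Fin 2) (Fin 2) ℝ} {b c : Matrix (Fin 3) (Fin 3) ℝ} (h : Inv3 a b c)
    (T : V5) : kr a b c (kr a b c T) = T := by
  rw [kr_kr, h.ia, h.ib, h.ic, kr_one]

lemma Inv3.norm {a : Matrix (Fin 2) (Fin 2) ℝ} {b c : Matrix (Fin 3) (Fin 3) ℝ} (h : Inv3 a b c)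
    (T : V5) : ‖kr a b c T‖ = ‖T‖ := by
  have h1 : ‖kr a b c T‖ ^ 2 = ‖T‖ ^ 2 := by
    rw [← real_inner_self_eq_norm_sq, ← real_inner_self_eq_norm_sq, kr_adj, h.ta, h.tb, h.tc, h.inv]
  exact (pow_left_inj₀ (norm_nonneg _) (norm_nonneg _) two_ne_zero).1 h1

lemma unit_mulVec {n : ℕ} {a : Matrix (Fin n) (Fin n) ℝ} (ta : aᵀ = a) (ia : a * a = 1)
    {x : Fin n → ℝ} (hx : Unit' x) : Unit' (a *ᵥ x) := by
  rw [unit_iff] at *
  rw [dotProduct_mulVec, vecMul_mulVec, ta, ia, vecMul_one, hx]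

lemma Inv3.mem {a : Matrix (Fin 2) (Fin 2) ℝ} {b c : Matrix (Fin 3) (Fin 3) ℝ} (h : Inv3 a b c) :
    ∀ T ∈ P5.S, kr a b c T ∈ P5.S := by
  rintro _ ⟨x, y, z, hx, hy, hz, rfl⟩
  rw [kr_tens]
  exact ⟨_, _, _, unit_mulVec h.ta h.ia hx, unit_mulVec h.tb h.ib hy, unit_mulVec h.tc h.ic hz, rfl⟩

/-- the isometric involution of the manifold -/
def Inv3.iso {a : Matrix (Fin 2) (Fin 2) ℝ} {b c : Matrix (Fin 3) (Fin 3) ℝ} (h : Inv3 a b c) :
    M5 ≃ᵢ M5 :=
  P5.iso (kr a b c) h.mem (fun v => (h.norm v).le) (fun v _ => h.inv v)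

@[simp] lemma Inv3.incl_iso {a : Matrix (Fin 2) (Fin 2) ℝ} {b c : Matrix (Fin 3) (Fin 3) ℝ}
    (h : Inv3 a b c) (T : M5) : P5.incl (h.iso T) = kr a b c (P5.incl T) := rfl

lemma Inv3.iso_iso {a : Matrix (Fin 2) (Fin 2) ℝ} {b c : Matrix (Fin 3) (Fin 3) ℝ}
    (h : Inv3 a b c) (T : M5) : h.iso (h.iso T) = T :=
  P5.incl_inj (h.inv _)

/-- points far away in `V` are far away in `M` -/
lemma isolated {T : M5} {C : Set M5} {δ : ℝ} (hδ : 0 < δ)
    (h : ∀ T' ∈ C, T' ≠ T → δ ≤ ‖P5.incl T' - P5.incl T‖) :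
    ∃ ε > 0, ∀ T', dist T' T < ε → T' ∈ C → T' = T := by
  have hc : Continuous (P5.incl) := P5.continuous_incl
  have h1 : ∀ᶠ T' in 𝓝 T, ‖P5.incl T' - P5.incl T‖ < δ := by
    have h2 : ContinuousAt (fun T' => ‖P5.incl T' - P5.incl T‖) T :=
      (hc.sub continuous_const).norm.continuousAt
    apply h2.eventually_lt_const
    simpa using hδ
  obtain ⟨ε, hε, h3⟩ := Metric.eventually_nhds_iff.1 h1
  refine ⟨ε, hε, fun T' hT' hC => ?_⟩
  by_contra hne
  have h4 := h3 hT'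
  have h5 := h T' hC hne
  linarith

end Pool.Agent.Y451
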