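import Pool.Agent.Y451.Seg2
import Pool.Agent.Helper381.Riem3
import Pool.Agent.Helper381.Main

/-! Symmetries and antipodal sets of the space of unit decomposable tensors. -/

set_option autoImplicit false

open Set Filter Topology Matrix
open scoped ContDiff

noncomputable section

namespace Pool.Agent.Y451

open Pool.Agent.Helper381

/-- signs -/
def Sgn (s : ℝ) : Prop := s = 1 ∨ s = -1

lemma Sgn.sq {s : ℝ} (h : Sgn s) : s * s = 1 := by
  rcases h with rfl | rfl <;> norm_num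

lemma unit_ne {n : ℕ} {x : Fin n → ℝ} (h : Unit' x) : ∃ i, x i ≠ 0 := by
  by_contra hcon
  push Not at hcon
  unfold Unit' at h
  simp [hcon] at h

lemma sgn_of_prop {n : ℕ} {x x' : Fin n → ℝ} (h : Unit' x) (h' : Unit' x') {c : ℝ}
    (hc : ∀ i, x' i = c * x i) : Sgn c := by
  unfold Unit' at h h'
  simp only [hc, mul_pow, ← Finset.mul_sum, h, mul_one] at h'
  have : (c - 1) * (c + 1) = 0 := by ring_nf; linarith
  rcases mul_eq_zero.1 this with h1 | h1
  · left; linarith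
  · right; linarith

/-- uniqueness of the factors of a decomposable tensor -/
lemma tens_eq {x x' : Fin 2 → ℝ} {y y' z z' : Fin 3 → ℝ} (hx : Unit' x) (hy : Unit' y)
    (hz : Unit' z) (hx' : Unit' x') (hy' : Unit' y') (hz' : Unit' z')
    (h : tens x y z = tens x' y' z') :
    ∃ r s t : ℝ, Sgn r ∧ Sgn s ∧ Sgn t ∧ r * s * t = 1 ∧ (∀ i, x' i = r * x i) ∧
      (∀ i, y' i = s * y i) ∧ (∀ i, z' i = t * z i) := by
  obtain ⟨i, hi⟩ := unit_ne hx
  obtain ⟨j, hj⟩ := unit_ne hy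
  obtain ⟨k, hk⟩ := unit_ne hz
  have he : ∀ i j k, x i * y j * z k = x' i * y' j * z' k := fun i j k =>
    congrArg (fun T : V5 => T (i, j, k)) h
  have h0 : x' i * y' j * z' k ≠ 0 := by
    rw [← he]; exact mul_ne_zero (mul_ne_zero hi hj) hk
  have hi' : x' i ≠ 0 := by rintro e; simp [e] at h0
  have hj' : y' j ≠ 0 := by rintro e; simp [e] at h0
  have hk' : z' k ≠ 0 := by rintro e; simp [e] at h0
  have ex : ∀ m, x' m = (y j * z k) / (y' j * z' k) * x m := by
    intro m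
    have := he m j k
    field_simp
    linarith
  have ey : ∀ m, y' m = (x i * z k) / (x' i * z' k) * y m := by
    intro m
    have := he i m k
    field_simp
    linarith
  have ez : ∀ m, z' m = (x i * y j) / (x' i * y' j) * z m := by
    intro m
    have := he i j m
    field_simp
    linarith
  refine ⟨_, _, _, sgn_of_prop hx hx' ex, sgn_of_prop hy hy' ey, sgn_of_prop hz hz' ez, ?_,
    ex, ey, ez⟩
  have e1 := ex i
  have e2 := ey j
  have e3 := ez k
  have e4 := he i j k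
  set r := (y j * z k) / (y' j * z' k)
  set s := (x i * z k) / (x' i * z' k)
  set t := (x i * y j) / (x' i * y' j)
  have e5 : (r * s * t) * (x i * y j * z k) = x i * y j * z k := by
    calc (r * s * t) * (x i * y j * z k) = (r * x i) * (s * y j) * (t * z k) := by ring
      _ = x' i * y' j * z' k := by rw [← e1, ← e2, ← e3]
      _ = x i * y j * z k := e4.symm
  have h1 : x i * y j * z k ≠ 0 := mul_ne_zero (mul_ne_zero hi hj) hk
  exact mul_right_cancel₀ h1 (by rw [e5, one_mul])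

/-- reflection fixing `x` -/
def refl {n : ℕ} (x : Fin n → ℝ) : Matrix (Fin n) (Fin n) ℝ := (2 : ℝ) • vecMulVec x x - 1

lemma refl_t {n : ℕ} (x : Fin n → ℝ) : (refl x)ᵀ = refl x := by
  unfold refl
  rw [transpose_sub, transpose_smul, transpose_vecMulVec, transpose_one]

lemma refl_mulVec {n : ℕ} (x v : Fin n → ℝ) : refl x *ᵥ v = (2 * (x ⬝ᵥ v)) • x - v := by
  unfold refl
  rw [sub_mulVec, one_mulVec, smul_mulVec, vecMulVec_mulVec]
  ext i
  simp
  ring

lemma refl_sq {n : ℕ} {x : Fin n → ℝ} (h : Unit' x) : refl x * refl x = 1 := by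
  rw [unit_iff] at h
  have h2 : vecMulVec x x * vecMulVec x x = vecMulVec x x := by
    rw [vecMulVec_mul_vecMulVec, h]
    simp
  unfold refl
  rw [sub_mul, mul_sub, smul_mul_smul_comm, h2, mul_one, one_mul]
  ext i j
  simp
  ring

lemma inv3_refl {x : Fin 2 → ℝ} {y z : Fin 3 → ℝ} (hx : Unit' x) (hy : Unit' y)
    (hz : Unit' z) : Inv3 (refl x) (refl y) (refl z) :=
  ⟨refl_t x, refl_t y, refl_t z, refl_sq hx, refl_sq hy, refl_sq hz⟩

/-- eigenvectors of the reflection -/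
lemma refl_eigen {n : ℕ} {x v : Fin n → ℝ} (hx : Unit' x) (hv : Unit' v) {s : ℝ} (hs : Sgn s)
    (h : ∀ i, (refl x *ᵥ v) i = s * v i) :
    (s = 1 ∧ ∃ t, Sgn t ∧ ∀ i, v i = t * x i) ∨ (s = -1 ∧ x ⬝ᵥ v = 0) := by
  rw [refl_mulVec] at h
  simp only [Pi.sub_apply, Pi.smul_apply, smul_eq_mul] at h
  rcases hs with rfl | rfl
  · left
    refine ⟨rfl, x ⬝ᵥ v, ?_, ?_⟩
    · apply sgn_of_prop hx hv
      intro i
      have := h i
      linarith
    · intro i
      have := h i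
      linarith
  · right
    refine ⟨rfl, ?_⟩
    obtain ⟨i, hi⟩ := unit_ne hx
    have := h i
    have h2 : (x ⬝ᵥ v) * x i = 0 := by linarith
    exact (mul_eq_zero.1 h2).resolve_right hi

/-- factors of a point -/
lemma exists_fac (T : M5) : ∃ q : (Fin 2 → ℝ) × (Fin 3 → ℝ) × (Fin 3 → ℝ), Unit' q.1 ∧ Unit' q.2.1 ∧
    Unit' q.2.2 ∧ P5.incl T = tens q.1 q.2.1 q.2.2 := by
  obtain ⟨x, y, z, hx, hy, hz, h⟩ := P5.incl_mem T
  exact ⟨(x, y, z), hx, hy, hz, h⟩

/-- factors of a point -/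
def fac (T : M5) : (Fin 2 → ℝ) × (Fin 3 → ℝ) × (Fin 3 → ℝ) := (exists_fac T).choose

lemma fac_x (T : M5) : Unit' (fac T).1 := (exists_fac T).choose_spec.1
lemma fac_y (T : M5) : Unit' (fac T).2.1 := (exists_fac T).choose_spec.2.1
lemma fac_z (T : M5) : Unit' (fac T).2.2 := (exists_fac T).choose_spec.2.2.1
lemma fac_eq (T : M5) : P5.incl T = tens (fac T).1 (fac T).2.1 (fac T).2.2 :=
  (exists_fac T).choose_spec.2.2.2

/-- the symmetry at a point -/
def sy (T : M5) : M5 ≃ᵢ M5 := (inv3_refl (fac_x T) (fac_y T) (fac_z T)).iso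

/-- parallel unit vectors -/
def Pl {n : ℕ} (x v : Fin n → ℝ) : Prop := ∃ t, Sgn t ∧ ∀ i, v i = t * x i

lemma not_pl_of_perp {n : ℕ} {x v : Fin n → ℝ} (hx : Unit' x) (h : x ⬝ᵥ v = 0) : ¬ Pl x v := by
  rintro ⟨t, ht, h2⟩
  rw [unit_iff] at hx
  have h3 : x ⬝ᵥ v = t * (x ⬝ᵥ x) := by
    unfold dotProduct
    rw [Finset.mul_sum]
    refine Finset.sum_congr rfl fun i _ => ?_
    rw [h2]; ring
  rw [hx, mul_one] at h3
  rw [h] at h3
  rcases ht with rfl | rfl <;> norm_num at h3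

/-- fixed points of the symmetries: either `T' = ± T` or exactly two of the three factors are
perpendicular. -/
lemma sy_fix {T T' : M5} (h : sy T T' = T') :
    (P5.incl T' = P5.incl T ∨ P5.incl T' = - P5.incl T) ∨
    (Pl (fac T).1 (fac T').1 ∧ (fac T).2.1 ⬝ᵥ (fac T').2.1 = 0 ∧ (fac T).2.2 ⬝ᵥ (fac T').2.2 = 0) ∨
    ((fac T).1 ⬝ᵥ (fac T').1 = 0 ∧ Pl (fac T).2.1 (fac T').2.1 ∧ (fac T).2.2 ⬝ᵥ (fac T').2.2 = 0) ∨
    ((fac T).1 ⬝ᵥ (fac T').1 = 0 ∧ (fac T).2.1 ⬝ᵥ (fac T').2.1 = 0 ∧ Pl (fac T).2.2 (fac T').2.2) := by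
  have h1 : kr (refl (fac T).1) (refl (fac T).2.1) (refl (fac T).2.2) (P5.incl T') = P5.incl T' :=
    congrArg P5.incl h
  have hI := inv3_refl (fac_x T) (fac_y T) (fac_z T)
  rw [fac_eq T', kr_tens] at h1
  obtain ⟨r, s, t, hr, hs, ht, hrst, ex, ey, ez⟩ := tens_eq (fac_x T') (fac_y T') (fac_z T')
    (unit_mulVec hI.ta hI.ia (fac_x T')) (unit_mulVec hI.tb hI.ib (fac_y T'))
    (unit_mulVec hI.tc hI.ic (fac_z T')) h1.symm
  have c1 := refl_eigen (fac_x T) (fac_x T') hr ex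
  have c2 := refl_eigen (fac_y T) (fac_y T') hs ey
  have c3 := refl_eigen (fac_z T) (fac_z T') ht ez
  rcases c1 with ⟨rfl, a1⟩ | ⟨rfl, a1⟩ <;> rcases c2 with ⟨rfl, a2⟩ | ⟨rfl, a2⟩ <;>
    rcases c3 with ⟨rfl, a3⟩ | ⟨rfl, a3⟩ <;> norm_num at hrst
  · left
    obtain ⟨r', hr', er⟩ := a1
    obtain ⟨s', hs', es⟩ := a2
    obtain ⟨t', ht', et⟩ := a3
    have key : ∀ c : ℝ, r' * s' * t' = c → P5.incl T' = c • P5.incl T := by
      intro c hc
      rw [fac_eq T', fac_eq T]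
      ext p
      simp only [tens_apply, PiLp.smul_apply, smul_eq_mul]
      rw [er, es, et, ← hc]
      ring
    have hc : r' * s' * t' = 1 ∨ r' * s' * t' = -1 := by
      rcases hr' with rfl | rfl <;> rcases hs' with rfl | rfl <;> rcases ht' with rfl | rfl <;>
        norm_num
    rcases hc with hc | hc
    · left; rw [key 1 hc, one_smul]
    · right; rw [key (-1) hc, neg_one_smul]
  · right; left; exact ⟨a1, a2, a3⟩
  · right; right; left; exact ⟨a1, a2, a3⟩
  · right; right; right; exact ⟨a1, a2, a3⟩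

lemma sy_self (T : M5) : sy T T = T := by
  apply P5.incl_inj
  have : P5.incl (sy T T) = kr (refl (fac T).1) (refl (fac T).2.1) (refl (fac T).2.2)
    (P5.incl T) := rfl
  have h : ∀ {n : ℕ} {x : Fin n → ℝ}, Unit' x → refl x *ᵥ x = x := by
    intro n x hx
    rw [unit_iff] at hx
    rw [refl_mulVec, hx]
    ext i
    simp
    ring
  rw [this, fac_eq T, kr_tens]
  rw [h (fac_x T), h (fac_y T), h (fac_z T)]

lemma norm_incl (T : M5) : ‖P5.incl T‖ = 1 := by
  have h1 : ‖P5.incl T‖ ^ 2 = 1 := by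
    rw [fac_eq T, EuclideanSpace.norm_sq_eq]
    simp only [tens_apply, Real.norm_eq_abs, sq_abs, mul_pow, Fintype.sum_prod_type]
    have hx := fac_x T
    have hy := fac_y T
    have hz := fac_z T
    unfold Unit' at hx hy hz
    simp only [← Finset.mul_sum, hz, hy, hx, mul_one]
  nlinarith [norm_nonneg (P5.incl T)]

lemma inner_incl (T T' : M5) : inner ℝ (P5.incl T) (P5.incl T') =
    ((fac T).1 ⬝ᵥ (fac T').1) * ((fac T).2.1 ⬝ᵥ (fac T').2.1) * ((fac T).2.2 ⬝ᵥ (fac T').2.2) := by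
  rw [fac_eq T, fac_eq T', PiLp.inner_apply]
  simp only [tens_apply, RCLike.inner_apply, conj_trivial, Fintype.sum_prod_type, dotProduct]
  rw [Finset.sum_mul_sum, Finset.sum_mul]
  refine Finset.sum_congr rfl fun i _ => ?_
  rw [Finset.sum_mul_sum]
  refine Finset.sum_congr rfl fun j _ => ?_
  refine Finset.sum_congr rfl fun k _ => ?_
  ring

lemma one_le_norm_sub {T T' : M5} (h : inner ℝ (P5.incl T) (P5.incl T') ≤ 0) :
    1 ≤ ‖P5.incl T' - P5.incl T‖ := by
  have h1 : ‖P5.incl T' - P5.incl T‖ ^ 2 = 2 - 2 * inner ℝ (P5.incl T) (P5.incl T') := by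
    rw [norm_sub_sq_real, norm_incl, norm_incl, real_inner_comm]
    ring
  by_contra hcon
  push Not at hcon
  nlinarith [norm_nonneg (P5.incl T' - P5.incl T)]

lemma sy_isSymm (T : M5) : IsSymmetryAt T (sy T) := by
  refine ⟨fun y => Inv3.iso_iso _ y, sy_self T, ?_⟩
  obtain ⟨ε, hε, h⟩ := isolated (T := T) (C := {T' | sy T T' = T'}) (δ := 1) one_pos (by
    intro T' hT' hne
    apply one_le_norm_sub
    rcases sy_fix hT' with (h | h) | ⟨_, h, _⟩ | ⟨h, _, _⟩ | ⟨h, _, _⟩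
    · exact absurd (P5.incl_inj h) hne
    · rw [h, inner_neg_right, real_inner_self_eq_norm_sq, norm_incl]
      norm_num
    · rw [inner_incl, h]; simp
    · rw [inner_incl, h]; simp
    · rw [inner_incl, h]; simp)
  exact ⟨ε, hε, fun y hy hfix => h y hy hfix⟩

lemma isSymmetric : IsSymmetric M5 := fun T => ⟨sy T, sy_isSymm T⟩

end Pool.Agent.Y451
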