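import Pool.Agent.Y451.Seg3

/-! The two-number of the space of unit decomposable tensors. -/

set_option autoImplicit false

open Set Filter Topology Matrix
open scoped ContDiff

noncomputable section

namespace Pool.Agent.Y451

open Pool.Agent.Helper381

theorem geo5 : ∃ R, Geo M5 E5 R := riemannian_geo (E := E5) (M := M5)

lemma perp_bound {n m : ℕ} (v : Fin m → (Fin n → ℝ)) (hu : ∀ i, Unit' (v i))
    (ho : ∀ i j, i ≠ j → v i ⬝ᵥ v j = 0) : m ≤ n := by
  let w : Fin m → EuclideanSpace ℝ (Fin n) := fun i => WithLp.toLp 2 (v i)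
  have hi : ∀ i j, inner ℝ (w i) (w j) = v i ⬝ᵥ v j := by
    intro i j
    rw [PiLp.inner_apply]
    simp only [w, RCLike.inner_apply, conj_trivial, dotProduct]
    exact Finset.sum_congr rfl fun k _ => mul_comm _ _
  have how : Orthonormal ℝ w := by
    rw [orthonormal_iff_ite]
    intro i j
    rw [hi]
    split_ifs with h
    · subst h; exact (unit_iff _).1 (hu i)
    · exact ho i j h
  have h := how.linearIndependent.fintype_card_le_finrank
  simpa using h

lemma Pl.symm {n : ℕ} {x v : Fin n → ℝ} (h : Pl x v) : Pl v x := by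
  obtain ⟨t, ht, h⟩ := h
  refine ⟨t, ht, fun i => ?_⟩
  rw [h, ← mul_assoc, ht.sq, one_mul]

lemma Pl.trans {n : ℕ} {x v w : Fin n → ℝ} (h : Pl x v) (h' : Pl v w) : Pl x w := by
  obtain ⟨t, ht, h⟩ := h
  obtain ⟨s, hs, h'⟩ := h'
  refine ⟨s * t, ?_, fun i => ?_⟩
  · rcases ht with rfl | rfl <;> rcases hs with rfl | rfl <;> simp [Sgn]
  · rw [h', h, mul_assoc]

lemma triple (p : Fin 5 → Fin 5 → Prop) (hs : ∀ i j, p i j → p j i)
    (ht : ∀ i j k, p i j → p j k → p i k)
    (h3 : ∀ i j k, i ≠ j → i ≠ k → j ≠ k → ¬ (¬ p i j ∧ ¬ p i k ∧ ¬ p j k)) :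
    ∃ a b c, a ≠ b ∧ a ≠ c ∧ b ≠ c ∧ p a b ∧ p a c ∧ p b c := by
  have h3' : ∀ i j k, i ≠ j → i ≠ k → j ≠ k → ¬ p i j → ¬ p i k → p j k := by
    intro i j k h1 h2 h3'' h4 h5
    by_contra h6
    exact h3 i j k h1 h2 h3'' ⟨h4, h5, h6⟩
  have key1 : ∀ a b : Fin 5, 0 ≠ a → 0 ≠ b → a ≠ b → p 0 a → p 0 b →
      ∃ a b c, a ≠ b ∧ a ≠ c ∧ b ≠ c ∧ p a b ∧ p a c ∧ p b c := fun a b h1 h2 h3 h4 h5 =>
    ⟨0, a, b, h1, h2, h3, h4, h5, ht _ _ _ (hs _ _ h4) h5⟩
  have key2 : ∀ a b c : Fin 5, 0 ≠ a → 0 ≠ b → 0 ≠ c → a ≠ b → a ≠ c → b ≠ c → ¬ p 0 a → ¬ p 0 b →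
      ¬ p 0 c → ∃ a b c, a ≠ b ∧ a ≠ c ∧ b ≠ c ∧ p a b ∧ p a c ∧ p b c :=
    fun a b c h1 h2 h3 h4 h5 h6 h7 h8 h9 => ⟨a, b, c, h4, h5, h6, h3' 0 a b h1 h2 h4 h7 h8,
      h3' 0 a c h1 h3 h5 h7 h9, h3' 0 b c h2 h3 h6 h8 h9⟩
  by_cases h1 : p 0 1 <;> by_cases h2 : p 0 2
  · exact key1 1 2 (by decide) (by decide) (by decide) h1 h2
  · by_cases h3 : p 0 3
    · exact key1 1 3 (by decide) (by decide) (by decide) h1 h3
    · by_cases h4 : p 0 4
      · exact key1 1 4 (by decide) (by decide) (by decide) h1 h4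
      · exact key2 2 3 4 (by decide) (by decide) (by decide) (by decide) (by decide) (by decide)
          h2 h3 h4
  · by_cases h3 : p 0 3
    · exact key1 2 3 (by decide) (by decide) (by decide) h2 h3
    · by_cases h4 : p 0 4
      · exact key1 2 4 (by decide) (by decide) (by decide) h2 h4
      · exact key2 1 3 4 (by decide) (by decide) (by decide) (by decide) (by decide) (by decide)
          h1 h3 h4
  · by_cases h3 : p 0 3
    · by_cases h4 : p 0 4
      · exact key1 3 4 (by decide) (by decide) (by decide) h3 h4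
      · exact key2 1 2 4 (by decide) (by decide) (by decide) (by decide) (by decide) (by decide)
          h1 h2 h4
    · exact key2 1 2 3 (by decide) (by decide) (by decide) (by decide) (by decide) (by decide)
          h1 h2 h3

lemma fourth (a b c : Fin 5) : ∃ d, d ≠ a ∧ d ≠ b ∧ d ≠ c := by
  revert a b c; decide

lemma no_five (T : Fin 5 → M5) (h : ∀ i j, i ≠ j → sy (T i) (T j) = T j)
    (hne : ∀ i j, i ≠ j → P5.incl (T j) ≠ P5.incl (T i) ∧ P5.incl (T j) ≠ - P5.incl (T i)) :
    False := by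
  set x := fun i => (fac (T i)).1 with hxdef
  set y := fun i => (fac (T i)).2.1 with hydef
  set z := fun i => (fac (T i)).2.2 with hzdef
  have hx : ∀ i, Unit' (x i) := fun i => fac_x _
  have hy : ∀ i, Unit' (y i) := fun i => fac_y _
  have hz : ∀ i, Unit' (z i) := fun i => fac_z _
  have tri : ∀ i j, i ≠ j →
      (Pl (x i) (x j) ∧ y i ⬝ᵥ y j = 0 ∧ z i ⬝ᵥ z j = 0) ∨
      (x i ⬝ᵥ x j = 0 ∧ Pl (y i) (y j) ∧ z i ⬝ᵥ z j = 0) ∨
      (x i ⬝ᵥ x j = 0 ∧ y i ⬝ᵥ y j = 0 ∧ Pl (z i) (z j)) := by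
    intro i j hij
    rcases sy_fix (h i j hij) with (h1 | h1) | h1
    · exact absurd h1 (hne i j hij).1
    · exact absurd h1 (hne i j hij).2
    · exact h1
  have px : ∀ i j, i ≠ j → ¬ Pl (x i) (x j) → x i ⬝ᵥ x j = 0 := by
    intro i j hij hn
    rcases tri i j hij with h1 | h1 | h1
    · exact absurd h1.1 hn
    · exact h1.1
    · exact h1.1
  obtain ⟨a, b, c, hab, hac, hbc, pab, pac, pbc⟩ := triple (fun i j => Pl (x i) (x j))
    (fun i j h => h.symm) (fun i j k h h' => h.trans h') (by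
      rintro i j k hij hik hjk ⟨n1, n2, n3⟩
      have e1 := px i j hij n1
      have e2 := px i k hik n2
      have e3 := px j k hjk n3
      have := perp_bound (fun m : Fin 3 => ![x i, x j, x k] m) (by
        intro m; fin_cases m <;> simp [hx]) (by
        intro m m' hm
        fin_cases m <;> fin_cases m' <;>
          simp_all [dotProduct_comm])
      omega)
  obtain ⟨d, hda, hdb, hdc⟩ := fourth a b c
  have yab : y a ⬝ᵥ y b = 0 ∧ z a ⬝ᵥ z b = 0 := by
    rcases tri a b hab with h1 | h1 | h1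
    · exact h1.2
    · exact absurd pab (not_pl_of_perp (hx a) h1.1)
    · exact absurd pab (not_pl_of_perp (hx a) h1.1)
  have yac : y a ⬝ᵥ y c = 0 ∧ z a ⬝ᵥ z c = 0 := by
    rcases tri a c hac with h1 | h1 | h1
    · exact h1.2
    · exact absurd pac (not_pl_of_perp (hx a) h1.1)
    · exact absurd pac (not_pl_of_perp (hx a) h1.1)
  have ybc : y b ⬝ᵥ y c = 0 ∧ z b ⬝ᵥ z c = 0 := by
    rcases tri b c hbc with h1 | h1 | h1
    · exact h1.2
    · exact absurd pbc (not_pl_of_perp (hx b) h1.1)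
    · exact absurd pbc (not_pl_of_perp (hx b) h1.1)
  by_cases hd : Pl (x d) (x a)
  · have get : ∀ e, d ≠ e → Pl (x d) (x e) → y d ⬝ᵥ y e = 0 := by
      intro e hde hp
      rcases tri d e hde with h1 | h1 | h1
      · exact h1.2.1
      · exact absurd hp (not_pl_of_perp (hx d) h1.1)
      · exact absurd hp (not_pl_of_perp (hx d) h1.1)
    have e1 := get a hda hd
    have e2 := get b hdb (hd.trans pab)
    have e3 := get c hdc (hd.trans pac)
    have := perp_bound (fun m : Fin 4 => ![y a, y b, y c, y d] m) (by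
      intro m; fin_cases m <;> simp [hy]) (by
      intro m m' hm
      have f1 := yab.1
      have f2 := yac.1
      have f3 := ybc.1
      fin_cases m <;> fin_cases m' <;>
        simp_all [dotProduct_comm])
    omega
  · have get : ∀ e, d ≠ e → Pl (x e) (x a) → Pl (y d) (y e) ∨ Pl (z d) (z e) := by
      intro e hde hp
      rcases tri d e hde with h1 | h1 | h1
      · exact absurd (h1.1.trans hp) hd
      · left; exact h1.2.1
      · right; exact h1.2.2
    have noy : ∀ e f, Pl (y d) (y e) → Pl (y d) (y f) → y e ⬝ᵥ y f = 0 → False := by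
      intro e f h1 h2 h3
      exact not_pl_of_perp (hy e) h3 (h1.symm.trans h2)
    have noz : ∀ e f, Pl (z d) (z e) → Pl (z d) (z f) → z e ⬝ᵥ z f = 0 → False := by
      intro e f h1 h2 h3
      exact not_pl_of_perp (hz e) h3 (h1.symm.trans h2)
    have ga := get a hda ⟨1, Or.inl rfl, fun i => (one_mul _).symm⟩
    have gb := get b hdb pab.symm
    have gc := get c hdc pac.symm
    rcases ga with ga | ga <;> rcases gb with gb | gb <;> rcases gc with gc | gc
    · exact noy _ _ ga gb yab.1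
    · exact noy _ _ ga gb yab.1
    · exact noy _ _ ga gc yac.1
    · exact noz _ _ gb gc ybc.2
    · exact noy _ _ gb gc ybc.1
    · exact noz _ _ ga gc yac.2
    · exact noz _ _ ga gb yab.2
    · exact noz _ _ ga gb yab.2

lemma antipodal_fix {A : Set M5} (hA : IsAntipodal A) {T T' : M5} (hT : T ∈ A) (hT' : T' ∈ A) :
    sy T T' = T' := by
  obtain ⟨R, G⟩ := geo5
  obtain ⟨s, hs, h⟩ := hA T hT T' hT'
  rw [G.symm_unique (sy_isSymm T) hs, h]

lemma card_le_eight (A : Finset M5) (hA : IsAntipodal (A : Set M5)) : A.card ≤ 8 := by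
  classical
  by_contra hcon
  push Not at hcon
  let g : M5 → (Fin 2 × Fin 3 × Fin 3 → Fin 2 × Fin 3 × Fin 3 → ℝ) := fun T p q =>
    P5.incl T p * P5.incl T q
  have hg : ∀ T T', g T = g T' → P5.incl T' = P5.incl T ∨ P5.incl T' = - P5.incl T := by
    intro T T' h
    have h1 : ∀ p q, P5.incl T p * P5.incl T q = P5.incl T' p * P5.incl T' q := fun p q =>
      congrFun (congrFun h p) q
    obtain ⟨p, hp⟩ : ∃ p, P5.incl T p ≠ 0 := by
      by_contra hc
      push Not at hc
      have h0 : P5.incl T = 0 := by ext p; exact hc p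
      have := norm_incl T
      rw [h0] at this
      simp at this
    have h2 := h1 p p
    rcases mul_self_eq_mul_self_iff.1 h2 with h3 | h3
    · left
      ext q
      have h4 := h1 p q
      rw [← h3] at h4
      exact (mul_left_cancel₀ hp h4).symm
    · right
      ext q
      have h4 := h1 p q
      rw [h3] at h4
      have h5 : P5.incl T' p ≠ 0 := by
        intro h6; rw [h6, neg_zero] at h3; exact hp h3
      have h6 : P5.incl T' p * (-P5.incl T q) = P5.incl T' p * P5.incl T' q := by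
        rw [← h4]; ring
      exact (mul_left_cancel₀ h5 h6).symm
  have hfib : ∀ b ∈ A.image g, (A.filter (fun T => g T = b)).card ≤ 2 := by
    intro b hb
    obtain ⟨T, hT, rfl⟩ := Finset.mem_image.1 hb
    have hsub : (A.filter (fun T' => g T' = g T)).image P5.incl ⊆
        {P5.incl T, - P5.incl T} := by
      intro v hv
      obtain ⟨T', hT', rfl⟩ := Finset.mem_image.1 hv
      rw [Finset.mem_filter] at hT'
      rcases hg T T' hT'.2.symm with h | h
      · rw [h]; simp
      · rw [h]; simp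
    rw [← Finset.card_image_of_injective _ P5.incl_inj]
    exact (Finset.card_le_card hsub).trans Finset.card_le_two
  have h5 : 5 ≤ (A.image g).card := by
    have := Finset.card_le_mul_card_image A 2 hfib
    omega
  obtain ⟨B, hB, hBc⟩ := Finset.exists_subset_card_eq h5
  let e := (B.equivFinOfCardEq hBc).symm
  have hex : ∀ i : Fin 5, ∃ T ∈ A, g T = (e i : _) := by
    intro i
    exact Finset.mem_image.1 (hB (e i).2)
  choose T hTA hTg using hex
  apply no_five T
  · intro i j _
    exact antipodal_fix hA (hTA i) (hTA j)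
  · intro i j hij
    have hgne : g (T j) ≠ g (T i) := by
      rw [hTg, hTg]
      intro h
      exact hij (e.injective (Subtype.ext h)).symm
    constructor
    · intro h; apply hgne; funext p q; simp only [g, h]
    · intro h; apply hgne; funext p q; simp only [g, h, PiLp.neg_apply]; ring

theorem twoNumber_le : twoNumber M5 ≤ 8 := by
  apply iSup_le
  rintro ⟨A, hA⟩
  by_contra hcon
  push Not at hcon
  have h9 : (9 : ℕ∞) ≤ A.encard := by
    have := Order.add_one_le_of_lt hcon
    exact this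
  obtain ⟨B, hBA, hB⟩ := Set.exists_subset_encard_eq h9
  have hfin : B.Finite := Set.finite_of_encard_eq_coe (k := 9) (by simpa using hB)
  have h1 := card_le_eight hfin.toFinset (by
    intro x hx y hy
    simp only [Finite.coe_toFinset] at hx hy
    exact hA x (hBA hx) y (hBA hy))
  have h2 : B.encard = hfin.toFinset.card := hfin.encard_eq_coe_toFinset_card
  rw [hB] at h2
  have h3 : (9 : ℕ) = hfin.toFinset.card := by exact_mod_cast h2
  omega

end Pool.Agent.Y451
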