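import Pool.Agent.Helper381.Main

/-! Isolated common fixed points of commuting isometric involutions. -/

set_option autoImplicit false

namespace Pool.Agent.Y451

universe u v w

open Metric Set Module Pool.Agent.Helper381

variable {M : Type u} {E : Type v} [MetricSpace M] [NormedAddCommGroup E] [NormedSpace ℝ E]
  {R : ℝ}

/-- A finite set of isolated common fixed points of commuting isometric involutions has at most
`dim H^*(M; F_2)` elements (a Smith inequality). -/
theorem card_le_of_fixed (G : Geo M E R) [CompactSpace M] [PreconnectedSpace M] [Nonempty M]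
    (gs : List (M ≃ᵢ M)) (hinv : ∀ g ∈ gs, ∀ x, g (g x) = x)
    (hcomm : ∀ g ∈ gs, ∀ h ∈ gs, ∀ x, g (h x) = h (g x))
    (A : Finset M) (hfix : ∀ g ∈ gs, ∀ a ∈ A, g a = a)
    (hiso' : ∀ a ∈ A, ∃ δ > 0, ∀ y, dist y a < δ → (∀ g ∈ gs, g y = y) → y = a) :
    (A.card : ℕ∞) ≤ totalBetti (ZMod 2) M := by
  classical
  have : Fact (Nat.Prime 2) := ⟨Nat.prime_two⟩
  have hR := G.Rpos
  -- uniform isolation
  obtain ⟨R', hR'0, hR'R, hiso⟩ : ∃ R' > 0, R' ≤ R ∧
      ∀ a ∈ A, ∀ y, dist y a < R' → (∀ g ∈ gs, g y = y) → y = a := by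
    clear hfix
    induction A using Finset.induction_on with
    | empty => exact ⟨R, hR, le_rfl, by simp⟩
    | insert b B hb ih =>
      obtain ⟨R1, h1, h2, h3⟩ := ih (fun a ha => hiso' a (Finset.mem_insert_of_mem ha))
      obtain ⟨δ, h4, h5⟩ := hiso' b (Finset.mem_insert_self _ _)
      refine ⟨min R1 δ, lt_min h1 h4, (min_le_left _ _).trans h2, ?_⟩
      intro a ha y hy hg
      rcases Finset.mem_insert.1 ha with rfl | ha
      · exact h5 y (hy.trans_le (min_le_right _ _)) hg
      · exact h3 a ha y (hy.trans_le (min_le_left _ _)) hg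
  obtain ⟨F, hF, hFg⟩ := exists_net (M := M) gs hinv hcomm (R' / 4) (by linarith)
  have hρR : 4 * (R' / 4) ≤ R := by linarith
  set ρ := R' / 4 with hρ
  have hQ := Fam_finite F ρ
  obtain ⟨a1, N1, b1⟩ := G.betti_finite (ZMod 2)
  set N := max (N1) (max (Fam F ρ).ncard 1) with hN
  have hN1 : N1 ≤ N := le_max_left _ _
  have hN2 : (Fam F ρ).ncard ≤ N := le_trans (le_max_left _ _) (le_max_right _ _)
  have hN3 : 1 ≤ N := le_trans (le_max_right _ _) (le_max_right _ _)
  rw [totalBetti_eq N a1 (fun n hn => b1 n (hN1.trans hn)), Nat.cast_le]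
  have e1 : ∀ n, finrank (ZMod 2) (SingCoh (ZMod 2) M n) =
      finrank (ZMod 2) (OrdCoh (ZMod 2) (Fam F ρ) n) := by
    intro n
    obtain ⟨e⟩ := G.nerve hρR hF (ZMod 2) n
    exact LinearEquiv.finrank_eq e
  simp only [e1]
  have hgood := goodList F ρ gs hinv hcomm hFg
  have h1 := smith_list hQ (gs.map imS) hgood N hN2
  refine le_trans ?_ h1
  have h2 : finrank (ZMod 2) (OrdCoh (ZMod 2) (fixS (Fam F ρ) (gs.map imS)) 0) ≤
      ∑ n ∈ Finset.range N,
        finrank (ZMod 2) (OrdCoh (ZMod 2) (fixS (Fam F ρ) (gs.map imS)) n) :=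
    Finset.single_le_sum (f := fun n =>
      finrank (ZMod 2) (OrdCoh (ZMod 2) (fixS (Fam F ρ) (gs.map imS)) n))
      (fun _ _ => Nat.zero_le _) (Finset.mem_range.mpr hN3)
  refine le_trans ?_ h2
  have h3 := components_le (Q := fixS (Fam F ρ) (gs.map imS))
    (hQ.subset (fixS_subset _ _)) (ι := A) (fun a => Jm F ρ {a.1})
    (fun a => Jm_fixS F ρ hF gs hinv hFg a.1 (fun g hg => hfix g hg a.1 a.2))
    (fun a C => if a.1 ∈ C then 1 else 0) ?_ ?_
  · rwa [Fintype.card_coe] at h3
  · intro a C hC C' hC' hle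
    have key : a.1 ∈ C' → a.1 ∈ C := by
      intro haC'
      obtain ⟨hCF, hCg⟩ := (mem_fixS F ρ gs C).mp hC
      obtain ⟨y, hyC, hy⟩ := G.fam_fixed hρR hCF
      have hyg : ∀ g ∈ gs, g y = y := fun g hg =>
        hy g (net_iff F g (hinv g hg) (hFg g hg)) (hCg g hg)
      have hd := Fam_dist ((mem_fixS F ρ gs C').mp hC').1 (hle hyC) haC'
      have := hiso a.1 a.2 y (by linarith) hyg
      rw [← this]; exact hyC
    by_cases h : a.1 ∈ C
    · have h' : a.1 ∈ C' := hle h
      simp [h, h']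
    · have h' : a.1 ∉ C' := fun h' => h (key h')
      simp [h, h']
  · intro a b
    by_cases hab : a = b
    · subst hab
      have : a.1 ∈ Jm F ρ {a.1} := subset_Jm F ρ _ rfl
      simp [this]
    · have : a.1 ∉ Jm F ρ {b.1} := by
        intro h
        apply hab
        apply Subtype.ext
        have hJ := Jm_fixS F ρ hF gs hinv hFg b.1 (fun g hg => hfix g hg b.1 b.2)
        have hd := Fam_dist ((mem_fixS F ρ gs _).mp hJ).1 h
          (subset_Jm F ρ _ (rfl : b.1 ∈ ({b.1} : Set M)))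
        exact hiso b.1 b.2 a.1 (by linarith) (fun g hg => hfix g hg a.1 a.2)
      simp [this, hab]

end Pool.Agent.Y451
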