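import Pool.Agent.Y451.Seg4
import Pool.Agent.Y451.SmithFix

/-! Ten isolated common fixed points of two commuting isometric involutions. -/

set_option autoImplicit false

open Set Filter Topology Matrix
open scoped ContDiff

noncomputable section

namespace Pool.Agent.Y451

open Pool.Agent.Helper381

/-- signs -/
def s1 : Fin 2 → ℝ := ![1, -1]
/-- signs -/
def s2 : Fin 3 → ℝ := ![1, -1, 1]
/-- signs -/
def s3 : Fin 3 → ℝ := ![1, 1, -1]

lemma kr_diag (a : Fin 2 → ℝ) (b c : Fin 3 → ℝ) (T : V5) (p : Fin 2 × Fin 3 × Fin 3) :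
    kr (diagonal a) (diagonal b) (diagonal c) T p = a p.1 * b p.2.1 * c p.2.2 * T p := by
  rw [kr_apply, Finset.sum_eq_single p]
  · simp
  · intro q _ hq
    have : p.1 ≠ q.1 ∨ p.2.1 ≠ q.2.1 ∨ p.2.2 ≠ q.2.2 := by
      by_contra hcon
      push Not at hcon
      exact hq (Prod.ext hcon.1.symm (Prod.ext hcon.2.1.symm hcon.2.2.symm))
    rcases this with h | h | h
    · rw [Matrix.diagonal_apply_ne _ h]; ring
    · rw [Matrix.diagonal_apply_ne _ h]; ring
    · rw [Matrix.diagonal_apply_ne _ h]; ring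
  · intro h
    exact absurd (Finset.mem_univ p) h

lemma diag_sq {n : ℕ} (a : Fin n → ℝ) (h : ∀ i, a i * a i = 1) :
    diagonal a * diagonal a = 1 := by
  rw [diagonal_mul_diagonal]
  ext i j
  by_cases hij : i = j
  · subst hij; simp [h]
  · simp [hij]

lemma inv_g1 : Inv3 (diagonal s1) (diagonal s2) (diagonal s2) where
  ta := diagonal_transpose _
  tb := diagonal_transpose _
  tc := diagonal_transpose _
  ia := diag_sq _ (by intro i; fin_cases i <;> simp [s1])
  ib := diag_sq _ (by intro i; fin_cases i <;> simp [s2])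
  ic := diag_sq _ (by intro i; fin_cases i <;> simp [s2])

lemma inv_g2 : Inv3 (diagonal 1) (diagonal s3) (diagonal s3) where
  ta := diagonal_transpose _
  tb := diagonal_transpose _
  tc := diagonal_transpose _
  ia := diag_sq _ (by intro i; simp)
  ib := diag_sq _ (by intro i; fin_cases i <;> simp [s3])
  ic := diag_sq _ (by intro i; fin_cases i <;> simp [s3])

/-- first involution -/
def g1 : M5 ≃ᵢ M5 := inv_g1.iso
/-- second involution -/
def g2 : M5 ≃ᵢ M5 := inv_g2.iso

/-- the five positions -/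
def tr : Fin 5 → Fin 2 × Fin 3 × Fin 3 := ![(0, 0, 0), (0, 1, 1), (1, 0, 1), (1, 1, 0), (0, 2, 2)]

lemma off (i : Fin 2) (j k : Fin 3) (h : ∀ m, tr m ≠ (i, j, k)) :
    s1 i * s2 j * s2 k = -1 ∨ s3 j * s3 k = -1 := by
  have h' : ∀ m, ¬ tr m = (i, j, k) := h
  fin_cases i <;> fin_cases j <;> fin_cases k
  all_goals first
    | exact absurd rfl (h' 0)
    | exact absurd rfl (h' 1)
    | exact absurd rfl (h' 2)
    | exact absurd rfl (h' 3)
    | exact absurd rfl (h' 4)
    | (left; norm_num [s1, s2]; done)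
    | (right; norm_num [s3]; done)

/-- the ten points -/
def vp (m : Fin 5) (b : Bool) : V5 := WithLp.toLp 2 fun p => if p = tr m then sg b else 0

lemma unit_single {n : ℕ} (i : Fin n) (c : ℝ) (hc : c * c = 1) :
    Unit' (fun m => if m = i then c else 0) := by
  unfold Unit'
  simp only [ite_pow, pow_two, hc]
  simp

lemma vp_mem (m : Fin 5) (b : Bool) : vp m b ∈ S5 := by
  refine ⟨_, _, _, unit_single (tr m).1 (sg b) (sg_sq b), unit_single (tr m).2.1 1 (by norm_num),
    unit_single (tr m).2.2 1 (by norm_num), ?_⟩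
  ext p
  simp only [vp, tens_apply]
  by_cases h : p = tr m
  · subst h; simp
  · rw [if_neg h]
    have : p.1 ≠ (tr m).1 ∨ p.2.1 ≠ (tr m).2.1 ∨ p.2.2 ≠ (tr m).2.2 := by
      by_contra hcon
      push Not at hcon
      exact h (Prod.ext hcon.1 (Prod.ext hcon.2.1 hcon.2.2))
    rcases this with h | h | h
    · simp [h]
    · simp [h]
    · simp [h]

/-- the ten points -/
def fp (m : Fin 5) (b : Bool) : M5 := P5.pt (vp m b) (vp_mem m b)

lemma tr_inj : Function.Injective tr := by decide

lemma fp_fix1 (m : Fin 5) (b : Bool) : g1 (fp m b) = fp m b := by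
  apply P5.incl_inj
  change kr (diagonal s1) (diagonal s2) (diagonal s2) (vp m b) = vp m b
  ext p
  rw [kr_diag]
  by_cases h : p = tr m
  · subst h
    have : s1 (tr m).1 * s2 (tr m).2.1 * s2 (tr m).2.2 = 1 := by
      fin_cases m <;> simp [tr, s1, s2]
    rw [this, one_mul]
  · simp [vp, h]

lemma fp_fix2 (m : Fin 5) (b : Bool) : g2 (fp m b) = fp m b := by
  apply P5.incl_inj
  change kr (diagonal 1) (diagonal s3) (diagonal s3) (vp m b) = vp m b
  ext p
  rw [kr_diag]
  by_cases h : p = tr m
  · subst h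
    have : (1 : Fin 2 → ℝ) (tr m).1 * s3 (tr m).2.1 * s3 (tr m).2.2 = 1 := by
      fin_cases m <;> simp [tr, s3]
    rw [this, one_mul]
  · simp [vp, h]

lemma far_i (m : Fin 5) (i : Fin 2) (h : i ≠ (tr m).1) :
    ∀ m', tr m' ≠ (i, (tr m).2.1, (tr m).2.2) := by
  revert m i; decide

lemma far_j (m : Fin 5) (j : Fin 3) (h : j ≠ (tr m).2.1) :
    ∀ m', tr m' ≠ ((tr m).1, j, (tr m).2.2) := by
  revert m j; decide

lemma far_k (m : Fin 5) (k : Fin 3) (h : k ≠ (tr m).2.2) :
    ∀ m', tr m' ≠ ((tr m).1, (tr m).2.1, k) := by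
  revert m k; decide

lemma sgn_of_single {n : ℕ} {x : Fin n → ℝ} (hx : Unit' x) (i : Fin n) (h : ∀ m, m ≠ i → x m = 0) :
    Sgn (x i) := by
  unfold Unit' at hx
  rw [Finset.sum_eq_single i (fun m _ hm => by rw [h m hm]; norm_num)
    (fun h => absurd (Finset.mem_univ i) h)] at hx
  have : (x i - 1) * (x i + 1) = 0 := by ring_nf; linarith
  rcases mul_eq_zero.1 this with h1 | h1
  · left; linarith
  · right; linarith

lemma fixed_eq {T : M5} (h1 : g1 T = T) (h2 : g2 T = T) : ∃ m b, T = fp m b := by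
  have e1 : kr (diagonal s1) (diagonal s2) (diagonal s2) (P5.incl T) = P5.incl T :=
    congrArg P5.incl h1
  have e2 : kr (diagonal 1) (diagonal s3) (diagonal s3) (P5.incl T) = P5.incl T :=
    congrArg P5.incl h2
  set x := (fac T).1 with hx
  set y := (fac T).2.1 with hy
  set z := (fac T).2.2 with hz
  have hT : ∀ i j k, P5.incl T (i, j, k) = x i * y j * z k := by
    intro i j k
    rw [fac_eq T]; rfl
  have hoff : ∀ i j k, (∀ m, tr m ≠ (i, j, k)) → x i * y j * z k = 0 := by
    intro i j k h
    have f1 := congrArg (fun S : V5 => S (i, j, k)) e1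
    have f2 := congrArg (fun S : V5 => S (i, j, k)) e2
    simp only [kr_diag, hT] at f1 f2
    rcases off i j k h with h3 | h3
    · rw [h3] at f1; linarith
    · rw [Pi.one_apply, one_mul, h3] at f2; linarith
  have ux : Unit' x := fac_x T
  have uy : Unit' y := fac_y T
  have uz : Unit' z := fac_z T
  obtain ⟨i, hi⟩ := unit_ne ux
  obtain ⟨j, hj⟩ := unit_ne uy
  obtain ⟨k, hk⟩ := unit_ne uz
  obtain ⟨m, hm⟩ : ∃ m, tr m = (i, j, k) := by
    by_contra hcon
    push Not at hcon
    exact mul_ne_zero (mul_ne_zero hi hj) hk (hoff i j k hcon)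
  have ei : (tr m).1 = i := by rw [hm]
  have ej : (tr m).2.1 = j := by rw [hm]
  have ek : (tr m).2.2 = k := by rw [hm]
  have x0 : ∀ l, l ≠ i → x l = 0 := by
    intro l hl
    have h3 := hoff l j k (by
      have := far_i m l (by rw [ei]; exact hl)
      rwa [ej, ek] at this)
    by_contra h4
    exact mul_ne_zero (mul_ne_zero h4 hj) hk h3
  have y0 : ∀ l, l ≠ j → y l = 0 := by
    intro l hl
    have h3 := hoff i l k (by
      have := far_j m l (by rw [ej]; exact hl)
      rwa [ei, ek] at this)
    by_contra h4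
    exact mul_ne_zero (mul_ne_zero hi h4) hk h3
  have z0 : ∀ l, l ≠ k → z l = 0 := by
    intro l hl
    have h3 := hoff i j l (by
      have := far_k m l (by rw [ek]; exact hl)
      rwa [ei, ej] at this)
    by_contra h4
    exact mul_ne_zero (mul_ne_zero hi hj) h4 h3
  have sx := sgn_of_single ux i x0
  have sy := sgn_of_single uy j y0
  have sz := sgn_of_single uz k z0
  have hb : ∃ b, sg b = x i * y j * z k := by
    have hc : x i * y j * z k = 1 ∨ x i * y j * z k = -1 := by
      rcases sx with h3 | h3 <;> rcases sy with h4 | h4 <;> rcases sz with h5 | h5 <;>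
        rw [h3, h4, h5] <;> norm_num
    rcases hc with hc | hc
    · exact ⟨true, by rw [hc]; simp [sg]⟩
    · exact ⟨false, by rw [hc]; simp [sg]⟩
  obtain ⟨b, hb⟩ := hb
  refine ⟨m, b, P5.incl_inj ?_⟩
  ext ⟨i', j', k'⟩
  rw [hT]
  change _ = if (i', j', k') = tr m then sg b else 0
  by_cases h : (i', j', k') = tr m
  · rw [if_pos h, hb]
    rw [hm] at h
    simp only [Prod.mk.injEq] at h
    rw [h.1, h.2.1, h.2.2]
  · rw [if_neg h]
    rw [hm] at h
    have : i' ≠ i ∨ j' ≠ j ∨ k' ≠ k := by
      by_contra hcon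
      push Not at hcon
      exact h (by rw [hcon.1, hcon.2.1, hcon.2.2])
    rcases this with h | h | h
    · rw [x0 _ h]; ring
    · rw [y0 _ h]; ring
    · rw [z0 _ h]; ring

lemma fp_inj : Function.Injective (fun q : Fin 5 × Bool => fp q.1 q.2) := by
  rintro ⟨m, b⟩ ⟨m', b'⟩ h
  have h1 : ∀ p, vp m b p = vp m' b' p := fun p => congrArg (fun T : M5 => P5.incl T p) h
  have h2 : m = m' := by
    by_contra hne
    have h3 := h1 (tr m)
    have h4 : ¬ tr m = tr m' := fun h => hne (tr_inj h)
    simp only [vp, if_true, if_neg h4] at h3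
    exact sg_ne b h3
  subst h2
  have h3 := h1 (tr m)
  simp only [vp, if_true] at h3
  have h4 : b = b' := by
    cases b <;> cases b' <;> simp [sg] at h3 ⊢ <;> norm_num at h3
  rw [h4]

lemma fp_inner {m m' : Fin 5} {b b' : Bool} (h : fp m' b' ≠ fp m b) :
    inner ℝ (P5.incl (fp m b)) (P5.incl (fp m' b')) ≤ 0 := by
  change inner ℝ (vp m b) (vp m' b') ≤ 0
  rw [PiLp.inner_apply]
  simp only [vp, RCLike.inner_apply, conj_trivial]
  by_cases hm : m = m'
  · subst hm
    have hb : b ≠ b' := by rintro rfl; exact h rfl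
    rw [Finset.sum_eq_single (tr m)]
    · cases b <;> cases b' <;> simp [sg] at hb ⊢
    · intro p _ hp; simp [hp]
    · intro h; exact absurd (Finset.mem_univ _) h
  · apply le_of_eq
    apply Finset.sum_eq_zero
    intro p _
    by_cases h1 : p = tr m
    · have h2 : ¬ p = tr m' := by
        intro h2; rw [h1] at h2; exact hm (tr_inj h2)
      simp [h2]
    · simp [h1]

theorem ten_le : (10 : ℕ∞) ≤ totalBetti (ZMod 2) M5 := by
  classical
  obtain ⟨R, G⟩ := geo5
  have h := card_le_of_fixed G [g1, g2] (by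
      intro g hg x
      simp only [List.mem_cons, List.not_mem_nil, or_false] at hg
      rcases hg with rfl | rfl
      · exact Inv3.iso_iso _ x
      · exact Inv3.iso_iso _ x) (by
      have hc : ∀ x, g1 (g2 x) = g2 (g1 x) := by
        intro x
        apply P5.incl_inj
        change kr (diagonal s1) (diagonal s2) (diagonal s2)
          (kr (diagonal 1) (diagonal s3) (diagonal s3) (P5.incl x)) =
          kr (diagonal 1) (diagonal s3) (diagonal s3)
          (kr (diagonal s1) (diagonal s2) (diagonal s2) (P5.incl x))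
        ext p
        simp only [kr_diag]
        ring
      intro g hg h hh x
      simp only [List.mem_cons, List.not_mem_nil, or_false] at hg hh
      rcases hg with rfl | rfl <;> rcases hh with rfl | rfl
      · rfl
      · exact hc x
      · exact (hc x).symm
      · rfl)
    (Finset.univ.image (fun q : Fin 5 × Bool => fp q.1 q.2)) (by
      intro g hg a ha
      obtain ⟨⟨m, b⟩, _, rfl⟩ := Finset.mem_image.1 ha
      simp only [List.mem_cons, List.not_mem_nil, or_false] at hg
      rcases hg with rfl | rfl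
      · exact fp_fix1 m b
      · exact fp_fix2 m b) (by
      intro a ha
      obtain ⟨⟨m, b⟩, _, rfl⟩ := Finset.mem_image.1 ha
      obtain ⟨ε, hε, h⟩ := isolated (T := fp m b) (C := {T | g1 T = T ∧ g2 T = T}) (δ := 1)
        one_pos (by
          rintro T' ⟨h1, h2⟩ hne
          obtain ⟨m', b', rfl⟩ := fixed_eq h1 h2
          exact one_le_norm_sub (fp_inner hne))
      refine ⟨ε, hε, fun y hy hg => h y hy ⟨hg g1 (by simp), hg g2 (by simp)⟩⟩)
  rw [Finset.card_image_of_injective _ fp_inj] at h
  simpa using h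

end Pool.Agent.Y451
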