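import Pool.Agent.Y451.Seg5

/-! An antipodal set of eight elements; the two-number is exactly eight. -/

set_option autoImplicit false

open Set Filter Topology Matrix
open scoped ContDiff

noncomputable section

namespace Pool.Agent.Y451

open Pool.Agent.Helper381

lemma refl_smul {n : ℕ} (x : Fin n → ℝ) {t : ℝ} (ht : Sgn t) {x' : Fin n → ℝ}
    (h : ∀ i, x' i = t * x i) : refl x' = refl x := by
  have : x' = t • x := by funext i; rw [h]; rfl
  unfold refl
  rw [this]
  ext i j
  simp only [Matrix.sub_apply, Matrix.smul_apply, vecMulVec_apply, Pi.smul_apply, smul_eq_mul]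
  have := ht.sq
  linear_combination (2 * x i * x j) * this

lemma incl_sy {T : M5} {x : Fin 2 → ℝ} {y z : Fin 3 → ℝ} (hx : Unit' x) (hy : Unit' y)
    (hz : Unit' z) (hT : P5.incl T = tens x y z) (T' : M5) :
    P5.incl (sy T T') = kr (refl x) (refl y) (refl z) (P5.incl T') := by
  have h0 : P5.incl (sy T T') = kr (refl (fac T).1) (refl (fac T).2.1) (refl (fac T).2.2)
    (P5.incl T') := rfl
  obtain ⟨r, s, t, hr, hs, ht, _, ex, ey, ez⟩ := tens_eq hx hy hz (fac_x T) (fac_y T) (fac_z T)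
    (hT.symm.trans (fac_eq T))
  rw [h0, refl_smul x hr ex, refl_smul y hs ey, refl_smul z ht ez]

/-- the eight triples -/
def t8 : Fin 4 → Fin 2 × Fin 3 × Fin 3 := ![(0, 0, 0), (0, 1, 1), (1, 0, 1), (1, 1, 0)]

lemma t8_inj : Function.Injective t8 := by decide

/-- unit coordinate vector with a sign -/
def uv (n : ℕ) (i : Fin n) (c : ℝ) : Fin n → ℝ := fun m => if m = i then c else 0

lemma unit_uv {n : ℕ} (i : Fin n) {c : ℝ} (hc : c * c = 1) : Unit' (uv n i c) :=
  unit_single i c hc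

lemma refl_uv {n : ℕ} (i j : Fin n) {c d : ℝ} (hc : c * c = 1) :
    refl (uv n i c) *ᵥ (uv n j d) = (if i = j then (1 : ℝ) else -1) • uv n j d := by
  rw [refl_mulVec]
  have h : uv n i c ⬝ᵥ uv n j d = if i = j then c * d else 0 := by
    unfold dotProduct uv
    rw [Finset.sum_eq_single i]
    · by_cases h : i = j
      · simp [h]
      · simp [h]
    · intro m _ hm; simp [hm]
    · intro h; exact absurd (Finset.mem_univ _) h
  rw [h]
  by_cases hij : i = j
  · subst hij
    rw [if_pos rfl, if_pos rfl]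
    funext m
    simp only [uv, Pi.sub_apply, Pi.smul_apply, smul_eq_mul]
    by_cases hm : m = i
    · simp only [hm, if_true]; linear_combination (2 * d) * hc
    · simp [hm]
  · rw [if_neg hij, if_neg hij]
    funext m
    simp

/-- the eight points -/
def w8 (m : Fin 4) (b : Bool) : V5 :=
  tens (uv 2 (t8 m).1 (sg b)) (uv 3 (t8 m).2.1 1) (uv 3 (t8 m).2.2 1)

lemma w8_mem (m : Fin 4) (b : Bool) : w8 m b ∈ S5 :=
  ⟨_, _, _, unit_uv _ (sg_sq b), unit_uv _ (by norm_num), unit_uv _ (by norm_num), rfl⟩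

/-- the eight points -/
def p8 (q : Fin 4 × Bool) : M5 := P5.pt (w8 q.1 q.2) (w8_mem q.1 q.2)

lemma w8_apply (m : Fin 4) (b : Bool) (p : Fin 2 × Fin 3 × Fin 3) :
    w8 m b p = if p = t8 m then sg b else 0 := by
  simp only [w8, tens_apply, uv]
  by_cases h : p = t8 m
  · subst h; simp
  · rw [if_neg h]
    have : p.1 ≠ (t8 m).1 ∨ p.2.1 ≠ (t8 m).2.1 ∨ p.2.2 ≠ (t8 m).2.2 := by
      by_contra hcon
      push Not at hcon
      exact h (Prod.ext hcon.1 (Prod.ext hcon.2.1 hcon.2.2))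
    rcases this with h | h | h
    · simp [h]
    · simp [h]
    · simp [h]

lemma p8_inj : Function.Injective p8 := by
  rintro ⟨m, b⟩ ⟨m', b'⟩ h
  have h1 : ∀ p, w8 m b p = w8 m' b' p := fun p => congrArg (fun T : M5 => P5.incl T p) h
  simp only [w8_apply] at h1
  have h2 : m = m' := by
    by_contra hne
    have h3 := h1 (t8 m)
    have h4 : ¬ t8 m = t8 m' := fun h => hne (t8_inj h)
    simp only [if_true, if_neg h4] at h3
    exact sg_ne b h3
  subst h2
  have h3 := h1 (t8 m)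
  simp only [if_true] at h3
  have h4 : b = b' := by
    cases b <;> cases b' <;> simp [sg] at h3 ⊢ <;> norm_num at h3
  rw [h4]

lemma t8_sign (m m' : Fin 4) :
    ((if (t8 m).1 = (t8 m').1 then (1 : ℤ) else -1) * (if (t8 m).2.1 = (t8 m').2.1 then (1 : ℤ) else -1) *
      (if (t8 m).2.2 = (t8 m').2.2 then (1 : ℤ) else -1)) = 1 := by
  revert m m'; decide

lemma tens_smul (x : Fin 2 → ℝ) (y z : Fin 3 → ℝ) (a b c : ℝ) :
    tens (a • x) (b • y) (c • z) = (a * b * c) • tens x y z := by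
  ext p
  simp only [tens_apply, PiLp.smul_apply, Pi.smul_apply, smul_eq_mul]
  ring

lemma sy_p8 (q q' : Fin 4 × Bool) : sy (p8 q) (p8 q') = p8 q' := by
  apply P5.incl_inj
  rw [incl_sy (T := p8 q) (unit_uv _ (sg_sq q.2)) (unit_uv _ (by norm_num)) (unit_uv _ (by norm_num)) rfl]
  change kr _ _ _ (w8 q'.1 q'.2) = w8 q'.1 q'.2
  unfold w8
  rw [kr_tens, refl_uv _ _ (sg_sq q.2), refl_uv _ _ (by norm_num), refl_uv _ _ (by norm_num),
    tens_smul]
  have h := t8_sign q.1 q'.1
  have h' : ((if (t8 q.1).1 = (t8 q'.1).1 then (1 : ℝ) else -1) *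
      (if (t8 q.1).2.1 = (t8 q'.1).2.1 then (1 : ℝ) else -1) *
      (if (t8 q.1).2.2 = (t8 q'.1).2.2 then (1 : ℝ) else -1)) = 1 := by
    have := congrArg (Int.cast : ℤ → ℝ) h
    push_cast at this
    exact this
  rw [h', one_smul]

theorem le_twoNumber : (8 : ℕ∞) ≤ twoNumber M5 := by
  have hA : IsAntipodal (Set.range p8) := by
    rintro _ ⟨q, rfl⟩ _ ⟨q', rfl⟩
    exact ⟨sy (p8 q), sy_isSymm _, sy_p8 q q'⟩
  have h : (Set.range p8).encard = 8 := by
    rw [← Set.image_univ, p8_inj.encard_image, Set.encard_univ]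
    simp
  have h2 := le_iSup (fun A : {A : Set M5 // IsAntipodal A} => A.1.encard) ⟨Set.range p8, hA⟩
  rw [← h]
  exact h2

theorem twoNumber_eq : twoNumber M5 = 8 := le_antisymm twoNumber_le le_twoNumber

end Pool.Agent.Y451
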