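import Pool.Agent.Helper381.Nerve
import Pool.Agent.Helper381.Small

/-! Vanishing of singular cohomology above the dimension of a coloured cover. -/

set_option autoImplicit false

noncomputable section

namespace Pool.Agent.Y451

open Pool.Agent.Helper381

universe u v w

section Col

variable {k : Type v} [CommRing k] {X : Type u} [TopologicalSpace X] {P : Type w} {d : ℕ}

/-- chains of increasing colours -/
abbrev CC (col : P → Fin (d + 1)) (p : ℕ) : Type w :=
  {c : Fin (p + 1) → P // StrictMono (fun i => col (c i))}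

/-- faces -/
def ccface {col : P → Fin (d + 1)} (p : ℕ) (i : Fin (p + 2)) (c : CC col (p + 1)) : CC col p :=
  ⟨c.1 ∘ i.succAbove, c.2.comp (Fin.strictMono_succAbove i)⟩

/-- pairs of a chain and a simplex -/
abbrev Z (X : Type u) [TopologicalSpace X] (col : P → Fin (d + 1)) (B : P → Set X) (p q : ℕ) :
    Type (max u w) :=
  {x : CC col p × Sing X q // ∀ i, Set.range x.2 ⊆ B (x.1.1 i)}

variable {col : P → Fin (d + 1)} {B V : P → Set X}

/-- faces -/
def zf1 (q p : ℕ) (i : Fin (p + 2)) (z : Z X col B (p + 1) q) : Z X col B p q :=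
  ⟨(ccface p i z.1.1, z.1.2), fun _ => z.2 _⟩

/-- faces -/
def zf2 (p q : ℕ) (j : Fin (q + 2)) (z : Z X col B p (q + 1)) : Z X col B p q :=
  ⟨(z.1.1, sface q j z.1.2), fun i => (range_sface q j z.1.2).trans (z.2 i)⟩

/-- horizontal coboundary -/
def δ1 (k : Type v) [CommRing k] (col : P → Fin (d + 1)) (B : P → Set X) (p q : ℕ) :
    (Z X col B p q → k) →ₗ[k] (Z X col B (p + 1) q → k) :=
  { toFun := fun f z => ∑ i : Fin (p + 2), (-1 : k) ^ (i : ℕ) * f (zf1 q p i z)
    map_add' := by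
      intro f g; funext z; simp only [Pi.add_apply, mul_add, Finset.sum_add_distrib]
    map_smul' := by
      intro c f; funext z
      simp only [Pi.smul_apply, smul_eq_mul, RingHom.id_apply, Finset.mul_sum]
      exact Finset.sum_congr rfl fun i _ => by ring }

/-- vertical coboundary -/
def δ2 (k : Type v) [CommRing k] (col : P → Fin (d + 1)) (B : P → Set X) (p q : ℕ) :
    (Z X col B p q → k) →ₗ[k] (Z X col B p (q + 1) → k) :=
  { toFun := fun f z => ∑ j : Fin (q + 2), (-1 : k) ^ (j : ℕ) * f (zf2 p q j z)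
    map_add' := by
      intro f g; funext z; simp only [Pi.add_apply, mul_add, Finset.sum_add_distrib]
    map_smul' := by
      intro c f; funext z
      simp only [Pi.smul_apply, smul_eq_mul, RingHom.id_apply, Finset.mul_sum]
      exact Finset.sum_congr rfl fun i _ => by ring }

lemma δ1_apply (p q : ℕ) (f : Z X col B p q → k) (z : Z X col B (p + 1) q) :
    δ1 k col B p q f z = ∑ i : Fin (p + 2), (-1 : k) ^ (i : ℕ) * f (zf1 q p i z) := rfl

lemma δ2_apply (p q : ℕ) (f : Z X col B p q → k) (z : Z X col B p (q + 1)) :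
    δ2 k col B p q f z = ∑ j : Fin (q + 2), (-1 : k) ^ (j : ℕ) * f (zf2 p q j z) := rfl

lemma δ1δ1 (p q : ℕ) (f : Z X col B p q → k) : δ1 k col B (p + 1) q (δ1 k col B p q f) = 0 := by
  funext z
  simp only [δ1_apply, Finset.mul_sum, Pi.zero_apply]
  apply alt_cancel p (fun i j => f (zf1 q p i (zf1 q (p + 1) j z)))
  intro i j hij
  congr 1
  apply Subtype.ext
  apply Prod.ext
  · apply Subtype.ext
    funext x
    simp only [zf1, ccface, Function.comp_apply]
    rw [succAbove_comm i j hij x]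
  · rfl

lemma δ12 (p q : ℕ) (f : Z X col B p q → k) :
    δ1 k col B p (q + 1) (δ2 k col B p q f) = δ2 k col B (p + 1) q (δ1 k col B p q f) := by
  funext z
  simp only [δ1_apply, δ2_apply, Finset.mul_sum]
  rw [Finset.sum_comm]
  refine Finset.sum_congr rfl fun j _ => Finset.sum_congr rfl fun i _ => ?_
  have : zf2 p q j (zf1 (q + 1) p i z) = zf1 q p i (zf2 (p + 1) q j z) := rfl
  rw [this]
  ring

/-- cone data on all intersections -/
def HasCones (B : P → Set X) : Prop :=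
  ∀ (p : ℕ) (c : Fin (p + 1) → P), (⋂ i, B (c i)).Nonempty → ConeData (⋂ i, B (c i))

lemma col_exact [Nonempty X] (hB : HasCones B) (p q : ℕ) (f : Z X col B p (q + 1) → k)
    (hf : δ2 k col B p (q + 1) f = 0) : ∃ g, δ2 k col B p q g = f := by
  classical
  have hcone : ∀ c : Fin (p + 1) → P, ∃ (K : ∀ q, Sing X q → Sing X (q + 1)),
      (⋂ i, B (c i)).Nonempty →
      (∀ q (σ : Sing X q), Set.range σ ⊆ (⋂ i, B (c i)) → Set.range (K q σ) ⊆ (⋂ i, B (c i)) ∧
        sface q 0 (K q σ) = σ) ∧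
      (∀ q (σ : Sing X (q + 1)), Set.range σ ⊆ (⋂ i, B (c i)) → ∀ i : Fin (q + 2),
        sface (q + 1) i.succ (K (q + 1) σ) = K q (sface q i σ)) := by
    intro c
    by_cases h : (⋂ i, B (c i)).Nonempty
    · obtain ⟨pt, K, _, h2, h3, _⟩ := hB p c h
      exact ⟨K, fun _ => ⟨h2, h3⟩⟩
    · exact ⟨fun q _ => ContinuousMap.const _ (Classical.arbitrary X), fun h' => absurd h' h⟩
  choose K hK using hcone
  have hne : ∀ {q : ℕ} (σ : Sing X q) {S : Set X}, Set.range σ ⊆ S → S.Nonempty := by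
    intro q σ S h
    exact ⟨σ (vert q 0), h ⟨_, rfl⟩⟩
  have hr : ∀ (q : ℕ) (z : Z X col B p q), Set.range z.1.2 ⊆ ⋂ i, B (z.1.1.1 i) :=
    fun q z => Set.subset_iInter z.2
  refine ⟨fun z => f ⟨(z.1.1, K z.1.1.1 q z.1.2), fun i =>
    ((hK z.1.1.1 (hne _ (hr q z))).1 q z.1.2 (hr q z)).1.trans (Set.iInter_subset _ i)⟩, ?_⟩
  funext z
  have hz := hr _ z
  obtain ⟨hK1, hK2⟩ := hK z.1.1.1 (hne _ hz)
  have h2 := congrFun hf (⟨(z.1.1, K z.1.1.1 (q + 1) z.1.2), fun i =>
    (hK1 _ z.1.2 hz).1.trans (Set.iInter_subset _ i)⟩ : Z X col B p (q + 2))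
  rw [δ2_apply, Fin.sum_univ_succ] at h2
  simp only [Fin.val_zero, pow_zero, one_mul, Pi.zero_apply] at h2
  have e0 : zf2 p (q + 1) 0 (⟨(z.1.1, K z.1.1.1 (q + 1) z.1.2), fun i =>
      (hK1 _ z.1.2 hz).1.trans (Set.iInter_subset _ i)⟩ : Z X col B p (q + 2)) = z := by
    apply Subtype.ext
    apply Prod.ext
    · rfl
    · exact (hK1 _ z.1.2 hz).2
  rw [e0] at h2
  rw [δ2_apply, eq_neg_of_add_eq_zero_left h2, ← Finset.sum_neg_distrib]
  refine Finset.sum_congr rfl fun i _ => ?_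
  have e1 : zf2 p (q + 1) i.succ (⟨(z.1.1, K z.1.1.1 (q + 1) z.1.2), fun i =>
      (hK1 _ z.1.2 hz).1.trans (Set.iInter_subset _ i)⟩ : Z X col B p (q + 2)) =
      ⟨(z.1.1, K z.1.1.1 q (sface q i z.1.2)), fun j =>
        (hK1 q _ ((range_sface q i z.1.2).trans hz)).1.trans (Set.iInter_subset _ j)⟩ := by
    apply Subtype.ext
    apply Prod.ext
    · rfl
    · exact hK2 q z.1.2 hz i
  rw [e1]
  simp only [zf2, Fin.val_succ, pow_succ]
  ring

/-- prepend an element -/
def CC.cons {p : ℕ} (c : CC col p) (v : P) (h : col v < col (c.1 0)) : CC col (p + 1) :=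
  ⟨Fin.cons v c.1, by
    rw [Fin.strictMono_iff_lt_succ]
    intro i
    refine Fin.cases ?_ (fun i => ?_) i
    · simpa using h
    · have h1 : (Fin.cons v c.1 : Fin (p + 2) → P) (i.succ).succ = c.1 i.succ := by simp
      have h2 : (Fin.cons v c.1 : Fin (p + 2) → P) (i.succ).castSucc = c.1 i.castSucc := by
        rw [← Fin.succ_castSucc]; simp
      simp only [h1, h2]
      exact c.2 Fin.castSucc_lt_succ⟩

lemma cons_face_zero {p : ℕ} (c : CC col p) (v : P) (h : col v < col (c.1 0)) :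
    ccface p 0 (c.cons v h) = c := by
  apply Subtype.ext
  funext x
  simp [ccface, CC.cons]

lemma cons_face_succ {p : ℕ} (c : CC col (p + 1)) (v : P) (h : col v < col (c.1 0))
    (i : Fin (p + 2)) (h' : col v < col ((ccface p i c).1 0)) :
    ccface (p + 1) i.succ (c.cons v h) = (ccface p i c).cons v h' := by
  apply Subtype.ext
  funext x
  refine Fin.cases ?_ (fun x => ?_) x
  · simp [ccface, CC.cons]
  · simp [ccface, CC.cons, Fin.removeNth]

/-- the sets of the same colour are disjoint -/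
def ColDisj (col : P → Fin (d + 1)) (V : P → Set X) : Prop :=
  ∀ v w, col v = col w → (V v ∩ V w).Nonempty → v = w

/-- least coloured element containing a simplex -/
lemma exists_least (hV : ColDisj col V) {q : ℕ} (σ : Sing X q) (h : ∃ v, Set.range σ ⊆ V v) :
    ∃ v, Set.range σ ⊆ V v ∧ ∀ w, Set.range σ ⊆ V w → (w = v ∨ col v < col w) := by
  obtain ⟨m, ⟨v, hv, rfl⟩, hm⟩ := WellFounded.has_min (wellFounded_lt (α := Fin (d + 1)))
    {m | ∃ v, Set.range σ ⊆ V v ∧ col v = m} ⟨_, h.choose, h.choose_spec, rfl⟩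
  refine ⟨v, hv, fun w hw => ?_⟩
  rcases lt_or_eq_of_le (not_lt.1 (hm (col w) ⟨w, hw, rfl⟩)) with h1 | h1
  · right; exact h1
  · left
    exact hV w v h1.symm ⟨σ (vert q 0), hw ⟨_, rfl⟩, hv ⟨_, rfl⟩⟩

/-- constant chain -/
def cc0 (col : P → Fin (d + 1)) (v : P) : CC col 0 :=
  ⟨fun _ => v, fun a b hab => absurd hab (by
    have := Subsingleton.elim (α := Fin 1) a b; rw [this]; exact lt_irrefl _)⟩

lemma exists_J [Nonempty P] (hV : ColDisj col V) (q : ℕ) : ∃ J : Sing X q → P, ∀ σ : Sing X q,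
    (∃ v, Set.range σ ⊆ V v) → (Set.range σ ⊆ V (J σ) ∧
      ∀ w, Set.range σ ⊆ V w → (w = J σ ∨ col (J σ) < col w)) := by
  classical
  have hJ' : ∀ σ : Sing X q, ∃ v : P, (∃ v, Set.range σ ⊆ V v) → (Set.range σ ⊆ V v ∧
      ∀ w, Set.range σ ⊆ V w → (w = v ∨ col v < col w)) := by
    intro σ
    by_cases h : ∃ v, Set.range σ ⊆ V v
    · obtain ⟨v, hv⟩ := exists_least hV σ h
      exact ⟨v, fun _ => hv⟩
    · exact ⟨Classical.arbitrary P, fun h' => absurd h' h⟩
  choose J hJ using hJ'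
  exact ⟨J, hJ⟩

lemma row_exact [Nonempty P] (hV : ColDisj col V) (p q : ℕ) (f : Z X col V (p + 1) q → k)
    (hf : δ1 k col V (p + 1) q f = 0) : ∃ g, δ1 k col V p q g = f := by
  classical
  obtain ⟨J, hJ⟩ := exists_J hV q
  let g : Z X col V p q → k := fun z =>
    if h : Set.range z.1.2 ⊆ V (J z.1.2) ∧ col (J z.1.2) < col (z.1.1.1 0) then
      f ⟨(z.1.1.cons (J z.1.2) h.2, z.1.2), fun i => by
        refine Fin.cases ?_ (fun i => ?_) i
        · simpa [CC.cons] using h.1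
        · simpa [CC.cons] using z.2 i⟩ else 0
  have hmem : ∀ (r : ℕ) (z : Z X col V r q) (h : Set.range z.1.2 ⊆ V (J z.1.2))
      (h' : col (J z.1.2) < col (z.1.1.1 0)), ∀ i,
      Set.range z.1.2 ⊆ V ((z.1.1.cons (J z.1.2) h').1 i) := by
    intro r z h h' i
    refine Fin.cases ?_ (fun i => ?_) i
    · simpa [CC.cons] using h
    · simpa [CC.cons] using z.2 i
  have gpos : ∀ (z : Z X col V p q) (h : Set.range z.1.2 ⊆ V (J z.1.2))
      (h' : col (J z.1.2) < col (z.1.1.1 0)),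
      g z = f ⟨(z.1.1.cons (J z.1.2) h', z.1.2), hmem p z h h'⟩ :=
    fun z h h' => dif_pos ⟨h, h'⟩
  have gneg : ∀ (z : Z X col V p q) (h : ¬ (col (J z.1.2) < col (z.1.1.1 0))), g z = 0 :=
    fun z h => dif_neg (fun h' => h h'.2)
  refine ⟨g, ?_⟩
  funext z
  obtain ⟨⟨c, σ⟩, hz⟩ := z
  obtain ⟨hJ1, hJ2⟩ := hJ σ ⟨_, hz 0⟩
  rw [δ1_apply]
  rcases hJ2 _ (hz 0) with heq | hlt
  · rw [Fin.sum_univ_succ]
    have hlt1 : col (J σ) < col ((ccface p 0 c).1 0) := by
      rw [← heq]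
      simp only [ccface, Function.comp_apply]
      exact c.2 (by simp [Fin.succAbove])
    have hs : ∀ i : Fin (p + 1), (ccface p i.succ c).1 0 = c.1 0 := by
      intro i
      simp [ccface]
    have e : ∑ i : Fin (p + 1), (-1 : k) ^ ((i.succ : Fin (p + 2)) : ℕ) *
        g (zf1 q p i.succ ⟨(c, σ), hz⟩) = 0 := by
      apply Finset.sum_eq_zero
      intro i _
      rw [gneg, mul_zero]
      change ¬ (col (J σ) < col ((ccface p i.succ c).1 0))
      rw [hs i, heq]; exact lt_irrefl _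
    rw [e, gpos (zf1 q p 0 ⟨(c, σ), hz⟩) hJ1 hlt1]
    simp only [Fin.val_zero, pow_zero, one_mul, add_zero]
    congr 1
    apply Subtype.ext
    apply Prod.ext
    · apply Subtype.ext
      funext x
      refine Fin.cases ?_ (fun x => ?_) x
      · simp only [CC.cons, zf1, Fin.cons_zero]
        exact heq.symm
      · simp [CC.cons, ccface, zf1]
    · rfl
  · have hlti : ∀ i : Fin (p + 2), col (J σ) < col ((ccface p i c).1 0) := by
      intro i
      refine lt_of_lt_of_le hlt ?_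
      exact c.2.monotone (Fin.zero_le _)
    have h2 := congrFun hf (⟨(c.cons (J σ) hlt, σ), hmem (p + 1) ⟨(c, σ), hz⟩ hJ1 hlt⟩ :
      Z X col V (p + 2) q)
    rw [δ1_apply, Fin.sum_univ_succ] at h2
    simp only [Fin.val_zero, pow_zero, one_mul, Pi.zero_apply] at h2
    have e0 : zf1 q (p + 1) 0 (⟨(c.cons (J σ) hlt, σ), hmem (p + 1) ⟨(c, σ), hz⟩ hJ1 hlt⟩ :
        Z X col V (p + 2) q) = ⟨(c, σ), hz⟩ := by
      apply Subtype.ext
      apply Prod.ext
      · exact cons_face_zero c _ hlt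
      · rfl
    rw [e0] at h2
    rw [eq_neg_of_add_eq_zero_left h2, ← Finset.sum_neg_distrib]
    refine Finset.sum_congr rfl fun i _ => ?_
    have e1 : zf1 q (p + 1) i.succ (⟨(c.cons (J σ) hlt, σ),
        hmem (p + 1) ⟨(c, σ), hz⟩ hJ1 hlt⟩ : Z X col V (p + 2) q) =
        ⟨((ccface p i c).cons (J σ) (hlti i), σ),
          hmem p (zf1 q p i ⟨(c, σ), hz⟩) hJ1 (hlti i)⟩ := by
      apply Subtype.ext
      apply Prod.ext
      · exact cons_face_succ c _ hlt i (hlti i)
      · rfl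
    rw [e1, gpos (zf1 q p i ⟨(c, σ), hz⟩) hJ1 (hlti i)]
    simp only [zf1, Fin.val_succ, pow_succ]
    ring

/-- exactness at the beginning of the rows -/
lemma row_zero [Nonempty P] (hV : ColDisj col V) (q : ℕ) (f : Z X col V 0 q → k)
    (hf : δ1 k col V 0 q f = 0) : ∃ g : Small (Set.range V) q → k,
      ∀ z : Z X col V 0 q, f z = g ⟨z.1.2, V (z.1.1.1 0), ⟨_, rfl⟩, z.2 0⟩ := by
  classical
  obtain ⟨J, hJ⟩ := exists_J hV q
  have hs : ∀ σ : Small (Set.range V) q, ∃ v, Set.range σ.1 ⊆ V v := by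
    rintro ⟨σ, _, ⟨v, rfl⟩, h⟩
    exact ⟨v, h⟩
  refine ⟨fun σ => f ⟨(cc0 col (J σ.1), σ.1), fun _ => (hJ σ.1 (hs σ)).1⟩, ?_⟩
  rintro ⟨⟨c, σ⟩, hz⟩
  obtain ⟨hJ1, hJ2⟩ := hJ σ ⟨_, hz 0⟩
  change f ⟨(c, σ), hz⟩ = f ⟨(cc0 col (J σ), σ), _⟩
  rcases hJ2 _ (hz 0) with heq | hlt
  · congr 1
    apply Subtype.ext
    apply Prod.ext
    · apply Subtype.ext
      funext i
      have hi0 : i = 0 := Subsingleton.elim (α := Fin 1) i 0
      rw [hi0]
      exact heq
    · rfl
  · have h2 := congrFun hf (⟨(c.cons (J σ) hlt, σ), fun i => by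
      refine Fin.cases ?_ (fun i => ?_) i
      · simpa [CC.cons] using hJ1
      · simpa [CC.cons] using hz i⟩ : Z X col V 1 q)
    rw [δ1_apply, Fin.sum_univ_two] at h2
    simp only [Fin.val_zero, pow_zero, one_mul, Fin.val_one, pow_one, neg_mul,
      Pi.zero_apply] at h2
    rw [← sub_eq_add_neg, sub_eq_zero] at h2
    have e0 : ∀ hh, zf1 q 0 0 (⟨(c.cons (J σ) hlt, σ), hh⟩ : Z X col V 1 q) = ⟨(c, σ), hz⟩ := by
      intro hh
      apply Subtype.ext
      apply Prod.ext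
      · exact cons_face_zero c _ hlt
      · rfl
    rw [e0] at h2
    rw [h2]
    congr 1
    apply Subtype.ext
    apply Prod.ext
    · apply Subtype.ext
      funext i
      have hi0 : i = 0 := Subsingleton.elim (α := Fin 1) i 0
      rw [hi0]
      simp [zf1, ccface, CC.cons, cc0]
    · rfl

/-- restriction -/
def res (hVB : ∀ v, V v ⊆ B v) (p q : ℕ) : (Z X col B p q → k) →ₗ[k] (Z X col V p q → k) :=
  { toFun := fun f z => f ⟨z.1, fun i => (z.2 i).trans (hVB _)⟩
    map_add' := fun _ _ => rfl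
    map_smul' := fun _ _ => rfl }

lemma res_δ1 (hVB : ∀ v, V v ⊆ B v) (p q : ℕ) (f : Z X col B p q → k) :
    res hVB (p + 1) q (δ1 k col B p q f) = δ1 k col V p q (res hVB p q f) := rfl

lemma res_δ2 (hVB : ∀ v, V v ⊆ B v) (p q : ℕ) (f : Z X col B p q → k) :
    res hVB p (q + 1) (δ2 k col B p q f) = δ2 k col V p q (res hVB p q f) := rfl

lemma isEmpty_CC (p : ℕ) (hp : d < p) : IsEmpty (CC col p) := by
  constructor
  intro c
  have h1 := Fintype.card_le_of_injective _ c.2.injective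
  simp only [Fintype.card_fin] at h1
  omega

end Col

end Pool.Agent.Y451
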