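import Pool.Agent.Y451.Van1

/-! The zigzag and the vanishing theorem. -/

set_option autoImplicit false

noncomputable section

namespace Pool.Agent.Y451

open Pool.Agent.Helper381

universe u v w

section Col

variable {k : Type v} [CommRing k] {X : Type u} [TopologicalSpace X] {P : Type w} {d : ℕ}

variable {col : P → Fin (d + 1)} {B V : P → Set X}

lemma zf2_fst {p q : ℕ} (j : Fin (q + 2)) (z : Z X col B p (q + 1)) :
    (zf2 p q j z).1.1 = z.1.1 := rfl

lemma zf2_snd {p q : ℕ} (j : Fin (q + 2)) (z : Z X col B p (q + 1)) :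
    (zf2 p q j z).1.2 = sface q j z.1.2 := rfl

lemma zf2_zf2 (p q : ℕ) (z : Z X col B p (q + 1 + 1)) (i j : Fin (q + 2)) (hij : i ≤ j) :
    zf2 p q i (zf2 p (q + 1) j.succ z) = zf2 p q j (zf2 p (q + 1) i.castSucc z) := by
  apply Subtype.ext
  apply Prod.ext
  · rw [zf2_fst, zf2_fst, zf2_fst, zf2_fst]
  · rw [zf2_snd, zf2_snd, zf2_snd, zf2_snd]
    exact sface_sface q i j z.1.2 hij

lemma δ2δ2 (p q : ℕ) (g : Z X col B p q → k) : δ2 k col B p (q + 1) (δ2 k col B p q g) = 0 := by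
  funext z
  simp only [δ2_apply, Finset.mul_sum, Pi.zero_apply]
  exact alt_cancel q (fun i j => g (zf2 p q i (zf2 p (q + 1) j z)))
    (fun i j hij => congrArg g (zf2_zf2 p q z i j hij))

/-- the zigzag -/
lemma zigzag [Nonempty X] [Nonempty P] (hV : ColDisj col V) (hB : HasCones B)
    (hVB : ∀ v, V v ⊆ B v) : ∀ (m p q : ℕ), p + m = d → m ≤ q → ∀ x : Z X col B p (q + 1) → k,
      δ2 k col B p (q + 1) x = 0 → δ1 k col B p (q + 1) x = 0 →
      ∃ y : Z X col V p q → k, δ2 k col V p q y = res hVB p (q + 1) x ∧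
        δ1 k col V p q y = 0 := by
  intro m
  induction m with
  | zero =>
    intro p q hp _ x hx _
    obtain ⟨e, he⟩ := col_exact hB p q x hx
    refine ⟨res hVB p q e, ?_, ?_⟩
    · rw [← res_δ2, he]
    · funext z
      exact ((isEmpty_CC (col := col) (p + 1) (by omega)).false z.1.1).elim
  | succ m ih =>
    intro p q hp hq x hx hx1
    obtain ⟨q, rfl⟩ : ∃ q', q = q' + 1 := ⟨q - 1, by omega⟩
    obtain ⟨e, he⟩ := col_exact hB p (q + 1) x hx
    obtain ⟨y', hy1, hy2⟩ := ih (p + 1) q (by omega) (by omega) (δ1 k col B p (q + 1) e) (by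
      rw [← δ12, he]
      exact hx1) (δ1δ1 _ _ _)
    obtain ⟨g, hg⟩ := row_exact hV p q y' hy2
    refine ⟨res hVB p (q + 1) e - δ2 k col V p q g, ?_, ?_⟩
    · rw [map_sub, δ2δ2, sub_zero, ← res_δ2, he]
    · rw [map_sub, δ12, hg, hy1, res_δ1, sub_self]

/-- a cocycle is a coboundary if it is one on small simplices -/
lemma of_small (𝒞 : Set (Set X)) (hopen : ∀ C ∈ 𝒞, IsOpen C) (hcov : ∀ x : X, ∃ C ∈ 𝒞, x ∈ C)
    (n : ℕ) (f : Sing X (n + 1) → k) (hf : altd k (sface (X := X)) (n + 1) f = 0)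
    (h : Small 𝒞 n → k)
    (hfg' : ∀ σ : Small 𝒞 (n + 1), f σ.1 = altd k (smface (𝒞 := 𝒞)) n h σ) :
    ∃ g : Sing X n → k, altd k (sface (X := X)) n g = f := by
  classical
  refine ⟨fun σ => evc (extz 𝒞 h) (rho 𝒞 n (Finsupp.single σ 1)) +
    evc f (DD 𝒞 n (Finsupp.single σ 1)), ?_⟩
  funext σ
  rw [altd_eq_ev]
  have h1 : Finsupp.linearCombination ℤ
      (fun σ => evc (extz 𝒞 h) (rho 𝒞 n (Finsupp.single σ 1)) +
        evc f (DD 𝒞 n (Finsupp.single σ 1))) =
      (evc (extz 𝒞 h)).comp (rho 𝒞 n) + (evc f).comp (DD 𝒞 n) := by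
    apply Finsupp.lhom_ext'
    intro σ
    apply LinearMap.ext_ring
    simp only [LinearMap.comp_apply, Finsupp.lsingle_apply, Finsupp.linearCombination_single,
      one_smul, LinearMap.add_apply]
  rw [h1, LinearMap.add_apply, LinearMap.comp_apply, LinearMap.comp_apply]
  have h2 : f σ = evc f (rho 𝒞 (n + 1) (Finsupp.single σ 1)) +
      evc f (sbd X (n + 1) (DD 𝒞 (n + 1) (Finsupp.single σ 1))) +
      evc f (DD 𝒞 n (sbd X n (Finsupp.single σ 1))) := by
    rw [rho_succ, map_sub, map_sub, evc_single]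
    ring
  rw [h2]
  have h3 : evc f (sbd X (n + 1) (DD 𝒞 (n + 1) (Finsupp.single σ 1))) = 0 := by
    rw [← ev_altd, hf]
    simp
  have h4 : evc f (rho 𝒞 (n + 1) (Finsupp.single σ 1)) =
      evc (extz 𝒞 h) (rho 𝒞 n (sbd X n (Finsupp.single σ 1))) := by
    rw [← sbd_rho, ← ev_altd]
    apply evc_congr (smallSet 𝒞 (n + 1)) _ _ _ _ (rho_small 𝒞 hopen hcov (n + 1) _)
    intro τ hτ
    rw [extz_altd 𝒞 h τ hτ]
    exact hfg' ⟨τ, hτ⟩
  rw [h3, h4, add_zero]

/-- Vanishing of singular cohomology above the dimension of a coloured cover. -/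
theorem vanish [Nonempty X] (hV : ColDisj col V) (hB : HasCones B) (hVB : ∀ v, V v ⊆ B v)
    (hVo : ∀ v, IsOpen (V v)) (hVc : ∀ x, ∃ v, x ∈ V v) (n : ℕ) (hn : d ≤ n)
    (f : Sing X (n + 1) → k) (hf : altd k (sface (X := X)) (n + 1) f = 0) :
    ∃ g : Sing X n → k, altd k (sface (X := X)) n g = f := by
  have hP : Nonempty P := by
    obtain ⟨v, _⟩ := hVc (Classical.arbitrary X)
    exact ⟨v⟩
  let x : Z X col B 0 (n + 1) → k := fun z => f z.1.2
  have hx2 : δ2 k col B 0 (n + 1) x = 0 := by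
    funext z
    exact congrFun hf z.1.2
  have hx1 : δ1 k col B 0 (n + 1) x = 0 := by
    funext z
    rw [δ1_apply, Fin.sum_univ_two]
    simp [x, zf1]
  obtain ⟨y, hy1, hy2⟩ := zigzag hV hB hVB d 0 n (by omega) hn x hx2 hx1
  obtain ⟨g, hg⟩ := row_zero hV n y hy2
  apply of_small (Set.range V) _ _ n f hf g
  · rintro ⟨σ, _, ⟨v, rfl⟩, hσ⟩
    have h1 := congrFun hy1 (⟨(cc0 col v, σ), fun _ => hσ⟩ : Z X col V 0 (n + 1))
    change f σ = _
    change _ = f σ at h1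
    rw [← h1, δ2_apply, altd_apply]
    refine Finset.sum_congr rfl fun i _ => ?_
    rw [hg]
    rfl
  · rintro _ ⟨v, rfl⟩
    exact hVo v
  · intro x
    obtain ⟨v, hv⟩ := hVc x
    exact ⟨V v, ⟨v, rfl⟩, hv⟩

end Col

end Pool.Agent.Y451
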